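import Mathlib

/-!
The space `B(K₂)` of bounded continuous functions on the plane with spectrum in the closed unit disc,
and the mixed second derivative.
-/

open MeasureTheory

namespace Pool.Agent.Lib.MP_7ba380_an

/-- The Euclidean plane `ℝ²`. -/
abbrev Plane := EuclideanSpace ℝ (Fin 2)

/-- The Fourier transform `ψ ↦ (x ↦ ∫ e^{-i(x,ξ)} ψ(ξ) dξ)` of a function on the plane. -/
noncomputable def fourierT (ψ : Plane → ℂ) (x : Plane) : ℂ :=
  ∫ ξ, Complex.exp (-(Complex.I * ((inner ℝ x ξ : ℝ) : ℂ))) * ψ ξ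

/-- `f ∈ B(K₂)`: the function `f` is continuous and bounded, and its Fourier transform in the sense of
tempered distributions, which is the functional `ψ ↦ ∫ f ψ̂`, vanishes on the complement of the closed
unit disc, that is, on all Schwartz functions `ψ` whose closed support does not meet the closed unit
disc. -/
def InB (f : Plane → ℂ) : Prop :=
  Continuous f ∧ (∃ C : ℝ, ∀ x, ‖f x‖ ≤ C) ∧
    ∀ ψ : SchwartzMap Plane ℂ, tsupport ψ ⊆ (Metric.closedBall (0 : Plane) 1)ᶜ →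
      ∫ x, f x * fourierT ψ x = 0

/-- The first-order derivative of `f` in the direction of the `i`-th coordinate axis. -/
noncomputable def dx (i : Fin 2) (f : Plane → ℂ) (x : Plane) : ℂ :=
  lineDeriv ℝ f x (EuclideanSpace.single i 1)

/-- The mixed second derivative `T = ∂²/∂x₁∂x₂`. -/
noncomputable def T (f : Plane → ℂ) : Plane → ℂ := dx 0 (dx 1 f)

/-- The set of all values `|T f(x)|` with `f ∈ B(K₂)`, `‖f‖ ≤ 1` and `x ∈ ℝ²`. Its supremum is
`sup {‖T f‖ : f ∈ B(K₂), ‖f‖ ≤ 1}`, the operator norm `‖T‖`. -/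
def imageValues : Set ℝ :=
  {r : ℝ | ∃ (f : Plane → ℂ) (x : Plane), InB f ∧ (∀ z, ‖f z‖ ≤ 1) ∧ r = ‖T f x‖}

/-- The operator norm `‖T‖` of `T` on `B(K₂)`, the supremum of `imageValues`. -/
noncomputable def normT : ℝ := sSup imageValues

/-- Normal extremals of `T`: functions `f ∈ B(K₂)` with `‖f‖ ≤ 1` and `(T f)(0) = ‖T‖`. -/
def IsNormalExtremal (f : Plane → ℂ) : Prop :=
  InB f ∧ (∀ x, ‖f x‖ ≤ 1) ∧ T f 0 = (normT : ℂ)

/-- The unit vector `(1,1)/√2` along the diagonal `x₁ = x₂`. -/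
noncomputable def eu : Plane := !₂[1 / Real.sqrt 2, 1 / Real.sqrt 2]

/-- The unit vector `(1,-1)/√2` along the diagonal `x₁ = -x₂`. -/
noncomputable def ev : Plane := !₂[1 / Real.sqrt 2, -(1 / Real.sqrt 2)]

/-- `ρ(u) = √(u² + (π/2)²)`. -/
noncomputable def rad (u : ℝ) : ℝ := Real.sqrt (u ^ 2 + (Real.pi / 2) ^ 2)

/-- The nodes `x_k = π √(k² - 1/4)`. -/
noncomputable def node (k : ℕ) : ℝ := Real.pi * Real.sqrt ((k : ℝ) ^ 2 - 1 / 4)

/-- Interpolation conditions: `f = (-1)^{k+1}` at the points `±x_k e_u` and `f = (-1)^k` at the points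
`±x_k e_v`, for all `k ≥ 1`. -/
def NodeConditions (f : Plane → ℂ) : Prop :=
  ∀ k : ℕ, 1 ≤ k →
    f (node k • eu) = (-1) ^ (k + 1) ∧ f (-(node k • eu)) = (-1) ^ (k + 1) ∧
    f (node k • ev) = (-1) ^ k ∧ f (-(node k • ev)) = (-1) ^ k

/-- Conditions on the two diagonals: for some real `a`, `β`, `γ` with `a² + β² ≤ 1`, `a² + γ² ≤ 1`,
`f(u e_u) = -cos ρ(u) + i (aπ/2 + β u) sin ρ(u) / ρ(u)` and
`f(v e_v) = cos ρ(v) + i (aπ/2 + γ v) sin ρ(v) / ρ(v)` for all real `u`, `v`. -/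
def DiagonalConditions (f : Plane → ℂ) : Prop :=
  ∃ a β γ : ℝ, a ^ 2 + β ^ 2 ≤ 1 ∧ a ^ 2 + γ ^ 2 ≤ 1 ∧
    (∀ u : ℝ, f (u • eu) = -(Real.cos (rad u) : ℂ) +
      Complex.I * (((a * (Real.pi / 2) + β * u) * (Real.sin (rad u) / rad u) : ℝ) : ℂ)) ∧
    (∀ v : ℝ, f (v • ev) = (Real.cos (rad v) : ℂ) +
      Complex.I * (((a * (Real.pi / 2) + γ * v) * (Real.sin (rad v) / rad v) : ℝ) : ℂ))

/-- The basic extremal function
`f₀(x) = (cos|x - (π/2)e_u| + cos|x + (π/2)e_u| - cos|x - (π/2)e_v| - cos|x + (π/2)e_v|) / 2`. -/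
noncomputable def basicExtremal (x : Plane) : ℂ :=
  (((Real.cos ‖x - (Real.pi / 2) • eu‖ + Real.cos ‖x + (Real.pi / 2) • eu‖ -
    Real.cos ‖x - (Real.pi / 2) • ev‖ - Real.cos ‖x + (Real.pi / 2) • ev‖) / 2 : ℝ) : ℂ)

/-- The weight `(x,e_u)² (x,e_v)² / (2 (|x| + π/2)⁴)`, which is positive off the two diagonals. -/
noncomputable def weight (x : Plane) : ℝ :=
  (inner ℝ eu x : ℝ) ^ 2 * (inner ℝ ev x : ℝ) ^ 2 / (2 * (‖x‖ + Real.pi / 2) ^ 4)

end Pool.Agent.Lib.MP_7ba380_an
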