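import Mathlib

open MeasureTheory Set Finset
open scoped Real

namespace Pool.Agent.Lib.MP_7ba380_an

/-- `∫_0^{2π} e^{ikφ} dφ` -/
lemma integral_exp_int (k : ℤ) :
    ∫ φ in (0:ℝ)..(2 * π), Complex.exp (k * φ * Complex.I) = if k = 0 then 2 * (π : ℂ) else 0 := by
  split_ifs with hk
  · subst hk; simp
  · have hc : (k * Complex.I : ℂ) ≠ 0 := mul_ne_zero (by exact_mod_cast hk) Complex.I_ne_zero
    have h1 : ∀ φ : ℝ, Complex.exp (k * φ * Complex.I) = Complex.exp ((k * Complex.I) * φ) := by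
      intro φ; congr 1; ring
    simp_rw [h1]
    rw [integral_exp_mul_complex hc]
    have h2 : Complex.exp (k * Complex.I * ((2 * π : ℝ) : ℂ)) = 1 := by
      rw [Complex.exp_eq_one_iff]
      exact ⟨k, by push_cast; ring⟩
    rw [h2]; simp

lemma angular (X1 X2 : ℂ) (N : ℕ) :
    ∫ φ in (0:ℝ)..(2 * π), (X1 * Real.cos φ + X2 * Real.sin φ) ^ N =
      if Even N then 2 * π * (Nat.centralBinom (N / 2) / 4 ^ (N / 2)) * (X1 ^ 2 + X2 ^ 2) ^ (N / 2)
      else 0 := by
  set Z : ℂ := X1 - Complex.I * X2 with hZ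
  set Z' : ℂ := X1 + Complex.I * X2 with hZ'
  have hZZ : Z * Z' = X1 ^ 2 + X2 ^ 2 := by
    rw [hZ, hZ']
    have := Complex.I_sq
    linear_combination (-X2 ^ 2) * this
  have h1 : ∀ φ : ℝ, (X1 * Real.cos φ + X2 * Real.sin φ) ^ N =
      ∑ m ∈ range (N + 1), ((1 / 2) ^ N * Z ^ m * Z' ^ (N - m) * N.choose m) *
        Complex.exp (((2 * m - N : ℤ) : ℂ) * φ * Complex.I) := by
    intro φ
    have h2 : (X1 * Real.cos φ + X2 * Real.sin φ) =
        (1 / 2) * (Z * Complex.exp (φ * Complex.I) + Z' * Complex.exp (-(φ * Complex.I))) := by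
      push_cast
      rw [← neg_mul, Complex.exp_mul_I, Complex.exp_mul_I, Complex.cos_neg, Complex.sin_neg, hZ, hZ']
      have := Complex.I_sq
      linear_combination (X2 * Complex.sin φ) * this
    rw [h2, mul_pow, add_pow, mul_sum]
    refine Finset.sum_congr rfl ?_
    intro m hm
    have hmN : m ≤ N := Nat.lt_succ_iff.mp (Finset.mem_range.mp hm)
    rw [mul_pow, mul_pow, ← Complex.exp_nat_mul, ← Complex.exp_nat_mul]
    have h3 : Complex.exp (((2 * m - N : ℤ) : ℂ) * φ * Complex.I) =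
        Complex.exp (m * (φ * Complex.I)) * Complex.exp ((N - m : ℕ) * -(φ * Complex.I)) := by
      rw [← Complex.exp_add]
      congr 1
      push_cast [Nat.cast_sub hmN]
      ring
    rw [h3]
    ring
  simp_rw [h1]
  rw [intervalIntegral.integral_finsetSum]
  · simp_rw [intervalIntegral.integral_const_mul, integral_exp_int]
    split_ifs with hN
    · obtain ⟨n, rfl⟩ := hN
      rw [Finset.sum_eq_single n]
      · rw [if_pos (by push_cast; ring)]
        have e1 : (n + n) / 2 = n := by omega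
        have e2 : n + n - n = n := by omega
        rw [e1, e2, ← hZZ, mul_pow, Nat.centralBinom]
        have e3 : (n + n).choose n = (2 * n).choose n := by rw [two_mul]
        rw [e3]
        have e4 : ((1:ℂ) / 2) ^ (n + n) = 1 / 4 ^ n := by
          rw [← two_mul, pow_mul, ← one_div_pow]; norm_num
        rw [e4]
        ring
      · intro m _ hm
        rw [if_neg, mul_zero]
        push_cast
        intro h
        exact hm (by omega)
      · intro h
        exact absurd (Finset.mem_range.mpr (by omega)) h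
    · refine Finset.sum_eq_zero ?_
      intro m _
      rw [if_neg, mul_zero]
      intro h
      apply hN
      exact ⟨m, by omega⟩
  · intro m _
    exact (Continuous.intervalIntegrable (by fun_prop) _ _)

lemma wallis_prod (n : ℕ) :
    (∏ i ∈ range n, ((2:ℝ) * i + 2) / (2 * i + 3)) * (Nat.centralBinom n / 4 ^ n) = 1 / (2 * n + 1) := by
  induction n with
  | zero => simp
  | succ n ih =>
    rw [prod_range_succ]
    have h := Nat.succ_mul_centralBinom_succ n
    have h' : ((n:ℝ) + 1) * (Nat.centralBinom (n + 1)) = 2 * (2 * n + 1) * Nat.centralBinom n := by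
      exact_mod_cast h
    have h2 : (Nat.centralBinom (n + 1) : ℝ) = 2 * (2 * n + 1) * Nat.centralBinom n / (n + 1) := by
      rw [← h']; field_simp
    rw [h2]
    have h3 : (∏ i ∈ range n, ((2:ℝ) * i + 2) / (2 * i + 3)) * ((2 * n + 2) / (2 * n + 3)) *
        (2 * (2 * n + 1) * (Nat.centralBinom n) / (n + 1) / 4 ^ (n + 1)) =
        ((∏ i ∈ range n, ((2:ℝ) * i + 2) / (2 * i + 3)) * (Nat.centralBinom n / 4 ^ n)) *
        ((2 * n + 1) / (2 * n + 3)) := by
      rw [pow_succ]
      field_simp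
      ring
    rw [h3, ih]
    push_cast
    field_simp
    ring

/-- the parameter measure on the sphere -/
noncomputable def nu : Measure (ℝ × ℝ) :=
  (volume.restrict (Ioc 0 π)).prod (volume.restrict (Ioc 0 (2 * π)))

instance : IsFiniteMeasure nu := by unfold nu; infer_instance

/-- weight -/
noncomputable def wt (p : ℝ × ℝ) : ℝ := Real.sin p.1 / (4 * π)

lemma moment (X1 X2 : ℂ) (N : ℕ) :
    ∫ p, (wt p : ℂ) * (Real.sin p.1 * (X1 * Real.cos p.2 + X2 * Real.sin p.2)) ^ N ∂nu =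
      if Even N then (X1 ^ 2 + X2 ^ 2) ^ (N / 2) / (N + 1) else 0 := by
  have h1 : ∀ p : ℝ × ℝ, (wt p : ℂ) * (Real.sin p.1 * (X1 * Real.cos p.2 + X2 * Real.sin p.2)) ^ N =
      ((1 / (4 * π)) * ((Real.sin p.1 ^ (N + 1) : ℝ) : ℂ)) * (X1 * Real.cos p.2 + X2 * Real.sin p.2) ^ N := by
    intro p
    unfold wt
    push_cast
    rw [mul_pow, pow_succ]
    ring
  simp_rw [h1]
  unfold nu
  rw [integral_prod_mul (fun x : ℝ => ((1 / (4 * π)) * ((Real.sin x ^ (N + 1) : ℝ) : ℂ)))
    (fun y : ℝ => (X1 * Real.cos y + X2 * Real.sin y) ^ N)]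
  rw [← intervalIntegral.integral_of_le Real.pi_pos.le,
    ← intervalIntegral.integral_of_le (by positivity), angular]
  split_ifs with hN
  · obtain ⟨n, rfl⟩ := hN
    rw [intervalIntegral.integral_const_mul, intervalIntegral.integral_ofReal]
    have e0 : n + n + 1 = 2 * n + 1 := by omega
    rw [e0, integral_sin_pow_odd]
    have e1 : (n + n) / 2 = n := by omega
    rw [e1]
    have hw := wallis_prod n
    have hw' : ((∏ i ∈ range n, ((2:ℝ) * i + 2) / (2 * i + 3) : ℝ) : ℂ) * (Nat.centralBinom n / 4 ^ n) =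
        1 / (2 * n + 1) := by
      have := congrArg (fun x : ℝ => (x : ℂ)) hw
      simp only [Complex.ofReal_mul, Complex.ofReal_div, Complex.ofReal_pow, Complex.ofReal_natCast,
        Complex.ofReal_add, Complex.ofReal_one, Complex.ofReal_ofNat] at this
      exact this
    have e2 : (1 / (4 * (π:ℂ)) * ((2 * ∏ i ∈ range n, ((2:ℝ) * i + 2) / (2 * i + 3) : ℝ) : ℂ)) *
        (2 * π * (Nat.centralBinom n / 4 ^ n) * (X1 ^ 2 + X2 ^ 2) ^ n) =
        (((∏ i ∈ range n, ((2:ℝ) * i + 2) / (2 * i + 3) : ℝ) : ℂ) * (Nat.centralBinom n / 4 ^ n)) *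
        (X1 ^ 2 + X2 ^ 2) ^ n := by
      have : (π : ℂ) ≠ 0 := by exact_mod_cast Real.pi_ne_zero
      push_cast
      field_simp
      ring
    rw [e2, hw']
    push_cast
    ring
  · rw [mul_zero]

/-- `sin √w / √w` as an entire function -/
noncomputable def Sf (w : ℂ) : ℂ := ∑' n : ℕ, (-1) ^ n * w ^ n / ((2 * n + 1).factorial : ℂ)

lemma Sf_hasSum (w : ℂ) :
    HasSum (fun n : ℕ => (-1) ^ n * w ^ n / ((2 * n + 1).factorial : ℂ)) (Sf w) := by
  refine Summable.hasSum ?_
  refine Summable.of_norm_bounded (g := fun n : ℕ => ‖w‖ ^ n / (n.factorial : ℝ))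
    (Real.summable_pow_div_factorial ‖w‖) ?_
  intro n
  rw [norm_div, norm_mul, norm_pow, norm_pow, norm_neg, norm_one, one_pow, one_mul,
    Complex.norm_natCast]
  gcongr
  omega

lemma Sf_mul (r : ℂ) : Sf (r ^ 2) * r = Complex.sin r := by
  have h1 := (Sf_hasSum (r ^ 2)).mul_right r
  refine h1.unique ?_
  have h2 := Complex.hasSum_sin r
  refine h2.congr_fun ?_
  intro n
  rw [← pow_mul, pow_succ]
  ring

lemma Sf_zero : Sf 0 = 1 := by
  have h1 := Sf_hasSum 0
  refine h1.unique ?_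
  have h2 := hasSum_single (f := fun n : ℕ => (-1) ^ n * (0:ℂ) ^ n / ((2 * n + 1).factorial : ℂ)) 0
    (by intro n hn; simp [hn])
  simpa using h2

/-- argument of the exponential -/
noncomputable def Ex (X1 X2 : ℂ) (p : ℝ × ℝ) : ℂ :=
  Real.sin p.1 * (X1 * Real.cos p.2 + X2 * Real.sin p.2)

lemma Ex_bound (X1 X2 : ℂ) (p : ℝ × ℝ) : ‖Ex X1 X2 p‖ ≤ ‖X1‖ + ‖X2‖ := by
  unfold Ex
  rw [norm_mul]
  have h1 : ‖((Real.sin p.1 : ℝ) : ℂ)‖ ≤ 1 := by
    rw [Complex.norm_real]; exact Real.abs_sin_le_one _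
  have h2 : ‖((Real.cos p.2 : ℝ) : ℂ)‖ ≤ 1 := by
    rw [Complex.norm_real]; exact Real.abs_cos_le_one _
  have h3 : ‖((Real.sin p.2 : ℝ) : ℂ)‖ ≤ 1 := by
    rw [Complex.norm_real]; exact Real.abs_sin_le_one _
  calc ‖((Real.sin p.1 : ℝ) : ℂ)‖ * ‖X1 * Real.cos p.2 + X2 * Real.sin p.2‖
      ≤ 1 * (‖X1‖ * 1 + ‖X2‖ * 1) := by
        refine mul_le_mul h1 ?_ (norm_nonneg _) zero_le_one
        refine (norm_add_le _ _).trans ?_
        rw [norm_mul, norm_mul]
        gcongr
    _ = _ := by ring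

lemma Ex_cont (X1 X2 : ℂ) : Continuous (Ex X1 X2) := by
  unfold Ex; fun_prop

lemma wt_cont : Continuous wt := by unfold wt; fun_prop

lemma wt_bound (p : ℝ × ℝ) : ‖(wt p : ℂ)‖ ≤ 1 := by
  unfold wt
  rw [Complex.norm_real, norm_div, Real.norm_of_nonneg (by positivity : (0:ℝ) ≤ 4 * π)]
  have h1 : ‖Real.sin p.1‖ ≤ 1 := Real.abs_sin_le_one _
  rw [div_le_one (by positivity)]
  have := Real.pi_gt_three
  linarith

lemma identA (X1 X2 : ℂ) :
    ∫ p, (wt p : ℂ) * Complex.exp (Complex.I * Ex X1 X2 p) ∂nu = Sf (X1 ^ 2 + X2 ^ 2) := by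
  set B : ℝ := ‖X1‖ + ‖X2‖ with hB
  have hB0 : 0 ≤ B := by positivity
  have key : HasSum (fun N : ℕ => ∫ p, (wt p : ℂ) * ((Complex.I * Ex X1 X2 p) ^ N / (N.factorial : ℂ)) ∂nu)
      (∫ p, (wt p : ℂ) * Complex.exp (Complex.I * Ex X1 X2 p) ∂nu) := by
    refine hasSum_integral_of_dominated_convergence (fun N _ => B ^ N / (N.factorial : ℝ)) ?_ ?_ ?_ ?_ ?_
    · intro N
      refine Continuous.aestronglyMeasurable ?_
      have := Ex_cont X1 X2
      have := wt_cont
      fun_prop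
    · intro N
      refine Filter.Eventually.of_forall ?_
      intro p
      rw [norm_mul, norm_div, norm_pow, norm_mul, Complex.norm_I, one_mul, Complex.norm_natCast]
      calc ‖(wt p : ℂ)‖ * (‖Ex X1 X2 p‖ ^ N / (N.factorial : ℝ)) ≤ 1 * (B ^ N / (N.factorial : ℝ)) := by
            gcongr
            · exact wt_bound p
            · exact Ex_bound X1 X2 p
        _ = _ := one_mul _
    · exact Filter.Eventually.of_forall (fun _ => Real.summable_pow_div_factorial B)
    · exact integrable_const _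
    · refine Filter.Eventually.of_forall ?_
      intro p
      rw [Complex.exp_eq_exp_ℂ]
      exact (NormedSpace.expSeries_div_hasSum_exp (𝔸 := ℂ) (Complex.I * Ex X1 X2 p)).mul_left _
  have hterm : ∀ N : ℕ, ∫ p, (wt p : ℂ) * ((Complex.I * Ex X1 X2 p) ^ N / (N.factorial : ℂ)) ∂nu =
      if Even N then Complex.I ^ N * ((X1 ^ 2 + X2 ^ 2) ^ (N / 2) / (N + 1)) / (N.factorial : ℂ) else 0 := by
    intro N
    have h1 : ∀ p : ℝ × ℝ, (wt p : ℂ) * ((Complex.I * Ex X1 X2 p) ^ N / (N.factorial : ℂ)) =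
        (Complex.I ^ N / (N.factorial : ℂ)) *
        ((wt p : ℂ) * (Real.sin p.1 * (X1 * Real.cos p.2 + X2 * Real.sin p.2)) ^ N) := by
      intro p
      rw [mul_pow, Ex]; ring
    simp_rw [h1]
    rw [integral_const_mul, moment]
    split_ifs
    · ring
    · ring
  simp_rw [hterm] at key
  refine key.unique ?_
  have hinj : Function.Injective (fun n : ℕ => 2 * n) := fun a b h => by simpa using h
  rw [← hinj.hasSum_iff]
  · refine (Sf_hasSum _).congr_fun ?_
    intro n
    simp only [Function.comp_apply]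
    rw [if_pos (even_two_mul n)]
    have e1 : 2 * n / 2 = n := by omega
    rw [e1, pow_mul, Complex.I_sq, Nat.factorial_succ]
    push_cast
    have : ((2 * n).factorial : ℂ) ≠ 0 := by exact_mod_cast (Nat.factorial_ne_zero _)
    have : (2 * (n:ℂ) + 1) ≠ 0 := by exact_mod_cast (Nat.succ_ne_zero (2 * n))
    field_simp
  · intro N hN
    rw [if_neg]
    rintro ⟨m, hm⟩
    exact hN ⟨m, by simp only; omega⟩

end Pool.Agent.Lib.MP_7ba380_an
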