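import Mathlib
import Pool.Agent.Lib.MP_7ba380_an.SphereIdentity

open MeasureTheory Set Finset
open scoped Real

namespace Pool.Agent.Lib.MP_7ba380_an

/-- Fourier series on `[-1, 1]` -/
lemma fourier_series_two {Φ : ℝ → ℂ} (hc : Continuous Φ) (hper : Φ (-1) = Φ 1) {c : ℤ → ℂ}
    (hcoef : ∀ n : ℤ, ∫ s in (-1:ℝ)..1, Complex.exp (-(Complex.I * π * n * s)) * Φ s = 2 * c n)
    (hsum : Summable c) {s : ℝ} (hs : s ∈ Icc (-1:ℝ) 1) :
    HasSum (fun n : ℤ => c n * Complex.exp (Complex.I * π * n * s)) (Φ s) := by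
  have : Fact ((0:ℝ) < 2) := ⟨by norm_num⟩
  set F : C(AddCircle (2:ℝ), ℂ) := ⟨AddCircle.liftIco 2 (-1) Φ,
    AddCircle.liftIco_continuous (by rw [hper]; norm_num) hc.continuousOn⟩ with hF
  have hFc : ∀ n, fourierCoeff F n = c n := by
    intro n
    have h1 : fourierCoeff (AddCircle.liftIco 2 (-1) Φ) n = c n := by
      rw [fourierCoeff_eq_intervalIntegral _ _ (-1)]
      have h2 : ∫ x in (-1:ℝ)..(-1 + 2), (fourier (-n)) (x : AddCircle (2:ℝ)) •
          AddCircle.liftIco 2 (-1) Φ (x : AddCircle (2:ℝ)) =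
          ∫ s in (-1:ℝ)..1, Complex.exp (-(Complex.I * π * n * s)) * Φ s := by
        rw [show (-1:ℝ) + 2 = 1 by norm_num]
        refine intervalIntegral.integral_congr_Ioo_of_le (by norm_num) ?_
        intro x hx
        have hx' : x ∈ Ico (-1:ℝ) (-1 + 2) := ⟨hx.1.le, by norm_num; exact hx.2⟩
        simp only [smul_eq_mul]
        rw [AddCircle.liftIco_coe_apply hx', fourier_coe_apply]
        congr 2
        push_cast
        ring
      rw [h2, hcoef n]
      simp
    exact h1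
  have hsum' : Summable (fourierCoeff F) := by
    have : fourierCoeff F = c := funext hFc
    rw [this]; exact hsum
  have h3 := has_pointwise_sum_fourier_series_of_summable hsum' (s : AddCircle (2:ℝ))
  have hval : F (s : AddCircle (2:ℝ)) = Φ s := by
    rcases eq_or_lt_of_le hs.2 with h | h
    · subst h
      have e1 : ((1:ℝ) : AddCircle (2:ℝ)) = ((-1:ℝ) : AddCircle (2:ℝ)) := by
        rw [← AddCircle.coe_add_period (2:ℝ) (-1)]
        norm_num
      rw [e1]
      change AddCircle.liftIco 2 (-1) Φ _ = _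
      rw [AddCircle.liftIco_coe_apply (by norm_num), hper]
    · change AddCircle.liftIco 2 (-1) Φ _ = _
      rw [AddCircle.liftIco_coe_apply]
      exact ⟨hs.1, by norm_num; exact h⟩
  rw [hval] at h3
  refine h3.congr_fun ?_
  intro n
  rw [hFc n, fourier_coe_apply, smul_eq_mul]
  congr 2
  push_cast
  ring

/-- weights of the quadrature -/
noncomputable def w (n : ℤ) : ℝ := 64 * n ^ 2 / (π ^ 3 * (4 * n ^ 2 - 1) ^ 2)

/-- sign `(-1)^n` -/
noncomputable def sg (n : ℤ) : ℝ := (-1) ^ n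

/-- the function with Fourier coefficients `(-1)^n w n` -/
noncomputable def Phi (s : ℝ) : ℝ := 2 * s / π * Real.sin (π / 2 * s) - 4 / π ^ 2 * Real.cos (π / 2 * s)

lemma four_sq_sub_one_ne (n : ℤ) : (4 * (n:ℝ) ^ 2 - 1) ≠ 0 := by
  have h : (4 * n ^ 2 - 1 : ℤ) ≠ 0 := by omega
  exact_mod_cast h

lemma w_nonneg (n : ℤ) : 0 ≤ w n := by unfold w; positivity

lemma w_zero : w 0 = 0 := by simp [w]

lemma w_pos {n : ℤ} (hn : n ≠ 0) : 0 < w n := by
  unfold w
  have := four_sq_sub_one_ne n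
  have : (n:ℝ) ≠ 0 := by exact_mod_cast hn
  positivity

lemma w_neg (n : ℤ) : w (-n) = w n := by simp [w]

lemma sg_neg (n : ℤ) : sg (-n) = sg n := by
  unfold sg
  rw [zpow_neg, ← inv_zpow]; norm_num

lemma abs_sg (n : ℤ) : |sg n| = 1 := by
  unfold sg
  rw [abs_zpow]; simp

lemma sg_sq (n : ℤ) : sg n * sg n = 1 := by
  unfold sg
  rw [← mul_zpow]; norm_num

lemma exp_int_pi (n : ℤ) : Complex.exp (Complex.I * π * n) = sg n := by
  have : Complex.I * π * n = n * (π * Complex.I) := by ring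
  rw [this, Complex.exp_int_mul, Complex.exp_pi_mul_I]
  simp [sg]

lemma w_summable : Summable w := by
  have h1 : Summable (fun n : ℤ => 64 / π ^ 3 * (1 / (n:ℝ) ^ 2)) :=
    (Real.summable_one_div_int_pow.mpr (by norm_num)).mul_left _
  refine Summable.of_nonneg_of_le w_nonneg ?_ h1
  intro n
  unfold w
  by_cases hn : n = 0
  · subst hn; simp
  · have hn' : (n:ℝ) ≠ 0 := by exact_mod_cast hn
    have h2 : (1:ℝ) ≤ (n:ℝ) ^ 2 := by
      have : (1:ℤ) ≤ n ^ 2 := by
        have := sq_nonneg n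
        have : n ^ 2 ≠ 0 := pow_ne_zero 2 hn
        omega
      exact_mod_cast this
    have h3 := four_sq_sub_one_ne n
    have h4 : (n:ℝ) ^ 4 ≤ (4 * (n:ℝ) ^ 2 - 1) ^ 2 := by nlinarith
    rw [mul_one_div, div_div, div_le_div_iff₀ (by positivity) (by positivity)]
    have h5 : (0:ℝ) < π ^ 3 := by positivity
    nlinarith [mul_le_mul_of_nonneg_left h4 (by positivity : (0:ℝ) ≤ 64 * π ^ 3)]

lemma phi_coeff (n : ℤ) :
    ∫ s in (-1:ℝ)..1, Complex.exp (-(Complex.I * π * n * s)) * (Phi s : ℂ) =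
      2 * ((sg n * w n : ℝ) : ℂ) := by
  set b : ℂ := π / 2 with hb
  set κ : ℂ := π * n with hκ
  have hπ : (π : ℂ) ≠ 0 := by exact_mod_cast Real.pi_ne_zero
  have hden : κ ^ 2 - b ^ 2 ≠ 0 := by
    have h1 : κ ^ 2 - b ^ 2 = (π:ℂ) ^ 2 / 4 * ((4 * (n:ℝ) ^ 2 - 1 : ℝ) : ℂ) := by
      rw [hκ, hb]; push_cast; ring
    rw [h1]
    refine mul_ne_zero (by simp [hπ]) ?_
    exact_mod_cast four_sq_sub_one_ne n
  have hb0 : b ≠ 0 := by rw [hb]; simp [hπ]
  set D : ℂ := 1 / (κ ^ 2 - b ^ 2) with hD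
  set B : ℂ := Complex.I * κ / (b * (κ ^ 2 - b ^ 2)) with hB
  set A : ℂ := 2 * κ ^ 2 / (b * (κ ^ 2 - b ^ 2) ^ 2) with hA
  set C : ℂ := -(Complex.I * κ * (κ ^ 2 + b ^ 2)) / (b ^ 2 * (κ ^ 2 - b ^ 2) ^ 2) with hC
  have hI := Complex.I_sq
  have h1 : -(b * D) - Complex.I * κ * B = 1 / b := by
    rw [hD, hB]; field_simp; rw [hI]; ring
  have h2 : b * B - Complex.I * κ * D = 0 := by
    rw [hD, hB]; field_simp; ring
  have h3 : B - b * C - Complex.I * κ * A = 0 := by
    rw [hA, hB, hC]; field_simp; ring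
  have h4 : D + b * A - Complex.I * κ * C = -(1 / b ^ 2) := by
    rw [hA, hD, hC]; field_simp; rw [hI]; ring
  have hderiv : ∀ s : ℝ, HasDerivAt (fun s : ℝ => ((A + B * s) * Complex.sin (b * s) +
      (C + D * s) * Complex.cos (b * s)) * Complex.exp (-(Complex.I * κ * s)))
      (Complex.exp (-(Complex.I * π * n * s)) * (Phi s : ℂ)) s := by
    intro s
    have hid : HasDerivAt (fun s : ℝ => (s : ℂ)) 1 s := Complex.ofRealCLM.hasDerivAt
    have hbs : HasDerivAt (fun s : ℝ => b * (s : ℂ)) b s := by simpa using hid.const_mul b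
    have hsin := (Complex.hasDerivAt_sin (b * s)).comp s hbs
    have hcos := (Complex.hasDerivAt_cos (b * s)).comp s hbs
    have hks : HasDerivAt (fun s : ℝ => -(Complex.I * κ * (s:ℂ))) (-(Complex.I * κ)) s := by
      have := (hid.const_mul (-(Complex.I * κ)))
      rw [mul_one] at this
      refine this.congr_of_eventuallyEq (Filter.Eventually.of_forall ?_)
      intro x; ring
    have hexp := (Complex.hasDerivAt_exp (-(Complex.I * κ * s))).comp s hks
    have hA1 : HasDerivAt (fun s : ℝ => A + B * (s:ℂ)) B s := by simpa using (hid.const_mul B).const_add A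
    have hC1 : HasDerivAt (fun s : ℝ => C + D * (s:ℂ)) D s := by simpa using (hid.const_mul D).const_add C
    have h := (((hA1.mul hsin).add (hC1.mul hcos)).mul hexp)
    refine h.congr_deriv ?_
    simp only [Function.comp_def, Pi.mul_apply, Pi.add_apply]
    have e1 : Complex.exp (-(Complex.I * π * n * s)) = Complex.exp (-(Complex.I * κ * s)) := by
      rw [hκ]; congr 1; ring
    have e2 : (Phi s : ℂ) = s / b * Complex.sin (b * s) - 1 / b ^ 2 * Complex.cos (b * s) := by
      unfold Phi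
      push_cast
      rw [hb]
      field_simp
      ring
    rw [e1, e2]
    linear_combination Complex.exp (-(Complex.I * κ * s)) * ((s:ℂ) * Complex.sin (b * s) * h1 +
      (s:ℂ) * Complex.cos (b * s) * h2 + Complex.sin (b * s) * h3 + Complex.cos (b * s) * h4)
  rw [intervalIntegral.integral_eq_sub_of_hasDerivAt (fun s _ => hderiv s)]
  · have s1 : Complex.sin (b * ((1:ℝ):ℂ)) = 1 := by
      rw [hb]; simp [Complex.sin_pi_div_two]
    have c1 : Complex.cos (b * ((1:ℝ):ℂ)) = 0 := by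
      rw [hb]; simp [Complex.cos_pi_div_two]
    have s2 : Complex.sin (b * ((-1:ℝ):ℂ)) = -1 := by
      push_cast; rw [mul_neg, mul_one, Complex.sin_neg, hb, Complex.sin_pi_div_two]
    have c2 : Complex.cos (b * ((-1:ℝ):ℂ)) = 0 := by
      push_cast; rw [mul_neg, mul_one, Complex.cos_neg, hb, Complex.cos_pi_div_two]
    have e1 : Complex.exp (-(Complex.I * κ * ((1:ℝ):ℂ))) = sg n := by
      have : -(Complex.I * κ * ((1:ℝ):ℂ)) = Complex.I * π * ((-n : ℤ) : ℂ) := by
        rw [hκ]; push_cast; ring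
      rw [this, exp_int_pi, sg_neg]
    have e2 : Complex.exp (-(Complex.I * κ * ((-1:ℝ):ℂ))) = sg n := by
      have : -(Complex.I * κ * ((-1:ℝ):ℂ)) = Complex.I * π * (n : ℂ) := by
        rw [hκ]; push_cast; ring
      rw [this, exp_int_pi]
    rw [s1, c1, s2, c2, e1, e2]
    have h3 : ((4 * (n:ℂ) ^ 2 - 1)) ≠ 0 := by exact_mod_cast four_sq_sub_one_ne n
    have e3 : A = ((w n : ℝ) : ℂ) := by
      rw [hA, hκ, hb]
      unfold w
      push_cast
      field_simp
      ring
    push_cast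
    rw [← e3]
    ring
  · refine Continuous.intervalIntegrable ?_ _ _
    unfold Phi
    fun_prop

lemma phi_fourier {s : ℝ} (hs : s ∈ Icc (-1:ℝ) 1) :
    HasSum (fun n : ℤ => ((sg n * w n : ℝ) : ℂ) * Complex.exp (Complex.I * π * n * s)) (Phi s : ℂ) := by
  refine fourier_series_two (Φ := fun s => (Phi s : ℂ)) ?_ ?_ phi_coeff ?_ hs
  · unfold Phi; fun_prop
  · simp only [Phi]
    congr 1
    simp
    ring
  · refine Summable.of_norm ?_
    refine w_summable.congr ?_
    intro n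
    rw [Complex.norm_real, norm_mul, Real.norm_eq_abs, abs_sg, one_mul, Real.norm_of_nonneg (w_nonneg n)]

end Pool.Agent.Lib.MP_7ba380_an
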