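import Mathlib
import Pool.Agent.Lib.MP_7ba380_an.FourierSeries

open MeasureTheory Set Finset
open scoped Real

namespace Pool.Agent.Lib.MP_7ba380_an

lemma Sf_hasDerivAt_zero : HasDerivAt Sf (-(1 / 6)) 0 := by
  rw [hasDerivAt_iff_isLittleO]
  have hb : ∀ w : ℂ, ‖w‖ ≤ 1 → ‖Sf w - 1 + w / 6‖ ≤ Real.exp 1 * ‖w‖ ^ 2 := by
    intro w hw
    have h1 := Sf_hasSum w
    have h2 := (hasSum_nat_add_iff' (f := fun n : ℕ => (-1) ^ n * w ^ n / ((2 * n + 1).factorial : ℂ)) 2).mpr h1
    have h3 : Sf w - ∑ i ∈ Finset.range 2, (-1) ^ i * w ^ i / ((2 * i + 1).factorial : ℂ) = Sf w - 1 + w / 6 := by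
      rw [Finset.sum_range_succ, Finset.sum_range_one]
      norm_num [Nat.factorial]
      ring
    rw [h3] at h2
    rw [← h2.tsum_eq]
    have h4 : ∀ n : ℕ, ‖(-1) ^ (n + 2) * w ^ (n + 2) / ((2 * (n + 2) + 1).factorial : ℂ)‖ ≤
        1 ^ n / (n.factorial : ℝ) * ‖w‖ ^ 2 := by
      intro n
      rw [norm_div, norm_mul, norm_pow, norm_pow, norm_neg, norm_one, one_pow, one_mul,
        Complex.norm_natCast, pow_add, one_pow, div_mul_eq_mul_div, one_mul]
      have hw' : ‖w‖ ^ n ≤ 1 := pow_le_one₀ (norm_nonneg _) hw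
      have hf : ((n.factorial : ℕ) : ℝ) ≤ ((2 * (n + 2) + 1).factorial : ℕ) := by
        exact_mod_cast Nat.factorial_le (by omega)
      have hpos : (0:ℝ) < (n.factorial : ℕ) := by exact_mod_cast Nat.factorial_pos n
      gcongr
      nlinarith [sq_nonneg ‖w‖]
    have h5 : HasSum (fun n : ℕ => (1:ℝ) ^ n / (n.factorial : ℝ) * ‖w‖ ^ 2) (Real.exp 1 * ‖w‖ ^ 2) := by
      rw [Real.exp_eq_exp_ℝ]
      exact (NormedSpace.expSeries_div_hasSum_exp (𝔸 := ℝ) 1).mul_right _
    exact tsum_of_norm_bounded h5 h4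
  refine Asymptotics.IsBigO.trans_isLittleO (g := fun w : ℂ => ‖w‖ ^ 2) ?_ ?_
  · refine Asymptotics.IsBigO.of_bound (Real.exp 1) ?_
    filter_upwards [Metric.closedBall_mem_nhds (0:ℂ) one_pos] with w hw
    have hw' : ‖w‖ ≤ 1 := by simpa using hw
    have := hb w hw'
    rw [Sf_zero, sub_zero, Real.norm_of_nonneg (by positivity)]
    have e : Sf w - 1 - w • (-(1 / 6) : ℂ) = Sf w - 1 + w / 6 := by
      rw [smul_eq_mul]; ring
    rw [e]
    exact this
  · have : (fun w : ℂ => ‖w‖ ^ 2) =o[nhds 0] (fun w : ℂ => ‖w‖ ^ 1) :=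
      Asymptotics.isLittleO_norm_pow_norm_pow (by norm_num)
    refine (this.trans_isBigO ?_)
    simp only [pow_one, sub_zero]
    exact (Asymptotics.isBigO_refl _ _).norm_left

/-- the nodes: `± π √(n² - 1/4)` -/
noncomputable def y (n : ℤ) : ℝ := (n.sign : ℝ) * (π * Real.sqrt ((n:ℝ) ^ 2 - 1 / 4))

lemma y_neg (n : ℤ) : y (-n) = - y n := by
  unfold y; simp

lemma y_sq {n : ℤ} (hn : n ≠ 0) : y n ^ 2 = (π * n) ^ 2 - (π / 2) ^ 2 := by
  have h1 : (1:ℝ) ≤ (n:ℝ) ^ 2 := by
    have : (1:ℤ) ≤ n ^ 2 := by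
      have := sq_nonneg n
      have : n ^ 2 ≠ 0 := pow_ne_zero 2 hn
      omega
    exact_mod_cast this
  have h2 : ((n.sign : ℤ) : ℝ) ^ 2 = 1 := by
    have : (n.sign : ℤ) ^ 2 = 1 := by
      rcases lt_trichotomy n 0 with h | h | h
      · rw [Int.sign_eq_neg_one_of_neg h]; norm_num
      · exact absurd h hn
      · rw [Int.sign_eq_one_of_pos h]; norm_num
    exact_mod_cast this
  unfold y
  rw [mul_pow, mul_pow, Real.sq_sqrt (by linarith), h2]
  ring

lemma y_ne_zero {n : ℤ} (hn : n ≠ 0) : y n ≠ 0 := by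
  intro h
  have h1 := y_sq hn
  rw [h] at h1
  have h2 : (1:ℝ) ≤ (n:ℝ) ^ 2 := by
    have : (1:ℤ) ≤ n ^ 2 := by
      have := sq_nonneg n
      have : n ^ 2 ≠ 0 := pow_ne_zero 2 hn
      omega
    exact_mod_cast this
  have h3 : 0 < π ^ 2 := by positivity
  nlinarith

/-- the variable `s = t sin α cos φ` -/
noncomputable def sv (p : ℝ × ℝ) : ℝ := Real.sin p.1 * Real.cos p.2
noncomputable def sv' (p : ℝ × ℝ) : ℝ := Real.sin p.1 * Real.sin p.2

lemma sv_bound (p : ℝ × ℝ) : |sv p| ≤ 1 := by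
  unfold sv
  rw [abs_mul]
  exact mul_le_one₀ (Real.abs_sin_le_one _) (abs_nonneg _) (Real.abs_cos_le_one _)

lemma sv'_bound (p : ℝ × ℝ) : |sv' p| ≤ 1 := by
  unfold sv'
  rw [abs_mul]
  exact mul_le_one₀ (Real.abs_sin_le_one _) (abs_nonneg _) (Real.abs_sin_le_one _)

lemma sv_cont : Continuous sv := by unfold sv; fun_prop
lemma sv'_cont : Continuous sv' := by unfold sv'; fun_prop

/-- positive weight -/
noncomputable def rho (t : ℝ) (p : ℝ × ℝ) : ℝ := wt p * Real.exp (-(t * (π / 2) * sv' p))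

lemma rho_cont (t : ℝ) : Continuous (rho t) := by
  have := wt_cont
  have := sv'_cont
  unfold rho; fun_prop

lemma rho_bound (t : ℝ) (p : ℝ × ℝ) : ‖(rho t p : ℂ)‖ ≤ Real.exp (|t| * (π / 2)) := by
  unfold rho
  push_cast
  rw [norm_mul]
  have h1 := wt_bound p
  have h2 : ‖(Complex.exp (-((t:ℂ) * (π / 2) * sv' p)))‖ ≤ Real.exp (|t| * (π / 2)) := by
    have : (-((t:ℂ) * (π / 2) * sv' p)) = ((-(t * (π / 2) * sv' p) : ℝ) : ℂ) := by push_cast; ring
    rw [this, ← Complex.ofReal_exp, Complex.norm_real, Real.norm_of_nonneg (Real.exp_pos _).le,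
      Real.exp_le_exp]
    have h3 := sv'_bound p
    have h4 : -(t * (π / 2) * sv' p) ≤ |t * (π / 2) * sv' p| := neg_le_abs _
    rw [abs_mul, abs_mul, abs_of_pos (by positivity : (0:ℝ) < π / 2)] at h4
    calc -(t * (π / 2) * sv' p) ≤ |t| * (π / 2) * |sv' p| := h4
      _ ≤ |t| * (π / 2) * 1 := by gcongr
      _ = _ := mul_one _
  calc ‖(wt p : ℂ)‖ * ‖Complex.exp (-((t:ℂ) * (π / 2) * sv' p))‖ ≤ 1 * Real.exp (|t| * (π / 2)) := by
        gcongr
    _ = _ := one_mul _

/-- the key integral `P` -/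
lemma P_eq (t κ : ℝ) :
    ∫ p, (rho t p : ℂ) * Complex.exp (Complex.I * κ * (t * sv p)) ∂nu =
      Sf (((t * κ) ^ 2 - (t * (π / 2)) ^ 2 : ℝ) : ℂ) := by
  have h1 := identA (t * κ) (Complex.I * (t * (π / 2)))
  have h2 : ∀ p, (rho t p : ℂ) * Complex.exp (Complex.I * κ * (t * sv p)) =
      (wt p : ℂ) * Complex.exp (Complex.I * Ex (t * κ) (Complex.I * (t * (π / 2))) p) := by
    intro p
    unfold rho
    push_cast
    rw [mul_assoc, ← Complex.exp_add]
    congr 2
    unfold Ex sv sv'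
    push_cast
    have := Complex.I_sq
    linear_combination (-(t:ℂ) * (π / 2) * Complex.sin p.1 * Complex.sin p.2) * this
  simp_rw [h2]
  rw [h1]
  congr 1
  push_cast
  have := Complex.I_sq
  linear_combination ((t:ℂ) * (π / 2)) ^ 2 * this

lemma Q_eq (t κ : ℝ) (hκ : κ ^ 2 = (π / 2) ^ 2) :
    ∫ p, (rho t p : ℂ) * ((Complex.I * (t * sv p)) * Complex.exp (Complex.I * κ * (t * sv p))) ∂nu =
      -(t ^ 2 * κ / 3) := by
  have hd1 : HasDerivAt (fun κ : ℝ => ∫ p, (rho t p : ℂ) * Complex.exp (Complex.I * κ * (t * sv p)) ∂nu)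
      (∫ p, (rho t p : ℂ) * ((Complex.I * (t * sv p)) * Complex.exp (Complex.I * κ * (t * sv p))) ∂nu) κ := by
    have hc1 := rho_cont t
    have hc2 := sv_cont
    refine (hasDerivAt_integral_of_dominated_loc_of_deriv_le (μ := nu)
      (F := fun (κ : ℝ) p => (rho t p : ℂ) * Complex.exp (Complex.I * κ * (t * sv p)))
      (F' := fun (κ : ℝ) p => (rho t p : ℂ) * ((Complex.I * (t * sv p)) * Complex.exp (Complex.I * κ * (t * sv p))))
      (bound := fun _ => Real.exp (|t| * (π / 2)) * |t|) (s := univ) Filter.univ_mem ?_ ?_ ?_ ?_ ?_ ?_).2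
    · refine Filter.Eventually.of_forall (fun κ => ?_)
      refine Continuous.aestronglyMeasurable ?_
      fun_prop
    · refine Integrable.of_bound (C := Real.exp (|t| * (π / 2))) ?_ ?_
      · refine Continuous.aestronglyMeasurable ?_
        fun_prop
      · refine Filter.Eventually.of_forall (fun p => ?_)
        rw [norm_mul]
        have : Complex.I * κ * (t * sv p) = ((κ * (t * sv p) : ℝ) : ℂ) * Complex.I := by push_cast; ring
        rw [this, Complex.norm_exp_ofReal_mul_I, mul_one]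
        exact rho_bound t p
    · refine Continuous.aestronglyMeasurable ?_
      fun_prop
    · refine Filter.Eventually.of_forall (fun p κ _ => ?_)
      rw [norm_mul, norm_mul]
      have : Complex.I * κ * (t * sv p) = ((κ * (t * sv p) : ℝ) : ℂ) * Complex.I := by push_cast; ring
      have e3 : ‖((t:ℂ) * (sv p : ℂ))‖ = |t| * |sv p| := by
        rw [norm_mul, Complex.norm_real, Complex.norm_real]; rfl
      rw [this, Complex.norm_exp_ofReal_mul_I, mul_one, norm_mul, Complex.norm_I, one_mul, e3]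
      have h1 := rho_bound t p
      have h2 := sv_bound p
      calc ‖(rho t p : ℂ)‖ * (|t| * |sv p|) ≤ Real.exp (|t| * (π / 2)) * (|t| * 1) := by gcongr
        _ = _ := by ring
    · exact integrable_const _
    · refine Filter.Eventually.of_forall (fun p κ _ => ?_)
      have h1 : HasDerivAt (fun κ : ℝ => Complex.I * (κ:ℂ) * (t * sv p)) (Complex.I * (t * sv p)) κ := by
        have := (Complex.ofRealCLM.hasDerivAt (x := κ)).const_mul (Complex.I * (t * sv p))
        simp only [Complex.ofRealCLM_apply, Complex.ofReal_one, mul_one] at this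
        refine this.congr_of_eventuallyEq (Filter.Eventually.of_forall (fun x => ?_))
        ring
      have h2 := ((Complex.hasDerivAt_exp _).comp κ h1).const_mul (rho t p : ℂ)
      refine h2.congr_deriv ?_
      ring
  simp_rw [P_eq] at hd1
  have hd2 : HasDerivAt (fun κ : ℝ => Sf (((t * κ) ^ 2 - (t * (π / 2)) ^ 2 : ℝ) : ℂ))
      (-(1 / 6) * ((t ^ 2 * (2 * κ) : ℝ) : ℂ)) κ := by
    have hval : (((t * κ) ^ 2 - (t * (π / 2)) ^ 2 : ℝ) : ℂ) = 0 := by
      rw [mul_pow, mul_pow, hκ, sub_self, Complex.ofReal_zero]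
    have h1 : HasDerivAt (fun κ : ℝ => (((t * κ) ^ 2 - (t * (π / 2)) ^ 2 : ℝ) : ℂ))
        ((t ^ 2 * (2 * κ) : ℝ) : ℂ) κ := by
      have : HasDerivAt (fun κ : ℝ => (t * κ) ^ 2 - (t * (π / 2)) ^ 2) (t ^ 2 * (2 * κ)) κ := by
        have := (((hasDerivAt_id κ).const_mul t).pow 2).sub_const ((t * (π / 2)) ^ 2)
        refine this.congr_deriv ?_
        simp
        ring
      exact this.ofReal_comp
    have h2 := Sf_hasDerivAt_zero
    rw [← hval] at h2
    exact h2.comp κ h1
  rw [hd1.unique hd2]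
  push_cast
  ring

/-- the integral of `Φ` against the weight -/
lemma J_eq (t : ℝ) : ∫ p, (rho t p : ℂ) * (Phi (t * sv p) : ℂ) ∂nu = t ^ 2 / 3 - 4 / π ^ 2 := by
  set b : ℝ := π / 2 with hb
  have hπ : (π : ℂ) ≠ 0 := by exact_mod_cast Real.pi_ne_zero
  have hc1 := rho_cont t
  have hc2 := sv_cont
  have hint : ∀ f : ℝ × ℝ → ℂ, Continuous f → (∃ C : ℝ, ∀ p, ‖f p‖ ≤ C) →
      Integrable (fun p => (rho t p : ℂ) * f p) nu := by
    rintro f hf ⟨C, hC⟩
    refine Integrable.of_bound (C := Real.exp (|t| * (π / 2)) * C) ?_ ?_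
    · refine Continuous.aestronglyMeasurable ?_
      fun_prop
    · refine Filter.Eventually.of_forall (fun p => ?_)
      rw [norm_mul]
      exact mul_le_mul (rho_bound t p) (hC p) (norm_nonneg _) (Real.exp_pos _).le
  have hexpn : ∀ (κ : ℝ) p, ‖Complex.exp (Complex.I * κ * (t * sv p))‖ = 1 := by
    intro κ p
    have : Complex.I * κ * (t * sv p) = ((κ * (t * sv p) : ℝ) : ℂ) * Complex.I := by push_cast; ring
    rw [this, Complex.norm_exp_ofReal_mul_I]
  have hIe : ∀ κ : ℝ, Integrable (fun p => (rho t p : ℂ) * Complex.exp (Complex.I * κ * (t * sv p))) nu := by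
    intro κ
    refine hint _ (by fun_prop) ⟨1, fun p => (hexpn κ p).le⟩
  have hIs : ∀ κ : ℝ, Integrable (fun p => (rho t p : ℂ) * ((Complex.I * (t * sv p)) *
      Complex.exp (Complex.I * κ * (t * sv p)))) nu := by
    intro κ
    refine hint _ (by fun_prop) ⟨|t|, fun p => ?_⟩
    have e3 : ‖((t:ℂ) * (sv p : ℂ))‖ = |t| * |sv p| := by
      rw [norm_mul, Complex.norm_real, Complex.norm_real]; rfl
    rw [norm_mul, hexpn, mul_one, norm_mul, Complex.norm_I, one_mul, e3]
    have h2 := sv_bound p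
    calc |t| * |sv p| ≤ |t| * 1 := by gcongr
      _ = _ := mul_one _
  have hdec : ∀ p, (rho t p : ℂ) * (Phi (t * sv p) : ℂ) =
      (-(1 / π)) * ((rho t p : ℂ) * ((Complex.I * (t * sv p)) * Complex.exp (Complex.I * b * (t * sv p)))) +
      (1 / π) * ((rho t p : ℂ) * ((Complex.I * (t * sv p)) * Complex.exp (Complex.I * (-b : ℝ) * (t * sv p)))) +
      ((-(2 / π ^ 2)) * ((rho t p : ℂ) * Complex.exp (Complex.I * b * (t * sv p))) +
      (-(2 / π ^ 2)) * ((rho t p : ℂ) * Complex.exp (Complex.I * (-b : ℝ) * (t * sv p)))) := by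
    intro p
    have e1 : Complex.exp (Complex.I * b * (t * sv p)) = Complex.cos (b * (t * sv p)) +
        Complex.sin (b * (t * sv p)) * Complex.I := by
      rw [← Complex.exp_mul_I]; congr 1; ring
    have e2 : Complex.exp (Complex.I * (-b : ℝ) * (t * sv p)) = Complex.cos (b * (t * sv p)) -
        Complex.sin (b * (t * sv p)) * Complex.I := by
      have : Complex.I * (-b : ℝ) * (t * sv p) = (-(b * (t * sv p))) * Complex.I := by push_cast; ring
      rw [this, Complex.exp_mul_I, Complex.cos_neg, Complex.sin_neg]; ring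
    rw [e1, e2]
    unfold Phi
    push_cast
    rw [hb]
    push_cast
    have := Complex.I_sq
    field_simp
    ring_nf
    rw [this]
    ring
  simp_rw [hdec]
  rw [integral_add, integral_add, integral_add, integral_const_mul, integral_const_mul, integral_const_mul,
    integral_const_mul]
  · have q1 := Q_eq t b rfl
    have q2 := Q_eq t (-b) (by rw [neg_sq])
    have p1 := P_eq t b
    have p2 := P_eq t (-b)
    rw [q1, q2, p1, p2]
    have z1 : ((t * b) ^ 2 - (t * (π / 2)) ^ 2 : ℝ) = 0 := by rw [hb]; ring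
    have z2 : ((t * -b) ^ 2 - (t * (π / 2)) ^ 2 : ℝ) = 0 := by rw [hb]; ring
    rw [z1, z2, Complex.ofReal_zero, Sf_zero, hb]
    push_cast
    field_simp
    ring
  · exact (hIe b).const_mul _
  · exact (hIe (-b)).const_mul _
  · exact (hIs b).const_mul _
  · exact (hIs (-b)).const_mul _
  · exact ((hIs b).const_mul _).add ((hIs (-b)).const_mul _)
  · exact ((hIe b).const_mul _).add ((hIe (-b)).const_mul _)

lemma sgw_norm (n : ℤ) : ‖((sg n * w n : ℝ) : ℂ)‖ = w n := by
  rw [Complex.norm_real, norm_mul, Real.norm_eq_abs, abs_sg, one_mul, Real.norm_of_nonneg (w_nonneg n)]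

/-- the quadrature for `sin (t x) / x` -/
lemma S1 {t : ℝ} (ht : |t| ≤ 1) :
    HasSum (fun n : ℤ => ((sg n * w n : ℝ) : ℂ) * Sf (((t * y n) ^ 2 : ℝ) : ℂ)) (t ^ 2 / 3 - 4 / π ^ 2) := by
  rw [← J_eq t]
  have hc1 := rho_cont t
  have hc2 := sv_cont
  have key : HasSum (fun n : ℤ => ∫ p, (rho t p : ℂ) * (((sg n * w n : ℝ) : ℂ) *
      Complex.exp (Complex.I * π * n * ((t * sv p : ℝ) : ℂ))) ∂nu)
      (∫ p, (rho t p : ℂ) * (Phi (t * sv p) : ℂ) ∂nu) := by
    refine hasSum_integral_of_dominated_convergence (fun n _ => Real.exp (|t| * (π / 2)) * w n) ?_ ?_ ?_ ?_ ?_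
    · intro n
      refine Continuous.aestronglyMeasurable ?_
      fun_prop
    · intro n
      refine Filter.Eventually.of_forall (fun p => ?_)
      have : Complex.I * π * n * ((t * sv p : ℝ) : ℂ) = ((π * n * (t * sv p) : ℝ) : ℂ) * Complex.I := by
        push_cast; ring
      rw [norm_mul, norm_mul, this, Complex.norm_exp_ofReal_mul_I, mul_one, sgw_norm]
      exact mul_le_mul_of_nonneg_right (rho_bound t p) (w_nonneg n)
    · exact Filter.Eventually.of_forall (fun _ => w_summable.mul_left _)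
    · exact integrable_const _
    · refine Filter.Eventually.of_forall (fun p => ?_)
      refine (phi_fourier ?_).mul_left _
      have h1 : |t * sv p| ≤ 1 := by
        rw [abs_mul]
        exact mul_le_one₀ ht (abs_nonneg _) (sv_bound p)
      exact abs_le.mp h1
  refine key.congr_fun ?_
  intro n
  by_cases hn : n = 0
  · subst hn
    simp [w_zero]
  · have h1 : ∀ p, (rho t p : ℂ) * (((sg n * w n : ℝ) : ℂ) *
      Complex.exp (Complex.I * π * n * ((t * sv p : ℝ) : ℂ))) = ((sg n * w n : ℝ) : ℂ) *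
      ((rho t p : ℂ) * Complex.exp (Complex.I * (π * n : ℝ) * (t * sv p))) := by
      intro p
      have e : Complex.I * π * n * ((t * sv p : ℝ) : ℂ) = Complex.I * (π * n : ℝ) * (t * sv p) := by
        push_cast; ring
      rw [e]; ring
    simp_rw [h1]
    rw [integral_const_mul, P_eq]
    congr 3
    rw [mul_pow, mul_pow, mul_pow, y_sq hn]
    ring

/-- the quadrature for `sin (t x) / x`, real form -/
lemma S2 {t : ℝ} (ht : |t| ≤ 1) :
    HasSum (fun n : ℤ => sg n * w n * (Real.sin (t * y n) / y n)) (t ^ 3 / 3 - 4 * t / π ^ 2) := by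
  have h1 := (S1 ht).mul_right (t : ℂ)
  have h2 : HasSum (fun n : ℤ => ((sg n * w n * (Real.sin (t * y n) / y n) : ℝ) : ℂ))
      ((t ^ 3 / 3 - 4 * t / π ^ 2 : ℝ) : ℂ) := by
    have e0 : (((t:ℂ) ^ 2 / 3 - 4 / π ^ 2) * t) = ((t ^ 3 / 3 - 4 * t / π ^ 2 : ℝ) : ℂ) := by
      push_cast; ring
    rw [e0] at h1
    refine h1.congr_fun ?_
    intro n
    by_cases hn : n = 0
    · subst hn; simp [w_zero]
    · have hy := y_ne_zero hn
      have hy' : (y n : ℂ) ≠ 0 := by exact_mod_cast hy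
      have h3 := Sf_mul ((t * y n : ℝ) : ℂ)
      have h4 : Sf (((t * y n) ^ 2 : ℝ) : ℂ) * t = Complex.sin ((t * y n : ℝ) : ℂ) / y n := by
        rw [eq_div_iff hy', ← h3]
        push_cast
        ring
      rw [mul_assoc (((sg n * w n : ℝ) : ℂ)), h4]
      push_cast
      ring
  exact_mod_cast h2

lemma cos_summable (t : ℝ) : Summable (fun n : ℤ => sg n * w n * Real.cos (t * y n)) := by
  refine Summable.of_norm_bounded (g := w) w_summable ?_
  intro n
  rw [norm_mul, norm_mul, Real.norm_eq_abs, abs_sg, one_mul, Real.norm_of_nonneg (w_nonneg n)]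
  calc w n * ‖Real.cos (t * y n)‖ ≤ w n * 1 := by
        have := w_nonneg n
        gcongr
        exact Real.abs_cos_le_one _
    _ = _ := mul_one _

/-- the key identity on the open interval -/
lemma E_open {t : ℝ} (ht : t ∈ Ioo (-1:ℝ) 1) :
    ∑' n : ℤ, sg n * w n * Real.cos (t * y n) = t ^ 2 - 4 / π ^ 2 := by
  have hd1 : HasDerivAt (fun t : ℝ => ∑' n : ℤ, sg n * w n * (Real.sin (t * y n) / y n))
      (∑' n : ℤ, sg n * w n * Real.cos (t * y n)) t := by
    refine hasDerivAt_tsum (𝕜 := ℝ) (g := fun (n : ℤ) (t : ℝ) => sg n * w n * (Real.sin (t * y n) / y n))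
      (g' := fun (n : ℤ) (t : ℝ) => sg n * w n * Real.cos (t * y n)) (u := w) w_summable (y₀ := 0) ?_ ?_ ?_ t
    · intro n x
      by_cases hn : n = 0
      · subst hn
        simp only [w_zero, mul_zero, zero_mul]
        exact hasDerivAt_const _ _
      · have hy := y_ne_zero hn
        have h1 : HasDerivAt (fun t : ℝ => t * y n) (y n) x := by
          simpa using (hasDerivAt_id x).mul_const (y n)
        have h2 := (((Real.hasDerivAt_sin _).comp x h1).div_const (y n)).const_mul (sg n * w n)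
        refine h2.congr_deriv ?_
        field_simp
    · intro n x
      rw [norm_mul, norm_mul, Real.norm_eq_abs, abs_sg, one_mul, Real.norm_of_nonneg (w_nonneg n)]
      calc w n * ‖Real.cos (x * y n)‖ ≤ w n * 1 := by
            have := w_nonneg n
            gcongr
            exact Real.abs_cos_le_one _
        _ = _ := mul_one _
    · simp only [zero_mul, Real.sin_zero, zero_div, mul_zero]
      exact summable_zero
  have hd2 : HasDerivAt (fun t : ℝ => ∑' n : ℤ, sg n * w n * (Real.sin (t * y n) / y n))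
      (t ^ 2 - 4 / π ^ 2) t := by
    have h1 : HasDerivAt (fun t : ℝ => t ^ 3 / 3 - 4 * t / π ^ 2) (t ^ 2 - 4 / π ^ 2) t := by
      have := (((hasDerivAt_id t).pow 3).div_const 3).sub (((hasDerivAt_id t).const_mul 4).div_const (π ^ 2))
      refine this.congr_deriv ?_
      simp
    refine h1.congr_of_eventuallyEq ?_
    filter_upwards [isOpen_Ioo.mem_nhds ht] with x hx
    exact (S2 (abs_le.mpr ⟨hx.1.le, hx.2.le⟩)).tsum_eq
  exact hd1.unique hd2

/-- the key identity -/
lemma E_closed {t : ℝ} (ht : |t| ≤ 1) :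
    ∑' n : ℤ, sg n * w n * Real.cos (t * y n) = t ^ 2 - 4 / π ^ 2 := by
  have hcont : Continuous (fun t : ℝ => ∑' n : ℤ, sg n * w n * Real.cos (t * y n)) := by
    refine continuous_tsum (u := w) ?_ w_summable ?_
    · intro n; fun_prop
    · intro n x
      rw [norm_mul, norm_mul, Real.norm_eq_abs, abs_sg, one_mul, Real.norm_of_nonneg (w_nonneg n)]
      calc w n * ‖Real.cos (x * y n)‖ ≤ w n * 1 := by
            have := w_nonneg n
            gcongr
            exact Real.abs_cos_le_one _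
        _ = _ := mul_one _
  have hcl : IsClosed {t : ℝ | ∑' n : ℤ, sg n * w n * Real.cos (t * y n) = t ^ 2 - 4 / π ^ 2} :=
    isClosed_eq hcont (by fun_prop)
  have hsub : closure (Ioo (-1:ℝ) 1) ⊆ {t : ℝ | ∑' n : ℤ, sg n * w n * Real.cos (t * y n) = t ^ 2 - 4 / π ^ 2} :=
    hcl.closure_subset_iff.mpr (fun x hx => E_open hx)
  rw [closure_Ioo (by norm_num)] at hsub
  exact hsub (abs_le.mp ht)

/-- the key identity, exponential form -/
lemma E_exp {t : ℝ} (ht : |t| ≤ 1) :
    HasSum (fun n : ℤ => ((sg n * w n : ℝ) : ℂ) * Complex.exp (((t * y n : ℝ) : ℂ) * Complex.I))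
      ((t ^ 2 - 4 / π ^ 2 : ℝ) : ℂ) := by
  have hsum : Summable (fun n : ℤ => ((sg n * w n : ℝ) : ℂ) * Complex.exp (((t * y n : ℝ) : ℂ) * Complex.I)) := by
    refine Summable.of_norm_bounded (g := w) w_summable ?_
    intro n
    rw [norm_mul, Complex.norm_exp_ofReal_mul_I, mul_one, sgw_norm]
  have h1 := hsum.hasSum
  set S := ∑' n : ℤ, ((sg n * w n : ℝ) : ℂ) * Complex.exp (((t * y n : ℝ) : ℂ) * Complex.I) with hS
  have h2 : HasSum (fun n : ℤ => ((sg n * w n : ℝ) : ℂ) * Complex.exp (-(((t * y n : ℝ) : ℂ) * Complex.I))) S := by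
    have h3 := (Equiv.neg ℤ).hasSum_iff.mpr h1
    refine h3.congr_fun ?_
    intro n
    simp only [Function.comp_apply, Equiv.neg_apply]
    rw [sg_neg, w_neg, y_neg]
    congr 2
    push_cast; ring
  have h4 := (h1.add h2).div_const 2
  have h5 : HasSum (fun n : ℤ => ((sg n * w n * Real.cos (t * y n) : ℝ) : ℂ)) ((S + S) / 2) := by
    refine h4.congr_fun ?_
    intro n
    push_cast
    rw [Complex.cos, neg_mul]
    ring
  have h6 : HasSum (fun n : ℤ => ((sg n * w n * Real.cos (t * y n) : ℝ) : ℂ)) ((t ^ 2 - 4 / π ^ 2 : ℝ) : ℂ) := by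
    have := (cos_summable t).hasSum
    rw [E_closed ht] at this
    exact_mod_cast this
  have h7 := h5.unique h6
  have h8 : S = ((t ^ 2 - 4 / π ^ 2 : ℝ) : ℂ) := by rw [← h7]; ring
  rw [h8] at h1
  exact h1

/-- the total mass of the weights -/
lemma w_total : HasSum w (2 / π) := by
  have h1 := phi_fourier (s := 1) ⟨by norm_num, le_rfl⟩
  have h2 : HasSum (fun n : ℤ => ((w n : ℝ) : ℂ)) ((2 / π : ℝ) : ℂ) := by
    have e1 : (Phi 1 : ℂ) = ((2 / π : ℝ) : ℂ) := by
      unfold Phi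
      rw [mul_one, mul_one, Real.sin_pi_div_two, Real.cos_pi_div_two]
      push_cast; ring
    rw [e1] at h1
    refine h1.congr_fun ?_
    intro n
    rw [Complex.ofReal_one, mul_one, exp_int_pi]
    have := sg_sq n
    have h3 : (sg n : ℂ) * (sg n : ℂ) = 1 := by exact_mod_cast this
    push_cast
    linear_combination (-(w n : ℂ)) * h3
  exact_mod_cast h2

end Pool.Agent.Lib.MP_7ba380_an
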