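import Mathlib
import Pool.Agent.Lib.MP_7ba380_an.Identity
import Pool.Agent.Lib.MP_7ba380_an.Defs

open MeasureTheory Set
open scoped Real FourierTransform ContDiff

namespace Pool.Agent.Lib.MP_7ba380_an

/-- superposition of plane waves -/
noncomputable def AF (G : Plane → ℂ) (x : Plane) : ℂ :=
  ∫ η, Complex.exp (Complex.I * ((inner ℝ x η : ℝ) : ℂ)) * G η

lemma norm_exp_I (a : ℝ) : ‖Complex.exp (Complex.I * (a : ℂ))‖ = 1 := by
  rw [mul_comm, Complex.norm_exp_ofReal_mul_I]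

lemma AF_integrand_integrable {G : Plane → ℂ} (hG : Integrable G) (x : Plane) :
    Integrable (fun η => Complex.exp (Complex.I * ((inner ℝ x η : ℝ) : ℂ)) * G η) := by
  refine hG.bdd_mul (c := 1) ?_ ?_
  · refine Continuous.aestronglyMeasurable ?_
    fun_prop
  · exact Filter.Eventually.of_forall (fun η => (norm_exp_I _).le)

lemma AF_norm_le {G : Plane → ℂ} (x : Plane) : ‖AF G x‖ ≤ ∫ η, ‖G η‖ := by
  unfold AF
  refine (norm_integral_le_integral_norm _).trans (le_of_eq ?_)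
  congr 1
  ext η
  rw [norm_mul, norm_exp_I, one_mul]

lemma AF_eq_fourier (G : Plane → ℂ) (x : Plane) : AF G x = 𝓕 G (-((2 * π)⁻¹ • x)) := by
  rw [Real.fourier_eq', AF]
  congr 1
  ext η
  rw [smul_eq_mul]
  congr 2
  rw [inner_neg_right, inner_smul_right, real_inner_comm]
  push_cast
  have : (π:ℂ) ≠ 0 := by exact_mod_cast Real.pi_ne_zero
  field_simp

lemma fourierT_eq_fourier (G : Plane → ℂ) (x : Plane) : fourierT G x = 𝓕 G ((2 * π)⁻¹ • x) := by
  rw [Real.fourier_eq', fourierT]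
  congr 1
  ext η
  rw [smul_eq_mul]
  congr 2
  rw [inner_smul_right, real_inner_comm]
  push_cast
  have : (π:ℂ) ≠ 0 := by exact_mod_cast Real.pi_ne_zero
  field_simp

lemma AF_contDiff {G : Plane → ℂ} (hG : Continuous G) (hs : HasCompactSupport G) :
    ContDiff ℝ ∞ (AF G) := by
  have h1 : ContDiff ℝ ∞ (𝓕 G) := by
    have := Real.contDiff_fourier (f := G) (N := ⊤) (fun n _ => by
      refine Continuous.integrable_of_hasCompactSupport (by fun_prop) ?_
      exact hs.norm.mul_left)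
    exact this
  have h2 : AF G = 𝓕 G ∘ (fun x => -((2 * π)⁻¹ • x)) := funext (AF_eq_fourier G)
  rw [h2]
  exact h1.comp (by fun_prop)

/-- derivative of a superposition of plane waves in a direction -/
lemma AF_hasLineDerivAt {G : Plane → ℂ} (hG : Continuous G) (hs : HasCompactSupport G) (x v : Plane) :
    HasLineDerivAt ℝ (AF G) (AF (fun η => Complex.I * ((inner ℝ v η : ℝ) : ℂ) * G η) x) x v := by
  unfold HasLineDerivAt
  have hG' : Integrable G := hG.integrable_of_hasCompactSupport hs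
  have key := (hasDerivAt_integral_of_dominated_loc_of_deriv_le (μ := (volume : Measure Plane)) (x₀ := (0:ℝ))
    (F := fun (t : ℝ) η => Complex.exp (Complex.I * ((inner ℝ (x + t • v) η : ℝ) : ℂ)) * G η)
    (F' := fun (t : ℝ) η => Complex.exp (Complex.I * ((inner ℝ (x + t • v) η : ℝ) : ℂ)) *
      (Complex.I * ((inner ℝ v η : ℝ) : ℂ) * G η))
    (bound := fun η => ‖((inner ℝ v η : ℝ) : ℂ) * G η‖) (s := univ) Filter.univ_mem ?_ ?_ ?_ ?_ ?_ ?_).2
  · have e : (fun t : ℝ => AF G (x + t • v)) = fun (t : ℝ) => ∫ η, Complex.exp (Complex.I * ((inner ℝ (x + t • v) η : ℝ) : ℂ)) * G η := rfl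
    rw [e]
    refine key.congr_deriv ?_
    unfold AF
    simp
  · refine Filter.Eventually.of_forall (fun t => ?_)
    exact (AF_integrand_integrable hG' _).aestronglyMeasurable
  · exact AF_integrand_integrable hG' _
  · refine Continuous.aestronglyMeasurable ?_
    fun_prop
  · refine Filter.Eventually.of_forall (fun η t _ => ?_)
    rw [norm_mul, norm_exp_I, one_mul, mul_assoc, norm_mul, Complex.norm_I, one_mul]
  · refine Integrable.norm ?_
    refine Continuous.integrable_of_hasCompactSupport (by fun_prop) ?_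
    exact hs.mul_left
  · refine Filter.Eventually.of_forall (fun η t _ => ?_)
    have h1 : HasDerivAt (fun t : ℝ => Complex.I * ((inner ℝ (x + t • v) η : ℝ) : ℂ))
        (Complex.I * ((inner ℝ v η : ℝ) : ℂ)) t := by
      have h2 : HasDerivAt (fun t : ℝ => (inner ℝ (x + t • v) η : ℝ)) (inner ℝ v η) t := by
        have h3 : (fun t : ℝ => (inner ℝ (x + t • v) η : ℝ)) = fun t : ℝ => inner ℝ x η + t * inner ℝ v η := by
          ext t; rw [inner_add_left, inner_smul_left]; rfl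
        rw [h3]
        simpa using ((hasDerivAt_id t).mul_const (inner ℝ v η)).const_add (inner ℝ x η)
      exact (h2.ofReal_comp).const_mul Complex.I
    have h4 := ((Complex.hasDerivAt_exp _).comp t h1).mul_const (G η)
    refine h4.congr_deriv ?_
    ring

lemma inner_single (i : Fin 2) (η : Plane) : (inner ℝ (EuclideanSpace.single i (1:ℝ)) η : ℝ) = η i := by
  simp [EuclideanSpace.inner_single_left]

lemma dx_AF {G : Plane → ℂ} (hG : Continuous G) (hs : HasCompactSupport G) (i : Fin 2) :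
    dx i (AF G) = AF (fun η => Complex.I * (η i : ℂ) * G η) := by
  ext x
  rw [dx, (AF_hasLineDerivAt hG hs x _).lineDeriv]
  congr 1
  ext η
  rw [inner_single]

lemma T_AF {G : Plane → ℂ} (hG : Continuous G) (hs : HasCompactSupport G) :
    T (AF G) = AF (fun η => -((η 0 : ℂ) * (η 1 : ℂ)) * G η) := by
  unfold T
  rw [dx_AF hG hs, dx_AF (G := fun η => Complex.I * (η 1 : ℂ) * G η) (by fun_prop) (hs.mul_left) 0]
  congr 1
  ext η
  have := Complex.I_sq
  linear_combination ((η 0 : ℂ) * (η 1 : ℂ) * G η) * this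

lemma inner_eu (η : Plane) : (inner ℝ eu η : ℝ) = (η 0 + η 1) / Real.sqrt 2 := by
  simp [eu, PiLp.inner_apply, Fin.sum_univ_two]
  ring

lemma inner_ev (η : Plane) : (inner ℝ ev η : ℝ) = (η 0 - η 1) / Real.sqrt 2 := by
  simp [ev, PiLp.inner_apply, Fin.sum_univ_two]
  ring

lemma norm_sq_plane (η : Plane) : ‖η‖ ^ 2 = η 0 ^ 2 + η 1 ^ 2 := by
  rw [EuclideanSpace.norm_sq_eq]
  simp [Fin.sum_univ_two]

lemma inner_eu_sq (η : Plane) : (inner ℝ eu η : ℝ) ^ 2 = (η 0 + η 1) ^ 2 / 2 := by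
  rw [inner_eu, div_pow, Real.sq_sqrt (by norm_num)]

lemma inner_ev_sq (η : Plane) : (inner ℝ ev η : ℝ) ^ 2 = (η 0 - η 1) ^ 2 / 2 := by
  rw [inner_ev, div_pow, Real.sq_sqrt (by norm_num)]

lemma abs_inner_eu_le (η : Plane) : |(inner ℝ eu η : ℝ)| ≤ ‖η‖ := by
  refine abs_le_of_sq_le_sq ?_ (norm_nonneg _)
  rw [inner_eu_sq, norm_sq_plane]
  nlinarith [sq_nonneg (η 0 - η 1)]

lemma abs_inner_ev_le (η : Plane) : |(inner ℝ ev η : ℝ)| ≤ ‖η‖ := by
  refine abs_le_of_sq_le_sq ?_ (norm_nonneg _)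
  rw [inner_ev_sq, norm_sq_plane]
  nlinarith [sq_nonneg (η 0 + η 1)]

/-- the symbol identity on the disc of radius `R` -/
lemma symbol_identity {R : ℝ} (hR : 0 < R) {η : Plane} (hη : ‖η‖ ≤ R) :
    HasSum (fun n : ℤ => ((R ^ 2 / 2 * (sg n * w n) : ℝ) : ℂ) *
      (Complex.exp (Complex.I * ((inner ℝ ((y n / R) • ev) η : ℝ) : ℂ)) -
       Complex.exp (Complex.I * ((inner ℝ ((y n / R) • eu) η : ℝ) : ℂ))))
      (-((η 0 : ℂ) * (η 1 : ℂ))) := by
  have h1 : |(inner ℝ ev η : ℝ) / R| ≤ 1 := by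
    rw [abs_div, abs_of_pos hR, div_le_one hR]
    exact (abs_inner_ev_le η).trans hη
  have h2 : |(inner ℝ eu η : ℝ) / R| ≤ 1 := by
    rw [abs_div, abs_of_pos hR, div_le_one hR]
    exact (abs_inner_eu_le η).trans hη
  have h3 := ((E_exp h1).sub (E_exp h2)).mul_left ((R ^ 2 / 2 : ℝ) : ℂ)
  have e0 : ((R ^ 2 / 2 : ℝ) : ℂ) * (((((inner ℝ ev η : ℝ) / R) ^ 2 - 4 / π ^ 2 : ℝ) : ℂ) -
      ((((inner ℝ eu η : ℝ) / R) ^ 2 - 4 / π ^ 2 : ℝ) : ℂ)) = (-((η 0 : ℂ) * (η 1 : ℂ))) := by
    have : R ^ 2 / 2 * ((((inner ℝ ev η : ℝ) / R) ^ 2 - 4 / π ^ 2) -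
      (((inner ℝ eu η : ℝ) / R) ^ 2 - 4 / π ^ 2)) = -(η 0 * η 1) := by
      rw [div_pow, div_pow, inner_eu_sq, inner_ev_sq]
      field_simp
      ring
    exact_mod_cast this
  rw [e0] at h3
  refine h3.congr_fun ?_
  intro n
  have e1 : Complex.I * ((inner ℝ ((y n / R) • ev) η : ℝ) : ℂ) =
      (((inner ℝ ev η : ℝ) / R * y n : ℝ) : ℂ) * Complex.I := by
    rw [inner_smul_left]
    simp
    ring
  have e2 : Complex.I * ((inner ℝ ((y n / R) • eu) η : ℝ) : ℂ) =
      (((inner ℝ eu η : ℝ) / R * y n : ℝ) : ℂ) * Complex.I := by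
    rw [inner_smul_left]
    simp
    ring
  rw [e1, e2]
  push_cast
  ring

/-- the quadrature formula for superpositions of plane waves with frequencies in the disc of radius `R` -/
lemma T_AF_quad {G : Plane → ℂ} (hG : Continuous G) (hs : HasCompactSupport G) {R : ℝ} (hR : 0 < R)
    (hsupp : ∀ η, R < ‖η‖ → G η = 0) (x : Plane) :
    HasSum (fun n : ℤ => ((R ^ 2 / 2 * (sg n * w n) : ℝ) : ℂ) *
      (AF G (x + (y n / R) • ev) - AF G (x + (y n / R) • eu))) (T (AF G) x) := by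
  have hG' : Integrable G := hG.integrable_of_hasCompactSupport hs
  rw [T_AF hG hs]
  have key : HasSum (fun n : ℤ => ∫ η, Complex.exp (Complex.I * ((inner ℝ x η : ℝ) : ℂ)) *
      ((((R ^ 2 / 2 * (sg n * w n) : ℝ) : ℂ) *
      (Complex.exp (Complex.I * ((inner ℝ ((y n / R) • ev) η : ℝ) : ℂ)) -
       Complex.exp (Complex.I * ((inner ℝ ((y n / R) • eu) η : ℝ) : ℂ)))) * G η))
      (AF (fun η => -((η 0 : ℂ) * (η 1 : ℂ)) * G η) x) := by
    refine hasSum_integral_of_dominated_convergence (fun (n : ℤ) (η : Plane) => R ^ 2 * w n * ‖G η‖) ?_ ?_ ?_ ?_ ?_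
    · intro n
      refine Continuous.aestronglyMeasurable ?_
      fun_prop
    · intro n
      refine Filter.Eventually.of_forall (fun η => ?_)
      rw [norm_mul, norm_exp_I, one_mul, norm_mul, norm_mul]
      have h1 : ‖((R ^ 2 / 2 * (sg n * w n) : ℝ) : ℂ)‖ = R ^ 2 / 2 * w n := by
        rw [Complex.norm_real, norm_mul, norm_mul, Real.norm_of_nonneg (by positivity), Real.norm_eq_abs,
          abs_sg, one_mul, Real.norm_of_nonneg (w_nonneg n)]
      have h2 : ‖Complex.exp (Complex.I * ((inner ℝ ((y n / R) • ev) η : ℝ) : ℂ)) -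
       Complex.exp (Complex.I * ((inner ℝ ((y n / R) • eu) η : ℝ) : ℂ))‖ ≤ 2 := by
        refine (norm_sub_le _ _).trans ?_
        rw [norm_exp_I, norm_exp_I]; norm_num
      rw [h1]
      have := w_nonneg n
      calc R ^ 2 / 2 * w n * _ * ‖G η‖ ≤ R ^ 2 / 2 * w n * 2 * ‖G η‖ := by gcongr
        _ = _ := by ring
    · refine Filter.Eventually.of_forall (fun η => ?_)
      exact (w_summable.mul_left (R ^ 2)).mul_right _
    · have : (fun η : Plane => ∑' n : ℤ, R ^ 2 * w n * ‖G η‖) = fun η : Plane => (∑' n : ℤ, R ^ 2 * w n) * ‖G η‖ := by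
        ext η; rw [tsum_mul_right]
      rw [this]
      exact hG'.norm.const_mul _
    · refine Filter.Eventually.of_forall (fun η => ?_)
      by_cases hη : ‖η‖ ≤ R
      · exact ((symbol_identity hR hη).mul_right _).mul_left _
      · simp only [hsupp η (not_le.mp hη), mul_zero]
        exact hasSum_zero
  refine key.congr_fun ?_
  intro n
  have e1 : ∀ v : Plane, AF G (x + (y n / R) • v) = ∫ η, Complex.exp (Complex.I * ((inner ℝ x η : ℝ) : ℂ)) *
      (Complex.exp (Complex.I * ((inner ℝ ((y n / R) • v) η : ℝ) : ℂ)) * G η) := by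
    intro v
    unfold AF
    congr 1
    ext η
    rw [← mul_assoc, ← Complex.exp_add]
    congr 2
    rw [inner_add_left]
    push_cast
    ring
  have hint : ∀ v : Plane, Integrable (fun η => Complex.exp (Complex.I * ((inner ℝ x η : ℝ) : ℂ)) *
      (Complex.exp (Complex.I * ((inner ℝ ((y n / R) • v) η : ℝ) : ℂ)) * G η)) := by
    intro v
    exact AF_integrand_integrable (AF_integrand_integrable hG' _) _
  rw [e1, e1, ← integral_sub (hint ev) (hint eu), ← integral_const_mul]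
  congr 1
  ext η
  ring

end Pool.Agent.Lib.MP_7ba380_an
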