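import Mathlib
import Pool.Agent.Lib.MP_7ba380_an.Band

open MeasureTheory Set Filter Topology
open scoped Real FourierTransform ContDiff SchwartzMap

namespace Pool.Agent.Lib.MP_7ba380_an

/-- a bump of radius `δ` at the origin -/
noncomputable def cb {δ : ℝ} (hδ : 0 < δ) : ContDiffBump (0 : Plane) :=
  ⟨δ / 2, δ, by positivity, by linarith⟩

/-- the bump normalised to have integral `1` -/
noncomputable def th {δ : ℝ} (hδ : 0 < δ) (η : Plane) : ℂ := (((cb hδ).normed volume η : ℝ) : ℂ)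

lemma th_contDiff {δ : ℝ} (hδ : 0 < δ) : ContDiff ℝ ∞ (th hδ) :=
  Complex.ofRealCLM.contDiff.comp ((cb hδ).contDiff_normed)

lemma th_cont {δ : ℝ} (hδ : 0 < δ) : Continuous (th hδ) := (th_contDiff hδ).continuous

lemma th_zero {δ : ℝ} (hδ : 0 < δ) {η : Plane} (h : δ ≤ ‖η‖) : th hδ η = 0 := by
  have h1 : η ∉ Function.support ((cb hδ).normed (volume : Measure Plane)) := by
    rw [(cb hδ).support_normed_eq, mem_ball_zero_iff]
    exact not_lt.mpr h
  rw [th, Function.notMem_support.mp h1]; simp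

lemma th_compact {δ : ℝ} (hδ : 0 < δ) : HasCompactSupport (th hδ) := by
  refine HasCompactSupport.intro (isCompact_closedBall (0:Plane) δ) ?_
  intro η hη
  rw [mem_closedBall_zero_iff, not_le] at hη
  exact th_zero hδ hη.le

lemma th_norm {δ : ℝ} (hδ : 0 < δ) (η : Plane) : ‖th hδ η‖ = (cb hδ).normed volume η := by
  rw [th, Complex.norm_real, Real.norm_of_nonneg ((cb hδ).nonneg_normed η)]

lemma th_integral {δ : ℝ} (hδ : 0 < δ) : ∫ η, th hδ η = 1 := by
  unfold th
  rw [integral_complex_ofReal, (cb hδ).integral_normed]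
  simp

lemma th_norm_integral {δ : ℝ} (hδ : 0 < δ) : ∫ η, ‖th hδ η‖ = 1 := by
  simp_rw [th_norm]
  exact (cb hδ).integral_normed

lemma th_norm_integrable {δ : ℝ} (hδ : 0 < δ) : Integrable (fun η => ‖th hδ η‖) :=
  ((th_cont hδ).integrable_of_hasCompactSupport (th_compact hδ)).norm

/-- the cut-off function `χ = AF θ` -/
noncomputable def ch {δ : ℝ} (hδ : 0 < δ) : Plane → ℂ := AF (th hδ)

/-- superpositions with a bounded multiplier -/
lemma AF_mul_bound {δ : ℝ} (hδ : 0 < δ) {m : Plane → ℂ} {M : ℝ}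
    (hm : ∀ η, ‖η‖ < δ → ‖m η‖ ≤ M) (x : Plane) : ‖AF (fun η => m η * th hδ η) x‖ ≤ M := by
  refine (AF_norm_le x).trans ?_
  calc ∫ η, ‖m η * th hδ η‖ ≤ ∫ η, M * ‖th hδ η‖ := by
        refine integral_mono_of_nonneg (Eventually.of_forall (fun η => norm_nonneg _))
          ((th_norm_integrable hδ).const_mul M) (Eventually.of_forall (fun η => ?_))
        simp only
        rw [norm_mul]
        by_cases h : ‖η‖ < δ
        · exact mul_le_mul_of_nonneg_right (hm η h) (norm_nonneg _)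
        · rw [th_zero hδ (not_lt.mp h)]; simp
    _ = M := by rw [integral_const_mul, th_norm_integral, mul_one]

lemma ch_norm_le {δ : ℝ} (hδ : 0 < δ) (x : Plane) : ‖ch hδ x‖ ≤ 1 := by
  refine (AF_norm_le x).trans (le_of_eq ?_)
  exact th_norm_integral hδ

lemma norm_exp_sub_one_le (a : ℝ) : ‖Complex.exp (Complex.I * (a : ℂ)) - 1‖ ≤ |a| := by
  have := Real.norm_exp_I_mul_ofReal_sub_one_le (x := a)
  simpa using this

lemma ch_sub_one {δ : ℝ} (hδ : 0 < δ) (x : Plane) : ‖ch hδ x - 1‖ ≤ δ * ‖x‖ := by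
  have h1 : ch hδ x - 1 = ∫ η, (Complex.exp (Complex.I * ((inner ℝ x η : ℝ) : ℂ)) - 1) * th hδ η := by
    have hi : Integrable (th hδ) := (th_cont hδ).integrable_of_hasCompactSupport (th_compact hδ)
    have : ∀ η, (Complex.exp (Complex.I * ((inner ℝ x η : ℝ) : ℂ)) - 1) * th hδ η =
      Complex.exp (Complex.I * ((inner ℝ x η : ℝ) : ℂ)) * th hδ η - th hδ η := fun η => by ring
    simp_rw [this]
    rw [integral_sub (AF_integrand_integrable hi x) hi, th_integral]
    rfl
  rw [h1]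
  refine (norm_integral_le_integral_norm _).trans ?_
  calc ∫ η, ‖(Complex.exp (Complex.I * ((inner ℝ x η : ℝ) : ℂ)) - 1) * th hδ η‖
      ≤ ∫ η, (δ * ‖x‖) * ‖th hδ η‖ := by
        refine integral_mono_of_nonneg (Eventually.of_forall (fun η => norm_nonneg _))
          ((th_norm_integrable hδ).const_mul _) (Eventually.of_forall (fun η => ?_))
        simp only
        rw [norm_mul]
        by_cases h : ‖η‖ < δ
        · refine mul_le_mul_of_nonneg_right ?_ (norm_nonneg _)
          refine (norm_exp_sub_one_le _).trans ?_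
          refine (abs_real_inner_le_norm x η).trans ?_
          rw [mul_comm]
          exact mul_le_mul_of_nonneg_right h.le (norm_nonneg _)
        · rw [th_zero hδ (not_lt.mp h)]; simp
    _ = δ * ‖x‖ := by rw [integral_const_mul, th_norm_integral, mul_one]

lemma norm_coord_le (η : Plane) (i : Fin 2) : ‖((η i : ℝ) : ℂ)‖ ≤ ‖η‖ := by
  rw [Complex.norm_real]
  exact EuclideanSpace.norm_eq η ▸ (by
    refine Real.le_sqrt_of_sq_le ?_
    rw [Fin.sum_univ_two]
    fin_cases i <;> simp <;> positivity)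

lemma dx_ch_bound {δ : ℝ} (hδ : 0 < δ) (i : Fin 2) (x : Plane) : ‖dx i (ch hδ) x‖ ≤ δ := by
  rw [ch, dx_AF (th_cont hδ) (th_compact hδ)]
  refine AF_mul_bound hδ (m := fun η => Complex.I * (η i : ℂ)) ?_ x
  intro η h
  rw [norm_mul, Complex.norm_I, one_mul]
  exact (norm_coord_le η i).trans h.le

lemma T_ch_bound {δ : ℝ} (hδ : 0 < δ) (x : Plane) : ‖T (ch hδ) x‖ ≤ δ ^ 2 := by
  rw [ch, T_AF (th_cont hδ) (th_compact hδ)]
  refine AF_mul_bound hδ (m := fun η => -((η 0 : ℂ) * (η 1 : ℂ))) ?_ x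
  intro η h
  rw [norm_neg, norm_mul, sq]
  exact mul_le_mul ((norm_coord_le η 0).trans h.le) ((norm_coord_le η 1).trans h.le) (norm_nonneg _) hδ.le

lemma fourierT_integrable (ψ : 𝓢(Plane, ℂ)) : Integrable (fourierT ψ) := by
  have h1 : fourierT ψ = fun x => (𝓕 ψ) ((2 * π)⁻¹ • x) := by
    ext x; rw [fourierT_eq_fourier]; rfl
  rw [h1]
  exact ((𝓕 ψ).integrable (μ := volume)).comp_smul (by positivity)

lemma AF_integrable_of_smooth {G : Plane → ℂ} (hG : ContDiff ℝ ∞ G) (hs : HasCompactSupport G) :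
    Integrable (AF G) := by
  have h1 := fourierT_integrable (hs.toSchwartzMap hG)
  have h2 : AF G = fun x => fourierT (hs.toSchwartzMap hG) (-x) := by
    ext x
    rw [AF_eq_fourier, fourierT_eq_fourier, smul_neg]
    rfl
  rw [h2]
  exact h1.comp_neg

end Pool.Agent.Lib.MP_7ba380_an
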