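import Mathlib
import Pool.Agent.Lib.MP_7ba380_an.Approx

open MeasureTheory Set Filter Topology
open scoped Real FourierTransform ContDiff SchwartzMap

namespace Pool.Agent.Lib.MP_7ba380_an

/-- the translated reflected bump `ζ ↦ θ (v - ζ)` -/
lemma fourierT_bump {δ : ℝ} (hδ : 0 < δ) (v x : Plane) :
    fourierT (fun ζ => th hδ (v - ζ)) x =
      Complex.exp (-(Complex.I * ((inner ℝ x v : ℝ) : ℂ))) * ch hδ x := by
  unfold fourierT ch AF
  rw [← integral_const_mul]
  rw [← integral_sub_left_eq_self (fun ξ => Complex.exp (-(Complex.I * ((inner ℝ x ξ : ℝ) : ℂ))) *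
    th hδ (v - ξ)) volume v]
  congr 1
  ext η
  rw [sub_sub_cancel, inner_sub_right, ← mul_assoc, ← Complex.exp_add]
  congr 2
  push_cast
  ring

lemma bump_tsupport {δ : ℝ} (hδ : 0 < δ) (v : Plane) :
    tsupport (fun ζ => th hδ (v - ζ)) ⊆ Metric.closedBall v δ := by
  refine closure_minimal ?_ Metric.isClosed_closedBall
  intro ζ hζ
  rw [Function.mem_support] at hζ
  rw [Metric.mem_closedBall, dist_comm, dist_eq_norm]
  by_contra h
  exact hζ (th_zero hδ (not_le.mp h).le)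

lemma bump_compact {δ : ℝ} (hδ : 0 < δ) (v : Plane) :
    HasCompactSupport (fun ζ => th hδ (v - ζ)) :=
  (isCompact_closedBall v δ).of_isClosed_subset (isClosed_tsupport _) (bump_tsupport hδ v)

lemma bump_contDiff {δ : ℝ} (hδ : 0 < δ) (v : Plane) :
    ContDiff ℝ ∞ (fun ζ => th hδ (v - ζ)) :=
  (th_contDiff hδ).comp (contDiff_const.sub contDiff_id)

lemma InB.bddMul {f : Plane → ℂ} (hf : InB f) {g : Plane → ℂ} (hg : Integrable g) :
    Integrable (fun x => f x * g x) := by
  obtain ⟨C, hC⟩ := hf.2.1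
  exact hg.bdd_mul (c := C) hf.1.aestronglyMeasurable (Eventually.of_forall hC)

lemma InB.fch_integrable {f : Plane → ℂ} (hf : InB f) {δ : ℝ} (hδ : 0 < δ) :
    Integrable (fun x => f x * ch hδ x) :=
  hf.bddMul (AF_integrable_of_smooth (th_contDiff hδ) (th_compact hδ))

/-- the spectrum of `f χ` -/
lemma InB.fourierT_fch {f : Plane → ℂ} (hf : InB f) {δ : ℝ} (hδ : 0 < δ) {v : Plane}
    (hv : 1 + δ < ‖v‖) : fourierT (fun x => f x * ch hδ x) v = 0 := by
  have h1 := hf.2.2 ((bump_compact hδ v).toSchwartzMap (bump_contDiff hδ v)) (by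
    refine (bump_tsupport hδ v).trans ?_
    intro ζ hζ hζ'
    rw [Metric.mem_closedBall, dist_eq_norm] at hζ
    rw [mem_closedBall_zero_iff] at hζ'
    have : ‖v‖ ≤ ‖ζ - v‖ + ‖ζ‖ := by
      calc ‖v‖ = ‖ζ - (ζ - v)‖ := by rw [sub_sub_cancel]
        _ ≤ ‖ζ‖ + ‖ζ - v‖ := norm_sub_le _ _
        _ = _ := add_comm _ _
    linarith)
  rw [fourierT]
  rw [← h1]
  congr 1
  ext x
  have h2 : fourierT ((bump_compact hδ v).toSchwartzMap (bump_contDiff hδ v)) x =
      fourierT (fun ζ => th hδ (v - ζ)) x := rfl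
  rw [h2, fourierT_bump, real_inner_comm]
  ring

lemma fourierT_continuous {F : Plane → ℂ} (hF : Integrable F) : Continuous (fourierT F) := by
  have hn : ∀ v ξ : Plane, ‖Complex.exp (-(Complex.I * ((inner ℝ v ξ : ℝ) : ℂ)))‖ = 1 := by
    intro v ξ
    have := norm_exp_I (-(inner ℝ v ξ))
    rwa [Complex.ofReal_neg, mul_neg] at this
  refine continuous_of_dominated (bound := fun ξ => ‖F ξ‖) ?_ ?_ hF.norm ?_
  · intro v
    refine AEStronglyMeasurable.mul ?_ hF.aestronglyMeasurable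
    exact Continuous.aestronglyMeasurable (by fun_prop)
  · intro v
    refine Eventually.of_forall (fun ξ => ?_)
    rw [norm_mul, hn, one_mul]
  · refine Eventually.of_forall (fun ξ => ?_)
    fun_prop

/-- the density of `f χ` -/
noncomputable def dens (f : Plane → ℂ) {δ : ℝ} (hδ : 0 < δ) (v : Plane) : ℂ :=
  (((2 * π) ^ 2 : ℝ) : ℂ)⁻¹ * fourierT (fun x => f x * ch hδ x) v

lemma InB.dens_cont {f : Plane → ℂ} (hf : InB f) {δ : ℝ} (hδ : 0 < δ) : Continuous (dens f hδ) := by
  unfold dens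
  refine continuous_const.mul ?_
  exact fourierT_continuous (hf.fch_integrable hδ)

lemma InB.dens_zero {f : Plane → ℂ} (hf : InB f) {δ : ℝ} (hδ : 0 < δ) {v : Plane}
    (hv : 1 + δ < ‖v‖) : dens f hδ v = 0 := by
  rw [dens, hf.fourierT_fch hδ hv, mul_zero]

lemma InB.dens_compact {f : Plane → ℂ} (hf : InB f) {δ : ℝ} (hδ : 0 < δ) :
    HasCompactSupport (dens f hδ) := by
  refine HasCompactSupport.intro (isCompact_closedBall (0:Plane) (1 + δ)) ?_
  intro η hη
  rw [mem_closedBall_zero_iff, not_le] at hη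
  exact hf.dens_zero hδ hη

/-- Fourier inversion: `f χ` is a superposition of plane waves -/
lemma InB.fch_eq {f : Plane → ℂ} (hf : InB f) {δ : ℝ} (hδ : 0 < δ) (hχ : Continuous (ch hδ)) :
    AF (dens f hδ) = fun x => f x * ch hδ x := by
  set F : Plane → ℂ := fun x => f x * ch hδ x with hF
  have hc : Continuous F := hf.1.mul hχ
  have hi : Integrable F := hf.fch_integrable hδ
  have hG : Integrable (dens f hδ) := (hf.dens_cont hδ).integrable_of_hasCompactSupport (hf.dens_compact hδ)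
  have e1 : 𝓕 F = fun w => (((2 * π) ^ 2 : ℝ) : ℂ) * dens f hδ ((2 * π) • w) := by
    ext w
    have hpi : (((2 * π) ^ 2 : ℝ) : ℂ) ≠ 0 := by
      have : (2 * π) ^ 2 ≠ 0 := by positivity
      exact_mod_cast this
    rw [dens, ← mul_assoc, mul_inv_cancel₀ hpi, one_mul, fourierT_eq_fourier, smul_smul,
      inv_mul_cancel₀ (by positivity), one_smul]
  have hiF : Integrable (𝓕 F) := by
    rw [e1]
    exact (hG.comp_smul (by positivity)).const_mul _
  have h1 := hc.fourierInv_fourier_eq hi hiF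
  rw [← h1]
  ext x
  rw [Real.fourierInv_eq', e1]
  have h2 := Measure.integral_comp_smul (volume : Measure Plane)
    (fun v => Complex.exp (Complex.I * ((inner ℝ x v : ℝ) : ℂ)) * dens f hδ v) (2 * π)
  have h3 : |((2 * π) ^ Module.finrank ℝ Plane)⁻¹| = ((2 * π) ^ 2)⁻¹ := by
    rw [finrank_euclideanSpace_fin, abs_of_pos (by positivity)]
  rw [h3] at h2
  have h4 : AF (dens f hδ) x = (((2 * π) ^ 2 : ℝ) : ℂ) *
      ∫ w, Complex.exp (Complex.I * ((inner ℝ x ((2 * π) • w) : ℝ) : ℂ)) * dens f hδ ((2 * π) • w) := by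
    rw [h2, AF, Complex.real_smul, ← mul_assoc]
    push_cast
    rw [mul_inv_cancel₀, one_mul]
    have h5 : (π : ℂ) ≠ 0 := by exact_mod_cast Real.pi_ne_zero
    exact pow_ne_zero 2 (mul_ne_zero two_ne_zero h5)
  rw [h4, ← integral_const_mul]
  congr 1
  ext w
  rw [smul_eq_mul, inner_smul_right, real_inner_comm]
  have e3 : Complex.I * ((2 * π * inner ℝ w x : ℝ) : ℂ) = (((2 * π * inner ℝ w x : ℝ) : ℂ)) * Complex.I := mul_comm _ _
  rw [e3]
  ring

end Pool.Agent.Lib.MP_7ba380_an
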