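import Mathlib
import Pool.Agent.Lib.MP_7ba380_an.Inversion

open MeasureTheory Set Filter Topology
open scoped Real FourierTransform ContDiff SchwartzMap

namespace Pool.Agent.Lib.MP_7ba380_an

lemma ch_contDiff {δ : ℝ} (hδ : 0 < δ) : ContDiff ℝ ∞ (ch hδ) := AF_contDiff (th_cont hδ) (th_compact hδ)

lemma InB.fch_contDiff {f : Plane → ℂ} (hf : InB f) {δ : ℝ} (hδ : 0 < δ) :
    ContDiff ℝ ∞ (fun x => f x * ch hδ x) := by
  rw [← hf.fch_eq hδ (ch_contDiff hδ).continuous]
  exact AF_contDiff (hf.dens_cont hδ) (hf.dens_compact hδ)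

/-- functions in `B(K₂)` are smooth -/
lemma InB.contDiff {f : Plane → ℂ} (hf : InB f) : ContDiff ℝ ∞ f := by
  rw [contDiff_iff_contDiffAt]
  intro x₀
  have hδ : 0 < 1 / (2 * (‖x₀‖ + 1)) := by positivity
  have hne : ∀ x ∈ Metric.ball (0:Plane) (‖x₀‖ + 1), ch hδ x ≠ 0 := by
    intro x hx h0
    rw [mem_ball_zero_iff] at hx
    have h1 := ch_sub_one hδ x
    rw [h0, zero_sub, norm_neg, norm_one, div_mul_eq_mul_div, one_mul, le_div_iff₀ (by positivity)] at h1
    linarith [norm_nonneg x₀]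
  have hx₀ : x₀ ∈ Metric.ball (0:Plane) (‖x₀‖ + 1) := by rw [mem_ball_zero_iff]; linarith
  have h1 : ContDiffAt ℝ ∞ (fun x => (f x * ch hδ x) * (ch hδ x)⁻¹) x₀ :=
    (hf.fch_contDiff hδ).contDiffAt.mul ((ch_contDiff hδ).contDiffAt.inv (hne x₀ hx₀))
  refine h1.congr_of_eventuallyEq ?_
  filter_upwards [Metric.isOpen_ball.mem_nhds hx₀] with x hx
  rw [mul_inv_cancel_right₀ (hne x hx)]

lemma dx_eq {f : Plane → ℂ} (hf : ContDiff ℝ ∞ f) (i : Fin 2) :
    dx i f = fun x => fderiv ℝ f x (EuclideanSpace.single i 1) := by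
  ext x
  rw [dx]
  exact ((hf.differentiable (by simp)) x).lineDeriv_eq_fderiv

lemma dx_contDiff {f : Plane → ℂ} (hf : ContDiff ℝ ∞ f) (i : Fin 2) : ContDiff ℝ ∞ (dx i f) := by
  rw [dx_eq hf]
  exact (hf.fderiv_right (m := ∞) (by simp)).clm_apply contDiff_const

lemma dx_mul {f g : Plane → ℂ} (hf : ContDiff ℝ ∞ f) (hg : ContDiff ℝ ∞ g) (i : Fin 2) :
    dx i (fun x => f x * g x) = fun x => dx i f x * g x + f x * dx i g x := by
  rw [dx_eq (hf.mul hg), dx_eq hf, dx_eq hg]
  ext x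
  have h1 := (hf.differentiable (by simp)) x
  have h2 := (hg.differentiable (by simp)) x
  have h3 : fderiv ℝ (fun x => f x * g x) x = f x • fderiv ℝ g x + g x • fderiv ℝ f x :=
    fderiv_fun_mul h1 h2
  rw [h3]
  simp
  ring

lemma dx_add {f g : Plane → ℂ} (hf : ContDiff ℝ ∞ f) (hg : ContDiff ℝ ∞ g) (i : Fin 2) :
    dx i (fun x => f x + g x) = fun x => dx i f x + dx i g x := by
  rw [dx_eq (hf.add hg), dx_eq hf, dx_eq hg]
  ext x
  have h1 := (hf.differentiable (by simp)) x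
  have h2 := (hg.differentiable (by simp)) x
  have h3 : fderiv ℝ (fun x => f x + g x) x = fderiv ℝ f x + fderiv ℝ g x :=
    fderiv_fun_add h1 h2
  rw [h3]
  simp

lemma T_mul {f g : Plane → ℂ} (hf : ContDiff ℝ ∞ f) (hg : ContDiff ℝ ∞ g) (x : Plane) :
    T (fun x => f x * g x) x = T f x * g x + dx 1 f x * dx 0 g x + dx 0 f x * dx 1 g x + f x * T g x := by
  unfold T
  rw [dx_mul hf hg, dx_add ((dx_contDiff hf 1).mul hg) (hf.mul (dx_contDiff hg 1)),
    dx_mul (dx_contDiff hf 1) hg, dx_mul hf (dx_contDiff hg 1)]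
  ring

noncomputable def dk (k : ℕ) : ℝ := 1 / ((k : ℝ) + 1)

lemma dk_pos (k : ℕ) : 0 < dk k := by unfold dk; positivity

lemma dk_tendsto : Tendsto dk atTop (𝓝 0) := tendsto_one_div_add_atTop_nhds_zero_nat

/-- the interpolation formula on `B(K₂)` -/
theorem InB.quad {f : Plane → ℂ} (hf : InB f) (x : Plane) :
    HasSum (fun n : ℤ => ((1 / 2 * (sg n * w n) : ℝ) : ℂ) * (f (x + y n • ev) - f (x + y n • eu)))
      (T f x) := by
  obtain ⟨C, hC⟩ := hf.2.1
  have hC0 : 0 ≤ C := (norm_nonneg _).trans (hC 0)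
  -- left: T (f χ_k) x → T f x
  have hL : Tendsto (fun k => T (fun x => f x * ch (dk_pos k) x) x) atTop (𝓝 (T f x)) := by
    have e : (fun k => T (fun x => f x * ch (dk_pos k) x) x) = fun k =>
      T f x * ch (dk_pos k) x + dx 1 f x * dx 0 (ch (dk_pos k)) x + dx 0 f x * dx 1 (ch (dk_pos k)) x
        + f x * T (ch (dk_pos k)) x := by
      ext k
      exact T_mul hf.contDiff (ch_contDiff _) x
    rw [e]
    have h1 : Tendsto (fun k => ch (dk_pos k) x) atTop (𝓝 1) := by
      rw [tendsto_iff_norm_sub_tendsto_zero]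
      refine squeeze_zero (fun k => norm_nonneg _) (fun k => ch_sub_one (dk_pos k) x) ?_
      simpa using dk_tendsto.mul_const ‖x‖
    have h2 : ∀ i, Tendsto (fun k => dx i (ch (dk_pos k)) x) atTop (𝓝 0) := fun i =>
      squeeze_zero_norm (fun k => dx_ch_bound (dk_pos k) i x) dk_tendsto
    have h3 : Tendsto (fun k => T (ch (dk_pos k)) x) atTop (𝓝 0) := by
      refine squeeze_zero_norm (fun k => T_ch_bound (dk_pos k) x) ?_
      simpa using dk_tendsto.pow 2
    have := (((h1.const_mul (T f x)).add ((h2 0).const_mul (dx 1 f x))).add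
      ((h2 1).const_mul (dx 0 f x))).add (h3.const_mul (f x))
    simpa using this
  -- the formula for f χ_k
  have hQ : ∀ k, T (fun x => f x * ch (dk_pos k) x) x = ∑' n : ℤ, (((1 + dk k) ^ 2 / 2 * (sg n * w n) : ℝ) : ℂ) *
      ((fun x => f x * ch (dk_pos k) x) (x + (y n / (1 + dk k)) • ev) -
        (fun x => f x * ch (dk_pos k) x) (x + (y n / (1 + dk k)) • eu)) := by
    intro k
    have h1 := T_AF_quad (hf.dens_cont (dk_pos k)) (hf.dens_compact (dk_pos k)) (R := 1 + dk k)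
      (by linarith [dk_pos k]) (fun η hη => hf.dens_zero (dk_pos k) hη) x
    rw [hf.fch_eq (dk_pos k) (ch_contDiff _).continuous] at h1
    exact h1.tsum_eq.symm
  simp_rw [hQ] at hL
  have hb : Summable (fun n : ℤ => 4 * C * w n) := w_summable.mul_left _
  have hbd : ∀ (v : Plane), ∀ k, ‖f v * ch (dk_pos k) v‖ ≤ C := by
    intro v k
    rw [norm_mul]
    calc ‖f v‖ * ‖ch (dk_pos k) v‖ ≤ C * 1 :=
          mul_le_mul (hC v) (ch_norm_le _ v) (norm_nonneg _) hC0
      _ = C := mul_one C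
  have hlim : ∀ (v : Plane) (n : ℤ), Tendsto (fun k => f (x + (y n / (1 + dk k)) • v) *
      ch (dk_pos k) (x + (y n / (1 + dk k)) • v)) atTop (𝓝 (f (x + y n • v))) := by
    intro v n
    have h1 : Tendsto (fun k => x + (y n / (1 + dk k)) • v) atTop (𝓝 (x + y n • v)) := by
      have h2 : Tendsto (fun k => y n / (1 + dk k)) atTop (𝓝 (y n / (1 + 0))) :=
        tendsto_const_nhds.div (tendsto_const_nhds.add dk_tendsto) (by norm_num)
      rw [add_zero, div_one] at h2
      exact tendsto_const_nhds.add (h2.smul_const v)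
    have h3 : Tendsto (fun k => f (x + (y n / (1 + dk k)) • v)) atTop (𝓝 (f (x + y n • v))) :=
      (hf.1.tendsto _).comp h1
    have h4 : Tendsto (fun k => ch (dk_pos k) (x + (y n / (1 + dk k)) • v)) atTop (𝓝 1) := by
      rw [tendsto_iff_norm_sub_tendsto_zero]
      refine squeeze_zero (fun k => norm_nonneg _) (fun k => ch_sub_one (dk_pos k) _) ?_
      have := dk_tendsto.mul h1.norm
      simpa using this
    simpa using h3.mul h4
  have hR : Tendsto (fun k : ℕ => ∑' n : ℤ, (((1 + dk k) ^ 2 / 2 * (sg n * w n) : ℝ) : ℂ) *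
      (f (x + (y n / (1 + dk k)) • ev) * ch (dk_pos k) (x + (y n / (1 + dk k)) • ev) -
        f (x + (y n / (1 + dk k)) • eu) * ch (dk_pos k) (x + (y n / (1 + dk k)) • eu))) atTop
      (𝓝 (∑' n : ℤ, ((1 / 2 * (sg n * w n) : ℝ) : ℂ) * (f (x + y n • ev) - f (x + y n • eu)))) := by
    refine tendsto_tsum_of_dominated_convergence hb ?_ ?_
    · intro n
      refine Tendsto.mul ?_ ?_
      · refine (Complex.continuous_ofReal.tendsto _).comp ?_
        have : Tendsto (fun k => (1 + dk k) ^ 2 / 2 * (sg n * w n)) atTop (𝓝 ((1 + 0) ^ 2 / 2 * (sg n * w n))) :=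
          (((tendsto_const_nhds.add dk_tendsto).pow 2).div_const 2).mul_const _
        simpa using this
      · exact (hlim ev n).sub (hlim eu n)
    · refine Eventually.of_forall (fun k n => ?_)
      have hw := w_nonneg n
      have hd : dk k ≤ 1 := by
        unfold dk
        rw [div_le_one (by positivity)]
        linarith [(Nat.cast_nonneg k : (0:ℝ) ≤ k)]
      have hd0 := dk_pos k
      have h1 : ‖(((1 + dk k) ^ 2 / 2 * (sg n * w n) : ℝ) : ℂ)‖ = (1 + dk k) ^ 2 / 2 * w n := by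
        rw [Complex.norm_real, norm_mul, norm_mul, Real.norm_of_nonneg (by positivity), Real.norm_eq_abs,
          abs_sg, one_mul, Real.norm_of_nonneg hw]
      rw [norm_mul, h1]
      have h2 : ‖f (x + (y n / (1 + dk k)) • ev) * ch (dk_pos k) (x + (y n / (1 + dk k)) • ev) -
          f (x + (y n / (1 + dk k)) • eu) * ch (dk_pos k) (x + (y n / (1 + dk k)) • eu)‖ ≤ 2 * C :=
        (norm_sub_le _ _).trans (by
          have := hbd (x + (y n / (1 + dk k)) • ev) k
          have := hbd (x + (y n / (1 + dk k)) • eu) k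
          linarith)
      calc (1 + dk k) ^ 2 / 2 * w n * _ ≤ (1 + dk k) ^ 2 / 2 * w n * (2 * C) := by gcongr
        _ ≤ 2 ^ 2 / 2 * w n * (2 * C) := by gcongr; linarith
        _ = 4 * C * w n := by ring
  · have hsum : Summable (fun n : ℤ => ((1 / 2 * (sg n * w n) : ℝ) : ℂ) *
        (f (x + y n • ev) - f (x + y n • eu))) := by
      refine Summable.of_norm_bounded hb (fun n => ?_)
      have hw := w_nonneg n
      have h1 : ‖((1 / 2 * (sg n * w n) : ℝ) : ℂ)‖ = 1 / 2 * w n := by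
        rw [Complex.norm_real, norm_mul, norm_mul, Real.norm_of_nonneg (by positivity), Real.norm_eq_abs,
          abs_sg, one_mul, Real.norm_of_nonneg hw]
      have h2 : ‖f (x + y n • ev) - f (x + y n • eu)‖ ≤ 2 * C :=
        (norm_sub_le _ _).trans (by linarith [hC (x + y n • ev), hC (x + y n • eu)])
      rw [norm_mul, h1]
      calc 1 / 2 * w n * _ ≤ 1 / 2 * w n * (2 * C) := by gcongr
        _ ≤ 4 * C * w n := by nlinarith [mul_nonneg hC0 hw]
    rw [tendsto_nhds_unique hL hR]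
    exact hsum.hasSum

/-- the bound -/
theorem InB.bound {f : Plane → ℂ} (hf : InB f) {M : ℝ} (hM : ∀ x, ‖f x‖ ≤ M) (x : Plane) :
    ‖T f x‖ ≤ 2 / π * M := by
  rw [← (hf.quad x).tsum_eq]
  have hs : HasSum (fun n : ℤ => w n * M) (2 / π * M) := w_total.mul_right M
  refine tsum_of_norm_bounded hs (fun n => ?_)
  have hw := w_nonneg n
  have h1 : ‖((1 / 2 * (sg n * w n) : ℝ) : ℂ)‖ = 1 / 2 * w n := by
    rw [Complex.norm_real, norm_mul, norm_mul, Real.norm_of_nonneg (by positivity), Real.norm_eq_abs,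
      abs_sg, one_mul, Real.norm_of_nonneg hw]
  have h2 : ‖f (x + y n • ev) - f (x + y n • eu)‖ ≤ 2 * M :=
    (norm_sub_le _ _).trans (by linarith [hM (x + y n • ev), hM (x + y n • eu)])
  rw [norm_mul, h1]
  calc 1 / 2 * w n * _ ≤ 1 / 2 * w n * (2 * M) := by gcongr
    _ = w n * M := by ring

end Pool.Agent.Lib.MP_7ba380_an
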