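import Mathlib
import Pool.Agent.Lib.MP_7ba380_an.Quadrature

open MeasureTheory Set Filter Topology
open scoped Real FourierTransform ContDiff SchwartzMap

namespace Pool.Agent.Lib.MP_7ba380_an

/-- the spectral condition alone -/
def Spec (f : Plane → ℂ) : Prop :=
  ∀ ψ : SchwartzMap Plane ℂ, tsupport ψ ⊆ (Metric.closedBall (0 : Plane) 1)ᶜ →
      ∫ x, f x * fourierT ψ x = 0

/-- inversion for Schwartz functions -/
lemma integral_wave (ψ : 𝓢(Plane, ℂ)) (ζ : Plane) :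
    ∫ x, Complex.exp (Complex.I * ((inner ℝ x ζ : ℝ) : ℂ)) * fourierT ψ x =
      (((2 * π) ^ 2 : ℝ) : ℂ) * ψ ζ := by
  have h0 : 𝓕⁻ (𝓕 (ψ : Plane → ℂ)) = ψ :=
    ψ.continuous.fourierInv_fourier_eq (ψ.integrable (μ := volume)) ((𝓕 ψ).integrable (μ := volume))
  have h1 : ψ ζ = 𝓕⁻ (𝓕 (ψ : Plane → ℂ)) ζ := by rw [h0]
  rw [h1, Real.fourierInv_eq']
  have h2 := Measure.integral_comp_smul (volume : Measure Plane)
    (fun x => Complex.exp (Complex.I * ((inner ℝ x ζ : ℝ) : ℂ)) * fourierT ψ x) (2 * π)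
  have h3 : |((2 * π) ^ Module.finrank ℝ Plane)⁻¹| = ((2 * π) ^ 2)⁻¹ := by
    rw [finrank_euclideanSpace_fin, abs_of_pos (by positivity)]
  rw [h3] at h2
  have hne : ((2 * π) ^ 2 : ℝ) ≠ 0 := by positivity
  have h4 : ∫ x, Complex.exp (Complex.I * ((inner ℝ x ζ : ℝ) : ℂ)) * fourierT ψ x =
      ((2 * π) ^ 2 : ℝ) • ∫ x, Complex.exp (Complex.I * ((inner ℝ ((2 * π) • x) ζ : ℝ) : ℂ)) * fourierT ψ ((2 * π) • x) := by
    rw [h2, smul_smul, mul_inv_cancel₀ hne, one_smul]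
  rw [h4, Complex.real_smul]
  congr 2
  ext x
  rw [smul_eq_mul, inner_smul_left, fourierT_eq_fourier, smul_smul, inv_mul_cancel₀ (by positivity), one_smul]
  congr 2
  simp
  ring

lemma Spec_wave {ζ : Plane} (hζ : ‖ζ‖ ≤ 1) (ψ : 𝓢(Plane, ℂ))
    (hψ : tsupport ψ ⊆ (Metric.closedBall (0 : Plane) 1)ᶜ) :
    ∫ x, Complex.exp (Complex.I * ((inner ℝ x ζ : ℝ) : ℂ)) * fourierT ψ x = 0 := by
  rw [integral_wave]
  have : ζ ∉ tsupport ψ := by
    intro h
    exact hψ h (mem_closedBall_zero_iff.mpr hζ)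
  rw [image_eq_zero_of_notMem_tsupport this, mul_zero]

instance : IsFiniteMeasure nu := by unfold nu; infer_instance

/-- bounded superpositions over a finite measure -/
lemma Spec_superposition {c : ℝ × ℝ → ℂ} (hc : Continuous c) {M : ℝ} (hM : ∀ p, ‖c p‖ ≤ M)
    {ζ : ℝ × ℝ → Plane} (hζc : Continuous ζ) (hζ : ∀ p, ‖ζ p‖ ≤ 1) (a : Plane) :
    Spec (fun x => ∫ p, c p * Complex.exp (Complex.I * ((inner ℝ (x - a) (ζ p) : ℝ) : ℂ)) ∂nu) := by
  intro ψ hψ
  have hi := fourierT_integrable ψ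
  have h1 : ∀ x, (∫ p, c p * Complex.exp (Complex.I * ((inner ℝ (x - a) (ζ p) : ℝ) : ℂ)) ∂nu) * fourierT ψ x =
      ∫ p, (c p * Complex.exp (Complex.I * ((inner ℝ (x - a) (ζ p) : ℝ) : ℂ))) * fourierT ψ x ∂nu := by
    intro x; rw [integral_mul_const]
  simp_rw [h1]
  rw [integral_integral_swap]
  · rw [integral_eq_zero_of_ae]
    refine Eventually.of_forall (fun p => ?_)
    simp only [Pi.zero_apply]
    have h2 : ∀ x, (c p * Complex.exp (Complex.I * ((inner ℝ (x - a) (ζ p) : ℝ) : ℂ))) * fourierT ψ x =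
      (c p * Complex.exp (-(Complex.I * ((inner ℝ a (ζ p) : ℝ) : ℂ)))) *
        (Complex.exp (Complex.I * ((inner ℝ x (ζ p) : ℝ) : ℂ)) * fourierT ψ x) := by
      intro x
      have : Complex.exp (Complex.I * ((inner ℝ (x - a) (ζ p) : ℝ) : ℂ)) =
          Complex.exp (-(Complex.I * ((inner ℝ a (ζ p) : ℝ) : ℂ))) *
          Complex.exp (Complex.I * ((inner ℝ x (ζ p) : ℝ) : ℂ)) := by
        rw [← Complex.exp_add, inner_sub_left]
        congr 1
        push_cast
        ring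
      rw [this]; ring
    simp_rw [h2]
    rw [integral_const_mul, Spec_wave (hζ p) ψ hψ, mul_zero]
  · have h3 : Integrable (fun z : Plane × (ℝ × ℝ) => fourierT ψ z.1) (volume.prod nu) :=
      hi.comp_fst nu
    have h4 : (Function.uncurry fun x p => c p * Complex.exp (Complex.I * ((inner ℝ (x - a) (ζ p) : ℝ) : ℂ)) * fourierT ψ x) =
      fun z : Plane × (ℝ × ℝ) => (c z.2 * Complex.exp (Complex.I * ((inner ℝ (z.1 - a) (ζ z.2) : ℝ) : ℂ))) * fourierT ψ z.1 := rfl
    rw [h4]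
    refine h3.bdd_mul (c := M) ?_ ?_
    · exact Continuous.aestronglyMeasurable (by fun_prop)
    · refine Eventually.of_forall (fun z => ?_)
      rw [norm_mul, norm_exp_I, mul_one]
      exact hM _

lemma Spec.const_mul {f : Plane → ℂ} (hf : Spec f) (c : ℂ) : Spec (fun x => c * f x) := by
  intro ψ hψ
  simp_rw [mul_assoc]
  rw [integral_const_mul, hf ψ hψ, mul_zero]

lemma InB.spec {f : Plane → ℂ} (hf : InB f) : Spec f := hf.2.2

lemma InB.const_mul {f : Plane → ℂ} (hf : InB f) (c : ℂ) : InB (fun x => c * f x) := by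
  refine ⟨continuous_const.mul hf.1, ?_, hf.spec.const_mul c⟩
  obtain ⟨C, hC⟩ := hf.2.1
  refine ⟨‖c‖ * C, fun x => ?_⟩
  rw [norm_mul]
  exact mul_le_mul_of_nonneg_left (hC x) (norm_nonneg _)

lemma InB.add {f g : Plane → ℂ} (hf : InB f) (hg : InB g) : InB (fun x => f x + g x) := by
  refine ⟨hf.1.add hg.1, ?_, ?_⟩
  · obtain ⟨C, hC⟩ := hf.2.1
    obtain ⟨D, hD⟩ := hg.2.1
    exact ⟨C + D, fun x => (norm_add_le _ _).trans (add_le_add (hC x) (hD x))⟩
  · intro ψ hψ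
    simp_rw [add_mul]
    rw [integral_add (hf.bddMul (fourierT_integrable ψ)) (hg.bddMul (fourierT_integrable ψ)),
      hf.2.2 ψ hψ, hg.2.2 ψ hψ, add_zero]

lemma InB.sub {f g : Plane → ℂ} (hf : InB f) (hg : InB g) : InB (fun x => f x - g x) := by
  have := hf.add (hg.const_mul (-1))
  simpa [sub_eq_add_neg] using this

/-- closedness under bounded pointwise convergence -/
lemma InB_of_tendsto {F : ℕ → Plane → ℂ} {f : Plane → ℂ} {C : ℝ} (hF : ∀ k, InB (F k))
    (hb : ∀ k x, ‖F k x‖ ≤ C) (hlim : ∀ x, Tendsto (fun k => F k x) atTop (𝓝 (f x)))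
    (hf : Continuous f) : InB f := by
  refine ⟨hf, ⟨C, fun x => le_of_tendsto ((hlim x).norm) (Eventually.of_forall (fun k => hb k x))⟩, ?_⟩
  intro ψ hψ
  have h1 : Tendsto (fun k => ∫ x, F k x * fourierT ψ x) atTop (𝓝 (∫ x, f x * fourierT ψ x)) := by
    refine tendsto_integral_of_dominated_convergence (fun x => C * ‖fourierT ψ x‖) ?_ ?_ ?_ ?_
    · intro k
      exact ((hF k).bddMul (fourierT_integrable ψ)).aestronglyMeasurable
    · exact (fourierT_integrable ψ).norm.const_mul _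
    · intro k
      refine Eventually.of_forall (fun x => ?_)
      rw [norm_mul]
      exact mul_le_mul_of_nonneg_right (hb k x) (norm_nonneg _)
    · refine Eventually.of_forall (fun x => ?_)
      exact (hlim x).mul_const _
  have h2 : (fun k => ∫ x, F k x * fourierT ψ x) = fun _ => 0 := by
    ext k; exact (hF k).2.2 ψ hψ
  rw [h2] at h1
  exact (tendsto_nhds_unique h1 tendsto_const_nhds)

end Pool.Agent.Lib.MP_7ba380_an
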