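import Mathlib
import Pool.Agent.Lib.MP_7ba380_an.Closure

open MeasureTheory Set Filter Topology
open scoped Real FourierTransform ContDiff SchwartzMap

namespace Pool.Agent.Lib.MP_7ba380_an

lemma InB_superposition {c : ℝ × ℝ → ℂ} (hc : Continuous c) {M : ℝ} (hM : ∀ p, ‖c p‖ ≤ M)
    {ζ : ℝ × ℝ → Plane} (hζc : Continuous ζ) (hζ : ∀ p, ‖ζ p‖ ≤ 1) (a : Plane) :
    InB (fun x => ∫ p, c p * Complex.exp (Complex.I * ((inner ℝ (x - a) (ζ p) : ℝ) : ℂ)) ∂nu) := by
  refine ⟨?_, ⟨nu.real univ * M, ?_⟩, Spec_superposition hc hM hζc hζ a⟩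
  · refine continuous_of_dominated (bound := fun _ => M) ?_ ?_ (integrable_const _) ?_
    · intro x
      exact Continuous.aestronglyMeasurable (by fun_prop)
    · intro x
      refine Eventually.of_forall (fun p => ?_)
      rw [norm_mul, norm_exp_I, mul_one]
      exact hM p
    · refine Eventually.of_forall (fun p => ?_)
      fun_prop
  · intro x
    refine (norm_integral_le_integral_norm _).trans ?_
    calc ∫ p, ‖c p * Complex.exp (Complex.I * ((inner ℝ (x - a) (ζ p) : ℝ) : ℂ))‖ ∂nu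
        ≤ ∫ _, M ∂nu := by
          refine integral_mono_of_nonneg (Eventually.of_forall (fun p => norm_nonneg _))
            (integrable_const _) (Eventually.of_forall (fun p => ?_))
          simp only
          rw [norm_mul, norm_exp_I, mul_one]
          exact hM p
      _ = _ := by rw [integral_const, smul_eq_mul]

/-- frequencies on the disc of radius `s` -/
noncomputable def zs (s : ℝ) (p : ℝ × ℝ) : Plane :=
  !₂[s * (Real.sin p.1 * Real.cos p.2), s * (Real.sin p.1 * Real.sin p.2)]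

lemma zs_cont (s : ℝ) : Continuous (zs s) := by
  unfold zs
  refine (PiLp.continuous_toLp 2 _).comp ?_
  refine continuous_pi (fun i => ?_)
  fin_cases i <;> simp <;> fun_prop

lemma zs_norm {s : ℝ} (hs0 : 0 ≤ s) (hs : s ≤ 1) (p : ℝ × ℝ) : ‖zs s p‖ ≤ 1 := by
  have h1 : ‖zs s p‖ ^ 2 ≤ 1 := by
    rw [norm_sq_plane]
    have e0 : (zs s p) 0 = s * (Real.sin p.1 * Real.cos p.2) := rfl
    have e1 : (zs s p) 1 = s * (Real.sin p.1 * Real.sin p.2) := rfl
    rw [e0, e1]
    have h2 := Real.sin_sq_add_cos_sq p.2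
    have h3 := Real.sin_sq_le_one p.1
    have h4 : (s * (Real.sin p.1 * Real.cos p.2)) ^ 2 + (s * (Real.sin p.1 * Real.sin p.2)) ^ 2 =
        s ^ 2 * Real.sin p.1 ^ 2 := by
      linear_combination (s ^ 2 * Real.sin p.1 ^ 2) * h2
    rw [h4]
    have h5 : s ^ 2 ≤ 1 := by nlinarith
    nlinarith [sq_nonneg (Real.sin p.1), sq_nonneg s]
  nlinarith [norm_nonneg (zs s p)]

/-- `sin (s|x|) / |x|` -/
noncomputable def Ks (s : ℝ) (x : Plane) : ℂ := (s : ℂ) * Sf (((s * ‖x‖) ^ 2 : ℝ) : ℂ)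

lemma Ks_eq (s : ℝ) (x : Plane) :
    Ks s x = ∫ p, ((s : ℂ) * (wt p : ℂ)) * Complex.exp (Complex.I * ((inner ℝ x (zs s p) : ℝ) : ℂ)) ∂nu := by
  have h1 := identA ((s * x 0 : ℝ) : ℂ) ((s * x 1 : ℝ) : ℂ)
  have h2 : ((((s * x 0 : ℝ) : ℂ)) ^ 2 + (((s * x 1 : ℝ) : ℂ)) ^ 2) = (((s * ‖x‖) ^ 2 : ℝ) : ℂ) := by
    rw [mul_pow, norm_sq_plane]
    push_cast
    ring
  rw [h2] at h1
  rw [Ks, ← h1, ← integral_const_mul]
  congr 1
  ext p
  have h3 : Ex ((s * x 0 : ℝ) : ℂ) ((s * x 1 : ℝ) : ℂ) p = ((inner ℝ x (zs s p) : ℝ) : ℂ) := by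
    have e : (inner ℝ x (zs s p) : ℝ) = Real.sin p.1 * (s * x 0 * Real.cos p.2 + s * x 1 * Real.sin p.2) := by
      simp [zs, PiLp.inner_apply, Fin.sum_univ_two]
      ring
    rw [e, Ex]
    push_cast
    ring
  rw [h3]
  ring

lemma InB_Ks {s : ℝ} (hs0 : 0 ≤ s) (hs : s ≤ 1) (a : Plane) : InB (fun x => Ks s (x - a)) := by
  have h1 : (fun x => Ks s (x - a)) = fun x => ∫ p, ((s : ℂ) * (wt p : ℂ)) *
      Complex.exp (Complex.I * ((inner ℝ (x - a) (zs s p) : ℝ) : ℂ)) ∂nu := by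
    ext x; exact Ks_eq s (x - a)
  rw [h1]
  refine InB_superposition (M := s) ?_ ?_ (zs_cont s) (zs_norm hs0 hs) a
  · have := wt_cont
    fun_prop
  · intro p
    rw [norm_mul, Complex.norm_real, Real.norm_of_nonneg hs0]
    have := wt_bound p
    nlinarith [norm_nonneg ((wt p : ℝ) : ℂ)]

lemma Ks_mul (s : ℝ) (x : Plane) : Ks s x * ((‖x‖ : ℝ) : ℂ) = ((Real.sin (s * ‖x‖) : ℝ) : ℂ) := by
  have h1 := Sf_mul ((s * ‖x‖ : ℝ) : ℂ)
  rw [Ks, Complex.ofReal_sin, ← h1]
  push_cast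
  ring

lemma Ks_zero (s : ℝ) : Ks s 0 = s := by
  rw [Ks, norm_zero, mul_zero]
  norm_num [Sf_zero]

lemma abs_sin_sub_sin_le (a b : ℝ) : |Real.sin a - Real.sin b| ≤ |a - b| := by
  rw [Real.sin_sub_sin, abs_mul, abs_mul, abs_two]
  have h1 : |Real.sin ((a - b) / 2)| ≤ |(a - b) / 2| := Real.abs_sin_le_abs
  have h2 := Real.abs_cos_le_one ((a + b) / 2)
  rw [abs_div, abs_two] at h1
  nlinarith [abs_nonneg (Real.sin ((a - b) / 2)), abs_nonneg (Real.cos ((a + b) / 2)), abs_nonneg (a - b)]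

/-- `cos |x - a|` belongs to `B(K₂)` -/
lemma InB_cos (a : Plane) : InB (fun x => ((Real.cos ‖x - a‖ : ℝ) : ℂ)) := by
  refine InB_of_tendsto (C := 1)
    (F := fun k x => ((dk k)⁻¹ : ℝ) * (Ks 1 (x - a) - Ks (1 - dk k) (x - a))) ?_ ?_ ?_ (by fun_prop)
  · intro k
    have h1 : dk k ≤ 1 := by
      unfold dk
      rw [div_le_one (by positivity)]
      linarith [(Nat.cast_nonneg k : (0:ℝ) ≤ k)]
    exact ((InB_Ks zero_le_one le_rfl a).sub (InB_Ks (by linarith) (by linarith [dk_pos k]) a)).const_mul _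
  · intro k x
    have hd := dk_pos k
    by_cases hx : x - a = 0
    · rw [hx, Ks_zero, Ks_zero]
      have : (((dk k)⁻¹ : ℝ) : ℂ) * (((1:ℝ):ℂ) - ((1 - dk k : ℝ) : ℂ)) = 1 := by
        rw [← Complex.ofReal_sub, ← Complex.ofReal_mul]
        have : (dk k)⁻¹ * (1 - (1 - dk k)) = 1 := by field_simp; ring
        rw [this]; simp
      rw [this, norm_one]
    · have hr : 0 < ‖x - a‖ := norm_pos_iff.mpr hx
      have h1 : ‖Ks 1 (x - a) - Ks (1 - dk k) (x - a)‖ * ‖x - a‖ ≤ dk k * ‖x - a‖ := by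
        have h2 : (Ks 1 (x - a) - Ks (1 - dk k) (x - a)) * ((‖x - a‖ : ℝ) : ℂ) =
            ((Real.sin (1 * ‖x - a‖) - Real.sin ((1 - dk k) * ‖x - a‖) : ℝ) : ℂ) := by
          rw [sub_mul, Ks_mul, Ks_mul]; push_cast; ring
        have h3 := congrArg norm h2
        rw [norm_mul, Complex.norm_real, Complex.norm_real, norm_norm] at h3
        rw [h3]
        refine (abs_sin_sub_sin_le _ _).trans (le_of_eq ?_)
        rw [show 1 * ‖x - a‖ - (1 - dk k) * ‖x - a‖ = dk k * ‖x - a‖ by ring,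
          abs_of_nonneg (by positivity)]
      have h4 := le_of_mul_le_mul_right h1 hr
      rw [norm_mul, Complex.norm_real, norm_inv, Real.norm_of_nonneg hd.le]
      rw [inv_mul_le_iff₀ hd, mul_one]
      exact h4
  · intro x
    by_cases hx : x - a = 0
    · have : (fun k => (((dk k)⁻¹ : ℝ) : ℂ) * (Ks 1 (x - a) - Ks (1 - dk k) (x - a))) = fun _ => 1 := by
        ext k
        have hd := dk_pos k
        rw [hx, Ks_zero, Ks_zero, ← Complex.ofReal_sub, ← Complex.ofReal_mul]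
        have : (dk k)⁻¹ * (1 - (1 - dk k)) = 1 := by field_simp; ring
        rw [this]; simp
      rw [this, hx]
      simp
    · have hr : 0 < ‖x - a‖ := norm_pos_iff.mpr hx
      set r : ℝ := ‖x - a‖ with hr'
      have hK : ∀ s, Ks s (x - a) = ((Real.sin (s * r) / r : ℝ) : ℂ) := by
        intro s
        have h1 := Ks_mul s (x - a)
        rw [← hr'] at h1
        have h2 : ((r : ℝ) : ℂ) ≠ 0 := by exact_mod_cast hr.ne'
        rw [Complex.ofReal_div, eq_div_iff h2, h1]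
      have hder : HasDerivAt (fun s : ℝ => Real.sin (s * r) / r) (Real.cos r) 1 := by
        have h1 : HasDerivAt (fun s : ℝ => s * r) r 1 := by
          simpa using (hasDerivAt_id (1:ℝ)).mul_const r
        have h2 := (h1.sin).div_const r
        refine h2.congr_deriv ?_
        rw [one_mul]
        field_simp
      rw [hasDerivAt_iff_tendsto_slope_zero] at hder
      have hseq : Tendsto (fun k => -dk k) atTop (𝓝[≠] 0) := by
        rw [tendsto_nhdsWithin_iff]
        refine ⟨by simpa using dk_tendsto.neg, Eventually.of_forall (fun k => ?_)⟩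
        have := dk_pos k
        simp [this.ne']
      have h5 := hder.comp hseq
      have h6 := (Complex.continuous_ofReal.tendsto _).comp h5
      refine h6.congr (fun k => ?_)
      have hd := dk_pos k
      simp only [Function.comp]
      rw [hK, hK, ← Complex.ofReal_sub, ← Complex.ofReal_mul]
      congr 1
      rw [smul_eq_mul, show 1 + -dk k = 1 - dk k by ring, inv_neg]
      ring

end Pool.Agent.Lib.MP_7ba380_an
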