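import Mathlib
import Pool.Agent.Lib.MP_7ba380_an.CosInB

open MeasureTheory Set Filter Topology
open scoped Real FourierTransform ContDiff SchwartzMap

namespace Pool.Agent.Lib.MP_7ba380_an

/-- real form of the extremal function -/
noncomputable def g0 (x : Plane) : ℝ :=
  (Real.cos ‖x - (π / 2) • eu‖ + Real.cos ‖x - (-(π / 2)) • eu‖ -
    Real.cos ‖x - (π / 2) • ev‖ - Real.cos ‖x - (-(π / 2)) • ev‖) / 2

/-- the extremal function -/
noncomputable def f0 (x : Plane) : ℂ := ((g0 x : ℝ) : ℂ)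

lemma InB_f0 : InB f0 := by
  have h := (((InB_cos ((π / 2) • eu)).add (InB_cos ((-(π / 2)) • eu))).sub
    (InB_cos ((π / 2) • ev))).sub (InB_cos ((-(π / 2)) • ev))
  have h2 := h.const_mul (1 / 2)
  convert h2 using 1
  ext x
  rw [f0, g0]
  push_cast
  ring

lemma norm_sub_eu_sq (x : Plane) (c : ℝ) :
    ‖x - c • eu‖ ^ 2 = ‖x‖ ^ 2 - 2 * c * inner ℝ eu x + c ^ 2 := by
  rw [norm_sub_sq_real, inner_smul_right, norm_smul, mul_pow, real_inner_comm]
  have : ‖eu‖ ^ 2 = 1 := by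
    rw [norm_sq_plane]; simp [eu]; norm_num
  rw [this, Real.norm_eq_abs, sq_abs]
  ring

lemma norm_sub_ev_sq (x : Plane) (c : ℝ) :
    ‖x - c • ev‖ ^ 2 = ‖x‖ ^ 2 - 2 * c * inner ℝ ev x + c ^ 2 := by
  rw [norm_sub_sq_real, inner_smul_right, norm_smul, mul_pow, real_inner_comm]
  have : ‖ev‖ ^ 2 = 1 := by
    rw [norm_sq_plane]; simp [ev]; norm_num
  rw [this, Real.norm_eq_abs, sq_abs]
  ring

lemma norm_eu : ‖eu‖ = 1 := by
  have h : ‖eu‖ ^ 2 = 1 := by
    rw [norm_sq_plane]; simp [eu]; norm_num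
  nlinarith [norm_nonneg eu]

lemma norm_ev : ‖ev‖ = 1 := by
  have h : ‖ev‖ ^ 2 = 1 := by
    rw [norm_sq_plane]; simp [ev]; norm_num
  nlinarith [norm_nonneg ev]

/-- the key inequality: for `A² + B² = C² + D²` and `|A - B| ≤ π`, `|C - D| ≤ π` -/
lemma key_ineq {A B C D : ℝ} (hA : 0 ≤ A) (hB : 0 ≤ B) (hC : 0 ≤ C) (hD : 0 ≤ D)
    (h : A ^ 2 + B ^ 2 = C ^ 2 + D ^ 2) (h1 : |A - B| ≤ π) (h2 : |C - D| ≤ π) :
    ((Real.cos A + Real.cos B - Real.cos C - Real.cos D) / 2) ^ 2 ≤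
      Real.sin (|A - B| / 2 - |C - D| / 2) ^ 2 := by
  set s : ℝ := (A + B) / 2 with hs
  set t : ℝ := |A - B| / 2 with ht
  set s' : ℝ := (C + D) / 2 with hs'
  set t' : ℝ := |C - D| / 2 with ht'
  have hpi := Real.pi_pos
  have ht0 : 0 ≤ t := by positivity
  have ht'0 : 0 ≤ t' := by positivity
  have htpi : t ≤ π / 2 := by rw [ht]; linarith
  have ht'pi : t' ≤ π / 2 := by rw [ht']; linarith
  have hts : t ≤ s := by
    rw [ht, hs]
    have : |A - B| ≤ A + B := abs_le.mpr ⟨by linarith, by linarith⟩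
    linarith
  have hts' : t' ≤ s' := by
    rw [ht', hs']
    have : |C - D| ≤ C + D := abs_le.mpr ⟨by linarith, by linarith⟩
    linarith
  have e1 : Real.cos A + Real.cos B = 2 * Real.cos s * Real.cos t := by
    rw [Real.cos_add_cos, ht, ← Real.cos_abs ((A - B) / 2), abs_div, abs_two]
  have e2 : Real.cos C + Real.cos D = 2 * Real.cos s' * Real.cos t' := by
    rw [Real.cos_add_cos, ht', ← Real.cos_abs ((C - D) / 2), abs_div, abs_two]
  have e3 : (Real.cos A + Real.cos B - Real.cos C - Real.cos D) / 2 =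
      Real.cos s * Real.cos t - Real.cos s' * Real.cos t' := by linarith
  rw [e3]
  have hsq : s ^ 2 + t ^ 2 = s' ^ 2 + t' ^ 2 := by
    have q1 : s ^ 2 + t ^ 2 = (A ^ 2 + B ^ 2) / 2 := by
      rw [hs, ht, div_pow, div_pow, sq_abs]; ring
    have q2 : s' ^ 2 + t' ^ 2 = (C ^ 2 + D ^ 2) / 2 := by
      rw [hs', ht', div_pow, div_pow, sq_abs]; ring
    rw [q1, q2, h]
  have hst : |s - s'| ≤ |t - t'| := by
    by_cases hz : s + s' = 0
    · have : s = 0 := by linarith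
      have : s' = 0 := by linarith
      rw [‹s = 0›, ‹s' = 0›]; simp
    · have hpos : 0 < s + s' := lt_of_le_of_ne (by linarith) (Ne.symm hz)
      have h5 : |s - s'| * (s + s') = |t - t'| * (t + t') := by
        have : (s - s') * (s + s') = (t' - t) * (t + t') := by linear_combination hsq
        have h6 := congrArg abs this
        rw [abs_mul, abs_mul, abs_of_pos hpos, abs_of_nonneg (by linarith : 0 ≤ t + t'), abs_sub_comm t' t] at h6
        exact h6
      by_contra hcon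
      push Not at hcon
      have : |t - t'| * (t + t') ≤ |t - t'| * (s + s') :=
        mul_le_mul_of_nonneg_left (by linarith) (abs_nonneg _)
      have h8 : |t - t'| * (s + s') < |s - s'| * (s + s') := mul_lt_mul_of_pos_right hcon hpos
      linarith
  have hct : 0 ≤ Real.cos t := Real.cos_nonneg_of_mem_Icc ⟨by linarith, htpi⟩
  have hct' : 0 ≤ Real.cos t' := Real.cos_nonneg_of_mem_Icc ⟨by linarith, ht'pi⟩
  have hcos : Real.cos (t - t') ≤ Real.cos (s - s') := by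
    rw [← Real.cos_abs (t - t'), ← Real.cos_abs (s - s')]
    refine Real.cos_le_cos_of_nonneg_of_le_pi (abs_nonneg _) ?_ hst
    exact abs_le.mpr ⟨by linarith, by linarith⟩
  have f1 : (Real.cos s * Real.cos t - Real.cos s' * Real.cos t') ^ 2 +
      (Real.sin s * Real.cos t - Real.sin s' * Real.cos t') ^ 2 =
      Real.cos t ^ 2 + Real.cos t' ^ 2 - 2 * Real.cos t * Real.cos t' * Real.cos (s - s') := by
    rw [Real.cos_sub]
    have a1 := Real.sin_sq_add_cos_sq s
    have a2 := Real.sin_sq_add_cos_sq s'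
    linear_combination (Real.cos t ^ 2) * a1 + (Real.cos t' ^ 2) * a2
  have f2 : Real.sin (t - t') ^ 2 =
      Real.cos t ^ 2 + Real.cos t' ^ 2 - 2 * Real.cos t * Real.cos t' * Real.cos (t - t') := by
    rw [Real.cos_sub, Real.sin_sub]
    have a1 := Real.sin_sq_add_cos_sq t
    have a2 := Real.sin_sq_add_cos_sq t'
    linear_combination (Real.cos t' ^ 2) * a1 + (Real.cos t ^ 2) * a2
  have f3 : 0 ≤ Real.cos t * Real.cos t' := mul_nonneg hct hct'
  have f4 := mul_le_mul_of_nonneg_left hcos f3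
  have f5 := sq_nonneg (Real.sin s * Real.cos t - Real.sin s' * Real.cos t')
  rw [f2]
  linarith

/-- the four distances -/
lemma g0_sq_le (x : Plane) :
    g0 x ^ 2 ≤ Real.sin (|‖x - (π / 2) • eu‖ - ‖x - (-(π / 2)) • eu‖| / 2 -
      |‖x - (π / 2) • ev‖ - ‖x - (-(π / 2)) • ev‖| / 2) ^ 2 := by
  refine key_ineq (norm_nonneg _) (norm_nonneg _) (norm_nonneg _) (norm_nonneg _) ?_ ?_ ?_
  · rw [norm_sub_eu_sq, norm_sub_eu_sq, norm_sub_ev_sq, norm_sub_ev_sq]
    ring
  · refine (abs_norm_sub_norm_le _ _).trans (le_of_eq ?_)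
    rw [show x - (π / 2) • eu - (x - (-(π / 2)) • eu) = (-π) • eu by
      rw [sub_sub_sub_cancel_left, ← sub_smul]; congr 1; ring, norm_smul, norm_eu, norm_neg,
      Real.norm_of_nonneg Real.pi_pos.le, mul_one]
  · refine (abs_norm_sub_norm_le _ _).trans (le_of_eq ?_)
    rw [show x - (π / 2) • ev - (x - (-(π / 2)) • ev) = (-π) • ev by
      rw [sub_sub_sub_cancel_left, ← sub_smul]; congr 1; ring, norm_smul, norm_ev, norm_neg,
      Real.norm_of_nonneg Real.pi_pos.le, mul_one]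

lemma f0_norm_le (x : Plane) : ‖f0 x‖ ≤ 1 := by
  rw [f0, Complex.norm_real, Real.norm_eq_abs]
  exact (sq_le_one_iff_abs_le_one _).mp ((g0_sq_le x).trans (Real.sin_sq_le_one _))

lemma inner_eu_ev : (inner ℝ eu ev : ℝ) = 0 := by
  rw [inner_eu]; simp [ev]

lemma cos_int_pi (n : ℤ) : Real.cos (π * |(n:ℝ)|) = sg n := by
  have h1 : Real.cos (π * |(n:ℝ)|) = Real.cos (n * π) := by
    rw [← Real.cos_abs (n * π), abs_mul, abs_of_pos Real.pi_pos, mul_comm]
  rw [h1, Real.cos_int_mul_pi]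
  rfl

/-- values of `f0` at the nodes -/
lemma g0_node_eu {n : ℤ} (hn : n ≠ 0) : g0 (y n • eu) = - sg n := by
  have h1 : ‖y n • eu - (π / 2) • ev‖ = π * |(n:ℝ)| := by
    have e : ‖y n • eu - (π / 2) • ev‖ ^ 2 = (π * |(n:ℝ)|) ^ 2 := by
      rw [norm_sub_ev_sq, norm_smul, norm_eu, inner_smul_right, real_inner_comm, inner_eu_ev, mul_one,
        Real.norm_eq_abs, sq_abs, y_sq hn, mul_pow, mul_pow, sq_abs]
      ring
    exact (pow_left_inj₀ (norm_nonneg _) (by positivity) two_ne_zero).mp e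
  have h2 : ‖y n • eu - (-(π / 2)) • ev‖ = π * |(n:ℝ)| := by
    have e : ‖y n • eu - (-(π / 2)) • ev‖ ^ 2 = (π * |(n:ℝ)|) ^ 2 := by
      rw [norm_sub_ev_sq, norm_smul, norm_eu, inner_smul_right, real_inner_comm, inner_eu_ev, mul_one,
        Real.norm_eq_abs, sq_abs, y_sq hn, mul_pow, mul_pow, sq_abs]
      ring
    exact (pow_left_inj₀ (norm_nonneg _) (by positivity) two_ne_zero).mp e
  rw [g0, h1, h2, cos_int_pi, ← sub_smul, ← sub_smul, norm_smul, norm_smul, norm_eu, mul_one, mul_one,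
    Real.norm_eq_abs, Real.norm_eq_abs, Real.cos_abs, Real.cos_abs, Real.cos_sub_pi_div_two,
    sub_neg_eq_add, Real.cos_add_pi_div_two]
  ring

lemma g0_node_ev {n : ℤ} (hn : n ≠ 0) : g0 (y n • ev) = sg n := by
  have hie : (inner ℝ ev eu : ℝ) = 0 := by rw [real_inner_comm]; exact inner_eu_ev
  have h1 : ‖y n • ev - (π / 2) • eu‖ = π * |(n:ℝ)| := by
    have e : ‖y n • ev - (π / 2) • eu‖ ^ 2 = (π * |(n:ℝ)|) ^ 2 := by
      rw [norm_sub_eu_sq, norm_smul, norm_ev, inner_smul_right, real_inner_comm, hie, mul_one,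
        Real.norm_eq_abs, sq_abs, y_sq hn, mul_pow, mul_pow, sq_abs]
      ring
    exact (pow_left_inj₀ (norm_nonneg _) (by positivity) two_ne_zero).mp e
  have h2 : ‖y n • ev - (-(π / 2)) • eu‖ = π * |(n:ℝ)| := by
    have e : ‖y n • ev - (-(π / 2)) • eu‖ ^ 2 = (π * |(n:ℝ)|) ^ 2 := by
      rw [norm_sub_eu_sq, norm_smul, norm_ev, inner_smul_right, real_inner_comm, hie, mul_one,
        Real.norm_eq_abs, sq_abs, y_sq hn, mul_pow, mul_pow, sq_abs]
      ring
    exact (pow_left_inj₀ (norm_nonneg _) (by positivity) two_ne_zero).mp e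
  rw [g0, h1, h2, cos_int_pi, ← sub_smul, ← sub_smul, norm_smul, norm_smul, norm_ev, mul_one, mul_one,
    Real.norm_eq_abs, Real.norm_eq_abs, Real.cos_abs, Real.cos_abs, Real.cos_sub_pi_div_two,
    sub_neg_eq_add, Real.cos_add_pi_div_two]
  ring

/-- the quadrature at the origin -/
lemma T_zero_of_nodes {f : Plane → ℂ} (hf : InB f)
    (h1 : ∀ n : ℤ, n ≠ 0 → f (y n • eu) = ((-sg n : ℝ) : ℂ))
    (h2 : ∀ n : ℤ, n ≠ 0 → f (y n • ev) = ((sg n : ℝ) : ℂ)) : T f 0 = ((2 / π : ℝ) : ℂ) := by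
  have h3 := hf.quad 0
  have h4 : HasSum (fun n : ℤ => ((w n : ℝ) : ℂ)) ((2 / π : ℝ) : ℂ) := Complex.hasSum_ofReal.mpr w_total
  refine h3.unique (h4.congr_fun (fun n => ?_))
  by_cases hn : n = 0
  · subst hn
    simp [w_zero]
  · rw [zero_add, zero_add, h1 n hn, h2 n hn, ← Complex.ofReal_sub, ← Complex.ofReal_mul]
    congr 1
    have := sg_sq n
    linear_combination (w n) * this

lemma T_f0 : T f0 0 = ((2 / π : ℝ) : ℂ) := by
  refine T_zero_of_nodes InB_f0 ?_ ?_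
  · intro n hn; rw [f0, g0_node_eu hn]
  · intro n hn; rw [f0, g0_node_ev hn]

end Pool.Agent.Lib.MP_7ba380_an
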