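import Mathlib
import Pool.Agent.Lib.MP_7ba380_an.Extremal

open Set
open scoped Real ContDiff

namespace Pool.Agent.Lib.MP_7ba380_an

/-- the value of the norm -/
theorem norm_value : IsGreatest imageValues (2 / π) := by
  constructor
  · refine ⟨f0, 0, InB_f0, f0_norm_le, ?_⟩
    rw [T_f0, Complex.norm_real, Real.norm_of_nonneg (by positivity)]
  · rintro r ⟨f, x, hf, hf1, rfl⟩
    simpa using hf.bound hf1 x

end Pool.Agent.Lib.MP_7ba380_an
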