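import Mathlib
import Pool.Agent.Lib.MP_7ba380_an.Extremal

open MeasureTheory Set Filter Topology
open scoped Real FourierTransform ContDiff SchwartzMap

namespace Pool.Agent.Lib.MP_7ba380_an

/-- transference of a linear relation between exponentials with frequencies in `[-1,1]` to the
restriction of a function in `B(K₂)` to a line through the origin -/
theorem InB.transfer {f : Plane → ℂ} (hf : InB f) {e : Plane} (he : ‖e‖ = 1) {c : ℤ → ℂ}
    (hc : Summable fun n => ‖c n‖) {z : ℤ → ℝ} {a : Fin 3 → ℂ} {x : Fin 3 → ℝ}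
    (h : ∀ t : ℝ, |t| ≤ 1 → HasSum (fun n => c n * Complex.exp (Complex.I * ((t * z n : ℝ) : ℂ)))
      (∑ j, a j * Complex.exp (Complex.I * ((t * x j : ℝ) : ℂ)))) :
    HasSum (fun n => c n * f (z n • e)) (∑ j, a j * f (x j • e)) := by
  obtain ⟨C, hC⟩ := hf.2.1
  have hC0 : 0 ≤ C := (norm_nonneg _).trans (hC 0)
  have hbd : ∀ (v : Plane), ∀ k, ‖f v * ch (dk_pos k) v‖ ≤ C := by
    intro v k
    rw [norm_mul]
    calc ‖f v‖ * ‖ch (dk_pos k) v‖ ≤ C * 1 :=
          mul_le_mul (hC v) (ch_norm_le _ v) (norm_nonneg _) hC0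
      _ = C := mul_one C
  have hlim : ∀ r : ℝ, Tendsto (fun k => f ((r / (1 + dk k)) • e) *
      ch (dk_pos k) ((r / (1 + dk k)) • e)) atTop (𝓝 (f (r • e))) := by
    intro r
    have h1 : Tendsto (fun k => (r / (1 + dk k)) • e) atTop (𝓝 (r • e)) := by
      have h2 : Tendsto (fun k => r / (1 + dk k)) atTop (𝓝 (r / (1 + 0))) :=
        tendsto_const_nhds.div (tendsto_const_nhds.add dk_tendsto) (by norm_num)
      rw [add_zero, div_one] at h2
      exact h2.smul_const e
    have h3 : Tendsto (fun k => f ((r / (1 + dk k)) • e)) atTop (𝓝 (f (r • e))) :=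
      (hf.1.tendsto _).comp h1
    have h4 : Tendsto (fun k => ch (dk_pos k) ((r / (1 + dk k)) • e)) atTop (𝓝 1) := by
      rw [tendsto_iff_norm_sub_tendsto_zero]
      refine squeeze_zero (fun k => norm_nonneg _) (fun k => ch_sub_one (dk_pos k) _) ?_
      have := dk_tendsto.mul h1.norm
      simpa using this
    simpa using h3.mul h4
  -- the relation for superpositions
  have hrel : ∀ k, HasSum (fun n => c n * (f ((z n / (1 + dk k)) • e) * ch (dk_pos k) ((z n / (1 + dk k)) • e)))
      (∑ j, a j * (f ((x j / (1 + dk k)) • e) * ch (dk_pos k) ((x j / (1 + dk k)) • e))) := by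
    intro k
    have hR : 0 < 1 + dk k := by linarith [dk_pos k]
    set G := dens f (dk_pos k) with hG
    have hGc : Continuous G := hf.dens_cont (dk_pos k)
    have hGs : HasCompactSupport G := hf.dens_compact (dk_pos k)
    have hGi : Integrable G := hGc.integrable_of_hasCompactSupport hGs
    have hfe := hf.fch_eq (dk_pos k) (ch_contDiff _).continuous
    have hval : ∀ v : Plane, f v * ch (dk_pos k) v = ∫ η, Complex.exp (Complex.I * ((inner ℝ v η : ℝ) : ℂ)) * G η := by
      intro v
      have := congrFun hfe v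
      rw [← this]; rfl
    have hexp : ∀ (r : ℝ) (η : Plane), Complex.exp (Complex.I * ((inner ℝ ((r / (1 + dk k)) • e) η : ℝ) : ℂ)) =
        Complex.exp (Complex.I * (((inner ℝ e η / (1 + dk k)) * r : ℝ) : ℂ)) := by
      intro r η
      congr 3
      rw [inner_smul_left]
      simp
      ring
    simp_rw [hval, hexp]
    have h5 : ∑ j, a j * ∫ η, Complex.exp (Complex.I * (((inner ℝ e η / (1 + dk k)) * x j : ℝ) : ℂ)) * G η =
        ∫ η, (∑ j, a j * Complex.exp (Complex.I * (((inner ℝ e η / (1 + dk k)) * x j : ℝ) : ℂ))) * G η := by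
      simp_rw [← integral_const_mul]
      rw [← integral_finsetSum]
      · congr 1
        ext η
        rw [Finset.sum_mul]
        refine Finset.sum_congr rfl (fun j _ => ?_)
        ring
      · intro j _
        refine Integrable.const_mul ?_ _
        refine hGi.bdd_mul (c := 1) (Continuous.aestronglyMeasurable (by fun_prop)) ?_
        exact Eventually.of_forall (fun η => (norm_exp_I _).le)
    rw [h5]
    have h6 : ∀ n, c n * ∫ η, Complex.exp (Complex.I * (((inner ℝ e η / (1 + dk k)) * z n : ℝ) : ℂ)) * G η =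
        ∫ η, (c n * Complex.exp (Complex.I * (((inner ℝ e η / (1 + dk k)) * z n : ℝ) : ℂ))) * G η := by
      intro n
      rw [← integral_const_mul]
      congr 1
      ext η; ring
    simp_rw [h6]
    refine hasSum_integral_of_dominated_convergence (fun (n : ℤ) (η : Plane) => ‖c n‖ * ‖G η‖) ?_ ?_ ?_ ?_ ?_
    · intro n
      exact Continuous.aestronglyMeasurable (by fun_prop)
    · intro n
      refine Eventually.of_forall (fun η => ?_)
      rw [norm_mul, norm_mul, norm_exp_I, mul_one]
    · exact Eventually.of_forall (fun η => hc.mul_right _)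
    · have : (fun η : Plane => ∑' n : ℤ, ‖c n‖ * ‖G η‖) = fun η : Plane => (∑' n : ℤ, ‖c n‖) * ‖G η‖ := by
        ext η; rw [tsum_mul_right]
      rw [this]
      exact hGi.norm.const_mul _
    · refine Eventually.of_forall (fun η => ?_)
      by_cases hη : ‖η‖ ≤ 1 + dk k
      · refine (h (inner ℝ e η / (1 + dk k)) ?_).mul_right _
        rw [abs_div, abs_of_pos hR, div_le_one hR]
        refine (abs_real_inner_le_norm e η).trans ?_
        rw [he, one_mul]
        exact hη
      · simp only [hf.dens_zero (dk_pos k) (not_le.mp hη), hG, mul_zero]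
        exact hasSum_zero
  -- pass to the limit
  have hL : Tendsto (fun k => ∑ j, a j * (f ((x j / (1 + dk k)) • e) * ch (dk_pos k) ((x j / (1 + dk k)) • e)))
      atTop (𝓝 (∑ j, a j * f (x j • e))) :=
    tendsto_finsetSum _ (fun j _ => (hlim (x j)).const_mul _)
  have hR : Tendsto (fun k : ℕ => ∑' n : ℤ, c n * (f ((z n / (1 + dk k)) • e) *
      ch (dk_pos k) ((z n / (1 + dk k)) • e))) atTop (𝓝 (∑' n : ℤ, c n * f (z n • e))) := by
    refine tendsto_tsum_of_dominated_convergence (bound := fun n => ‖c n‖ * C) (hc.mul_right _) ?_ ?_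
    · intro n
      exact (hlim (z n)).const_mul _
    · refine Eventually.of_forall (fun k n => ?_)
      rw [norm_mul]
      exact mul_le_mul_of_nonneg_left (hbd _ k) (norm_nonneg _)
  have hsum : Summable (fun n : ℤ => c n * f (z n • e)) := by
    refine Summable.of_norm_bounded (hc.mul_right C) (fun n => ?_)
    rw [norm_mul]
    exact mul_le_mul_of_nonneg_left (hC _) (norm_nonneg _)
  have heq : (fun k : ℕ => ∑' n : ℤ, c n * (f ((z n / (1 + dk k)) • e) *
      ch (dk_pos k) ((z n / (1 + dk k)) • e))) = fun k =>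
      ∑ j, a j * (f ((x j / (1 + dk k)) • e) * ch (dk_pos k) ((x j / (1 + dk k)) • e)) := by
    ext k; exact (hrel k).tsum_eq
  rw [heq] at hR
  rw [tendsto_nhds_unique hL hR]
  exact hsum.hasSum

end Pool.Agent.Lib.MP_7ba380_an
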