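import Mathlib
import Pool.Agent.Lib.MP_7ba380_an.Transfer

open MeasureTheory Set Filter Topology
open scoped Real

namespace Pool.Agent.Lib.MP_7ba380_an

/-- `sin ρ / ρ` with `ρ = √(u² + (π/2)²)` -/
noncomputable def SS (u : ℝ) : ℝ :=
  Real.sin (Real.sqrt (u ^ 2 + (π / 2) ^ 2)) / Real.sqrt (u ^ 2 + (π / 2) ^ 2)

lemma rho_pos (u : ℝ) : 0 < Real.sqrt (u ^ 2 + (π / 2) ^ 2) := Real.sqrt_pos.mpr (by positivity)

lemma Sf_eq_SS (u : ℝ) : Sf (((u ^ 2 + (π / 2) ^ 2 : ℝ) : ℂ)) = ((SS u : ℝ) : ℂ) := by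
  have h1 := Sf_mul ((Real.sqrt (u ^ 2 + (π / 2) ^ 2) : ℝ) : ℂ)
  have h2 := rho_pos u
  have h3 : ((Real.sqrt (u ^ 2 + (π / 2) ^ 2) : ℝ) : ℂ) ≠ 0 := by exact_mod_cast h2.ne'
  rw [← Complex.ofReal_pow, Real.sq_sqrt (by positivity), ← Complex.ofReal_sin] at h1
  rw [SS, Complex.ofReal_div, eq_div_iff h3, h1]

lemma SS_zero : SS 0 = 2 / π := by
  have hp := Real.pi_pos
  rw [SS, show (0:ℝ) ^ 2 + (π / 2) ^ 2 = (π / 2) ^ 2 by ring, Real.sqrt_sq (by positivity),
    Real.sin_pi_div_two]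
  field_simp

lemma SS_neg (u : ℝ) : SS (-u) = SS u := by unfold SS; rw [neg_sq]

lemma sqrt_node {n : ℤ} (hn : n ≠ 0) : Real.sqrt (y n ^ 2 + (π / 2) ^ 2) = π * |(n:ℝ)| := by
  rw [y_sq hn, show (π * (n:ℝ)) ^ 2 - (π / 2) ^ 2 + (π / 2) ^ 2 = (π * |(n:ℝ)|) ^ 2 by
    rw [mul_pow, mul_pow, sq_abs]; ring, Real.sqrt_sq (by positivity)]

lemma SS_node {n : ℤ} (hn : n ≠ 0) : SS (y n) = 0 := by
  rw [SS, sqrt_node hn]
  have : Real.sin (π * |(n:ℝ)|) = 0 := by
    rcases abs_choice (n:ℝ) with h | h <;> rw [h]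
    · rw [mul_comm]; exact Real.sin_int_mul_pi n
    · rw [mul_neg, Real.sin_neg, mul_comm, Real.sin_int_mul_pi n, neg_zero]
  rw [this, zero_div]

/-- complex density -/
noncomputable def lam (p : ℝ × ℝ) : ℂ := (wt p : ℂ) * Complex.exp (Complex.I * ((π / 2 * sv' p : ℝ) : ℂ))

lemma lam_cont : Continuous lam := by
  have := wt_cont
  have := sv'_cont
  unfold lam; fun_prop

lemma lam_norm (p : ℝ × ℝ) : ‖lam p‖ ≤ 1 := by
  unfold lam
  rw [norm_mul, norm_exp_I, mul_one]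
  exact wt_bound p

/-- the functional `Λ` -/
noncomputable def Lam (F : ℝ → ℂ) : ℂ := ∫ p, lam p * F (sv p) ∂nu

lemma Lam_integrable {F : ℝ → ℂ} (hF : Continuous F) : Integrable (fun p => lam p * F (sv p)) nu := by
  obtain ⟨C, hC⟩ : ∃ C, ∀ t ∈ Icc (-1:ℝ) 1, ‖F t‖ ≤ C :=
    isCompact_Icc.exists_bound_of_continuousOn hF.continuousOn
  refine Integrable.mono' (integrable_const (1 * C)) ?_ ?_
  · have := lam_cont
    have := sv_cont
    exact Continuous.aestronglyMeasurable (by fun_prop)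
  · refine Eventually.of_forall (fun p => ?_)
    rw [norm_mul]
    exact mul_le_mul (lam_norm p) (hC _ (abs_le.mp (sv_bound p))) (norm_nonneg _) zero_le_one

lemma Lam_add {F G : ℝ → ℂ} (hF : Continuous F) (hG : Continuous G) :
    Lam (fun t => F t + G t) = Lam F + Lam G := by
  unfold Lam
  rw [← integral_add (Lam_integrable hF) (Lam_integrable hG)]
  congr 1
  ext p; ring

lemma Lam_const_mul (c : ℂ) (F : ℝ → ℂ) : Lam (fun t => c * F t) = c * Lam F := by
  unfold Lam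
  rw [← integral_const_mul]
  congr 1
  ext p; ring

lemma Lam_congr {F G : ℝ → ℂ} (h : ∀ t, |t| ≤ 1 → F t = G t) : Lam F = Lam G := by
  unfold Lam
  congr 1
  ext p
  rw [h _ (sv_bound p)]

lemma Lam_exp (z : ℝ) : Lam (fun t => Complex.exp (Complex.I * ((t * z : ℝ) : ℂ))) = ((SS z : ℝ) : ℂ) := by
  have h1 := identA (z : ℂ) ((π / 2 : ℝ) : ℂ)
  have h2 : ((z : ℂ)) ^ 2 + (((π / 2 : ℝ) : ℂ)) ^ 2 = ((z ^ 2 + (π / 2) ^ 2 : ℝ) : ℂ) := by push_cast; ring
  rw [h2, Sf_eq_SS] at h1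
  rw [← h1, Lam]
  congr 1
  ext p
  unfold lam
  rw [mul_assoc, ← Complex.exp_add]
  congr 2
  unfold Ex sv sv'
  push_cast
  ring

lemma Lam_one : Lam (fun _ => 1) = ((2 / π : ℝ) : ℂ) := by
  have h := Lam_exp 0
  rw [SS_zero] at h
  rw [← h]
  congr 1
  ext t
  simp

lemma Lam_hasDerivAt : HasDerivAt (fun z : ℝ => Lam (fun t => Complex.exp (Complex.I * ((t * z : ℝ) : ℂ))))
    (Lam (fun t => Complex.I * t)) 0 := by
  unfold Lam
  have key := (hasDerivAt_integral_of_dominated_loc_of_deriv_le (μ := nu) (x₀ := (0:ℝ))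
    (F := fun (z : ℝ) p => lam p * Complex.exp (Complex.I * ((sv p * z : ℝ) : ℂ)))
    (F' := fun (z : ℝ) p => lam p * (Complex.exp (Complex.I * ((sv p * z : ℝ) : ℂ)) * (Complex.I * sv p)))
    (bound := fun _ => 1) (s := univ) Filter.univ_mem ?_ ?_ ?_ ?_ ?_ ?_).2
  · refine key.congr_deriv ?_
    congr 1
    ext p
    simp
  · refine Eventually.of_forall (fun z => ?_)
    have := lam_cont
    have := sv_cont
    exact Continuous.aestronglyMeasurable (by fun_prop)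
  · exact Lam_integrable (F := fun t => Complex.exp (Complex.I * ((t * 0 : ℝ) : ℂ))) (by fun_prop)
  · have := lam_cont
    have := sv_cont
    exact Continuous.aestronglyMeasurable (by fun_prop)
  · refine Eventually.of_forall (fun p z _ => ?_)
    rw [norm_mul, norm_mul, norm_exp_I, one_mul, norm_mul, Complex.norm_I, one_mul, Complex.norm_real]
    exact mul_le_one₀ (lam_norm p) (norm_nonneg _) (sv_bound p)
  · exact integrable_const _
  · refine Eventually.of_forall (fun p z _ => ?_)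
    have h1 : HasDerivAt (fun z : ℝ => Complex.I * ((sv p * z : ℝ) : ℂ)) (Complex.I * sv p) z := by
      have h2 : HasDerivAt (fun z : ℝ => sv p * z) (sv p) z := by
        simpa using (hasDerivAt_id z).const_mul (sv p)
      exact (h2.ofReal_comp).const_mul Complex.I
    exact ((Complex.hasDerivAt_exp _).comp z h1).const_mul (lam p)

lemma Lam_t : Lam (fun t => (t : ℂ)) = 0 := by
  have h1 := Lam_hasDerivAt
  have h2 : (fun z : ℝ => Lam (fun t => Complex.exp (Complex.I * ((t * z : ℝ) : ℂ)))) =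
      fun z => ((SS z : ℝ) : ℂ) := funext Lam_exp
  rw [h2] at h1
  have h3 : HasDerivAt (fun z : ℝ => ((SS (-z) : ℝ) : ℂ)) (Lam (fun t => Complex.I * t) * (-1)) 0 := by
    have h4 : HasDerivAt (fun z : ℝ => ((SS z : ℝ) : ℂ)) (Lam (fun t => Complex.I * t)) (-0) := by
      rw [neg_zero]; exact h1
    have h5 : HasDerivAt (fun z : ℝ => ((SS (-z) : ℝ) : ℂ)) ((-1:ℝ) • Lam (fun t => Complex.I * t)) 0 :=
      HasDerivAt.scomp (0:ℝ) h4 (hasDerivAt_neg (0:ℝ))
    refine h5.congr_deriv ?_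
    rw [Complex.real_smul]
    push_cast
    ring
  simp_rw [SS_neg] at h3
  have h6 := h1.unique h3
  have h7 : Lam (fun t => Complex.I * t) = 0 := by linear_combination (1 / 2) * h6
  rw [Lam_const_mul] at h7
  rcases mul_eq_zero.mp h7 with h | h
  · exact absurd h Complex.I_ne_zero
  · exact h

end Pool.Agent.Lib.MP_7ba380_an
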