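import Mathlib
import Pool.Agent.Lib.MP_7ba380_an.Functional

open MeasureTheory Set Filter Topology
open scoped Real

namespace Pool.Agent.Lib.MP_7ba380_an

lemma abs_le_abs_y (n : ℤ) : |(n:ℝ)| ≤ |y n| := by
  by_cases hn : n = 0
  · subst hn; simp
  · refine sq_le_sq.mp ?_
    rw [y_sq hn]
    have h1 : (1:ℝ) ≤ (n:ℝ) ^ 2 := by
      have : (1:ℤ) ≤ n ^ 2 := by
        have := sq_pos_of_ne_zero hn
        omega
      exact_mod_cast this
    have h2 := Real.pi_gt_three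
    have h3 : 9 < π ^ 2 := by nlinarith
    nlinarith

/-- coefficients `(-1)^n w_n / (u - y_n)` -/
noncomputable def cf (u : ℝ) (n : ℤ) : ℂ := ((sg n * w n / (u - y n) : ℝ) : ℂ)

lemma cf_norm (u : ℝ) (n : ℤ) : ‖cf u n‖ = w n * |u - y n|⁻¹ := by
  rw [cf, Complex.norm_real, norm_div, norm_mul, Real.norm_eq_abs, abs_sg, one_mul,
    Real.norm_of_nonneg (w_nonneg n), Real.norm_eq_abs, div_eq_mul_inv]

lemma cf_summable (u : ℝ) : Summable (fun n => ‖cf u n‖) := by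
  refine Summable.of_norm_bounded_eventually (g := w) w_summable ?_
  have hfin : {n : ℤ | ¬ (‖‖cf u n‖‖ ≤ w n)}.Finite := by
    obtain ⟨N, hN⟩ := exists_nat_ge (|u| + 1)
    refine (Set.finite_Icc (-(N:ℤ)) N).subset (fun n hn => ?_)
    by_contra hcon
    apply hn
    rw [norm_norm, cf_norm]
    have h1 : (N:ℝ) < |(n:ℝ)| := by
      rw [Set.mem_Icc, ← abs_le, not_le] at hcon
      exact_mod_cast hcon
    have h2 := abs_le_abs_y n
    have h3 : 1 ≤ |u - y n| := by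
      have h4 : |y n| - |u| ≤ |u - y n| := by
        rw [abs_sub_comm]; exact abs_sub_abs_le_abs_sub _ _
      linarith
    have h5 : |u - y n|⁻¹ ≤ 1 := inv_le_one_of_one_le₀ h3
    calc w n * |u - y n|⁻¹ ≤ w n * 1 := mul_le_mul_of_nonneg_left h5 (w_nonneg n)
      _ = w n := mul_one _
  exact hfin

lemma cf_zero (u : ℝ) : cf u 0 = 0 := by simp [cf, w_zero]

/-- `∑ (-1)^n w_n e^{i t y_n}/(u - y_n)` -/
noncomputable def Psi (u t : ℝ) : ℂ := ∑' n : ℤ, cf u n * Complex.exp (Complex.I * ((t * y n : ℝ) : ℂ))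

lemma Psi_hasSum (u t : ℝ) :
    HasSum (fun n : ℤ => cf u n * Complex.exp (Complex.I * ((t * y n : ℝ) : ℂ))) (Psi u t) := by
  refine Summable.hasSum ?_
  refine Summable.of_norm_bounded (cf_summable u) (fun n => ?_)
  rw [norm_mul, norm_exp_I, mul_one]

lemma E_exp' {t : ℝ} (ht : |t| ≤ 1) :
    HasSum (fun n : ℤ => ((sg n * w n : ℝ) : ℂ) * Complex.exp (Complex.I * ((t * y n : ℝ) : ℂ)))
      ((t ^ 2 - 4 / π ^ 2 : ℝ) : ℂ) := by
  refine (E_exp ht).congr_fun (fun n => ?_)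
  rw [mul_comm Complex.I]

lemma HH_eq (u t : ℝ) : Complex.exp (-(Complex.I * ((t * u : ℝ) : ℂ))) * Psi u t =
    ∑' n : ℤ, cf u n * Complex.exp (Complex.I * ((t * (y n - u) : ℝ) : ℂ)) := by
  rw [Psi, ← tsum_mul_left]
  congr 1
  ext n
  rw [mul_left_comm, ← Complex.exp_add]
  congr 2
  push_cast
  ring

lemma HH_hasDerivAt {u t : ℝ} (hu : ∀ n : ℤ, n ≠ 0 → u ≠ y n) (ht : |t| ≤ 1) :
    HasDerivAt (fun t : ℝ => Complex.exp (-(Complex.I * ((t * u : ℝ) : ℂ))) * Psi u t)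
      (-Complex.I * Complex.exp (-(Complex.I * ((t * u : ℝ) : ℂ))) * ((t ^ 2 - 4 / π ^ 2 : ℝ) : ℂ)) t := by
  have h1 : (fun t : ℝ => Complex.exp (-(Complex.I * ((t * u : ℝ) : ℂ))) * Psi u t) =
      fun t => ∑' n : ℤ, cf u n * Complex.exp (Complex.I * ((t * (y n - u) : ℝ) : ℂ)) :=
    funext (HH_eq u)
  rw [h1]
  have h2 : -Complex.I * Complex.exp (-(Complex.I * ((t * u : ℝ) : ℂ))) * ((t ^ 2 - 4 / π ^ 2 : ℝ) : ℂ) =
      ∑' n : ℤ, -Complex.I * (((sg n * w n : ℝ) : ℂ) * Complex.exp (Complex.I * ((t * (y n - u) : ℝ) : ℂ))) := by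
    rw [← (E_exp' ht).tsum_eq, ← tsum_mul_left]
    congr 1
    ext n
    have : Complex.exp (Complex.I * ((t * (y n - u) : ℝ) : ℂ)) =
        Complex.exp (-(Complex.I * ((t * u : ℝ) : ℂ))) * Complex.exp (Complex.I * ((t * y n : ℝ) : ℂ)) := by
      rw [← Complex.exp_add]
      congr 1
      push_cast
      ring
    rw [this]
    ring
  rw [h2]
  refine hasDerivAt_tsum (𝕜 := ℝ) (F := ℂ)
    (g := fun (n : ℤ) (t : ℝ) => cf u n * Complex.exp (Complex.I * ((t * (y n - u) : ℝ) : ℂ)))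
    (g' := fun (n : ℤ) (t : ℝ) => -Complex.I * (((sg n * w n : ℝ) : ℂ) * Complex.exp (Complex.I * ((t * (y n - u) : ℝ) : ℂ))))
    (u := w) (y₀ := (0:ℝ)) w_summable ?_ ?_ ?_ t
  · intro n s
    have h3 : HasDerivAt (fun s : ℝ => Complex.I * ((s * (y n - u) : ℝ) : ℂ)) (Complex.I * ((y n - u : ℝ) : ℂ)) s := by
      have h4 : HasDerivAt (fun s : ℝ => s * (y n - u)) (y n - u) s := by
        simpa using (hasDerivAt_id s).mul_const (y n - u)
      exact (h4.ofReal_comp).const_mul Complex.I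
    have h5 := ((Complex.hasDerivAt_exp _).comp s h3).const_mul (cf u n)
    refine h5.congr_deriv ?_
    by_cases hn : n = 0
    · subst hn
      rw [cf_zero, w_zero]
      simp
    · have h6 : u - y n ≠ 0 := sub_ne_zero.mpr (hu n hn)
      have h7 : cf u n * ((y n - u : ℝ) : ℂ) = -((sg n * w n : ℝ) : ℂ) := by
        rw [cf, ← Complex.ofReal_mul, ← Complex.ofReal_neg]
        congr 1
        field_simp
        ring
      linear_combination (Complex.I * Complex.exp (Complex.I * ((s * (y n - u) : ℝ) : ℂ))) * h7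
  · intro n s
    rw [norm_mul, norm_neg, Complex.norm_I, one_mul, norm_mul, norm_exp_I, mul_one, sgw_norm]
  · refine Summable.of_norm_bounded (cf_summable u) (fun n => ?_)
    rw [norm_mul, norm_exp_I, mul_one]

/-- the polynomial part -/
noncomputable def PP (u t : ℝ) : ℂ :=
  (t:ℂ) ^ 2 / u - 2 * Complex.I * t / u ^ 2 - 2 / u ^ 3 - 4 / (π ^ 2 * u)

lemma PP_hasDerivAt {u : ℝ} (hu : u ≠ 0) (t : ℝ) :
    HasDerivAt (fun t : ℝ => Complex.exp (-(Complex.I * ((t * u : ℝ) : ℂ))) * PP u t)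
      (-Complex.I * Complex.exp (-(Complex.I * ((t * u : ℝ) : ℂ))) * ((t ^ 2 - 4 / π ^ 2 : ℝ) : ℂ)) t := by
  have hid : HasDerivAt (fun t : ℝ => (t : ℂ)) 1 t := by
    simpa using (hasDerivAt_id t).ofReal_comp
  have h1 : HasDerivAt (fun s : ℝ => -(Complex.I * ((s * u : ℝ) : ℂ))) (-(Complex.I * (u : ℂ))) t := by
    have h4 : HasDerivAt (fun s : ℝ => s * u) u t := by
      simpa using (hasDerivAt_id t).mul_const u
    exact ((h4.ofReal_comp).const_mul Complex.I).neg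
  have h2 : HasDerivAt (fun s : ℝ => Complex.exp (-(Complex.I * ((s * u : ℝ) : ℂ))))
      (Complex.exp (-(Complex.I * ((t * u : ℝ) : ℂ))) * (-(Complex.I * (u : ℂ)))) t :=
    (Complex.hasDerivAt_exp _).comp t h1
  have h3 : HasDerivAt (fun t : ℝ => PP u t) (2 * (t:ℂ) / u - 2 * Complex.I / u ^ 2) t := by
    unfold PP
    have a1 := (hid.pow 2).div_const (u:ℂ)
    have a2 := (hid.const_mul (2 * Complex.I)).div_const ((u:ℂ) ^ 2)
    refine (((a1.sub a2).sub_const _).sub_const _).congr_deriv ?_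
    push_cast
    ring
  refine (h2.mul h3).congr_deriv ?_
  have hu' : (u:ℂ) ≠ 0 := by exact_mod_cast hu
  have hpi : (π:ℂ) ≠ 0 := by exact_mod_cast Real.pi_ne_zero
  unfold PP
  have hI := Complex.I_sq
  set X := Complex.exp (-(Complex.I * ((t * u : ℝ) : ℂ)))
  push_cast
  field_simp
  ring_nf
  rw [hI]
  ring

end Pool.Agent.Lib.MP_7ba380_an
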