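import Mathlib
import Pool.Agent.Lib.MP_7ba380_an.Series

open MeasureTheory Set Filter Topology
open scoped Real

namespace Pool.Agent.Lib.MP_7ba380_an

lemma Psi_cont (u : ℝ) : Continuous (Psi u) := by
  refine continuous_tsum (u := fun n => ‖cf u n‖) (fun n => by fun_prop) (cf_summable u) (fun n t => ?_)
  rw [norm_mul, norm_exp_I, mul_one]

lemma Psi_form {u : ℝ} (hu0 : u ≠ 0) (hu : ∀ n : ℤ, n ≠ 0 → u ≠ y n) :
    ∃ C : ℂ, ∀ t : ℝ, |t| ≤ 1 → Psi u t = C * Complex.exp (Complex.I * ((t * u : ℝ) : ℂ)) + PP u t := by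
  set D : ℝ → ℂ := fun t => Complex.exp (-(Complex.I * ((t * u : ℝ) : ℂ))) * Psi u t -
    Complex.exp (-(Complex.I * ((t * u : ℝ) : ℂ))) * PP u t with hD
  have hder : ∀ t : ℝ, |t| ≤ 1 → HasDerivAt D 0 t := by
    intro t ht
    have := (HH_hasDerivAt hu ht).sub (PP_hasDerivAt hu0 t)
    rw [sub_self] at this
    exact this
  have hconst : ∀ t ∈ Icc (-1:ℝ) 1, D t = D (-1) := by
    refine constant_of_has_deriv_right_zero ?_ ?_
    · intro t ht
      exact (hder t (abs_le.mpr ht)).continuousAt.continuousWithinAt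
    · intro t ht
      exact (hder t (abs_le.mpr ⟨ht.1, ht.2.le⟩)).hasDerivWithinAt
  refine ⟨D (-1), fun t ht => ?_⟩
  have h1 := hconst t (abs_le.mp ht)
  rw [← h1, hD]
  simp only
  have h2 : Complex.exp (-(Complex.I * ((t * u : ℝ) : ℂ))) * Complex.exp (Complex.I * ((t * u : ℝ) : ℂ)) = 1 := by
    rw [← Complex.exp_add, neg_add_cancel, Complex.exp_zero]
  linear_combination (-(Psi u t) + PP u t) * h2

lemma Lam_series {c : ℤ → ℂ} (hc : Summable fun n => ‖c n‖) (h0 : c 0 = 0) :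
    Lam (fun t => ∑' n : ℤ, c n * Complex.exp (Complex.I * ((t * y n : ℝ) : ℂ))) = 0 := by
  have key : HasSum (fun n : ℤ => ∫ p, lam p * (c n * Complex.exp (Complex.I * ((sv p * y n : ℝ) : ℂ))) ∂nu)
      (∫ p, lam p * (∑' n : ℤ, c n * Complex.exp (Complex.I * ((sv p * y n : ℝ) : ℂ))) ∂nu) := by
    refine hasSum_integral_of_dominated_convergence (fun (n : ℤ) _ => ‖c n‖) ?_ ?_ ?_ ?_ ?_
    · intro n
      have := lam_cont
      have := sv_cont
      exact Continuous.aestronglyMeasurable (by fun_prop)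
    · intro n
      refine Eventually.of_forall (fun p => ?_)
      rw [norm_mul, norm_mul, norm_exp_I, mul_one]
      have := lam_norm p
      nlinarith [norm_nonneg (c n), norm_nonneg (lam p)]
    · exact Eventually.of_forall (fun _ => hc)
    · exact integrable_const _
    · refine Eventually.of_forall (fun p => ?_)
      have hs : Summable (fun n : ℤ => c n * Complex.exp (Complex.I * ((sv p * y n : ℝ) : ℂ))) := by
        refine Summable.of_norm_bounded hc (fun n => ?_)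
        rw [norm_mul, norm_exp_I, mul_one]
      exact hs.hasSum.mul_left _
  have hz : ∀ n : ℤ, ∫ p, lam p * (c n * Complex.exp (Complex.I * ((sv p * y n : ℝ) : ℂ))) ∂nu = 0 := by
    intro n
    have h1 : Lam (fun t => c n * Complex.exp (Complex.I * ((t * y n : ℝ) : ℂ))) = c n * ((SS (y n) : ℝ) : ℂ) := by
      rw [Lam_const_mul, Lam_exp]
    by_cases hn : n = 0
    · subst hn
      simp [h0]
    · rw [SS_node hn, Complex.ofReal_zero, mul_zero] at h1
      exact h1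
  simp_rw [hz] at key
  exact key.unique hasSum_zero

lemma Lam_sq : Lam (fun t => (t : ℂ) ^ 2) = ((8 / π ^ 3 : ℝ) : ℂ) := by
  have h1 := Lam_series (c := fun n => ((sg n * w n : ℝ) : ℂ)) (by simp_rw [sgw_norm]; exact w_summable)
    (by simp [w_zero])
  have h2 : Lam (fun t => ∑' n : ℤ, ((sg n * w n : ℝ) : ℂ) * Complex.exp (Complex.I * ((t * y n : ℝ) : ℂ))) =
      Lam (fun t => (t : ℂ) ^ 2 + (-(4 / π ^ 2 : ℝ) : ℂ) * 1) := by
    refine Lam_congr (fun t ht => ?_)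
    rw [(E_exp' ht).tsum_eq]
    push_cast
    ring
  rw [h2, Lam_add (by fun_prop) (by fun_prop), Lam_const_mul, Lam_one] at h1
  have hpi : (π:ℂ) ≠ 0 := by exact_mod_cast Real.pi_ne_zero
  rw [eq_neg_of_add_eq_zero_left h1]
  push_cast
  field_simp
  ring

lemma Lam_PP (u : ℝ) (hu : u ≠ 0) : Lam (PP u) = -((4 / (π * u ^ 3) : ℝ) : ℂ) := by
  have h1 : PP u = fun t : ℝ => ((1 / u : ℝ) : ℂ) * (t : ℂ) ^ 2 +
      ((-(2 * Complex.I / u ^ 2)) * (t : ℂ) + (-(2 / u ^ 3 + 4 / (π ^ 2 * u) : ℝ) : ℂ) * 1) := by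
    ext t
    unfold PP
    push_cast
    ring
  rw [h1, Lam_add (by fun_prop) (by fun_prop), Lam_add (by fun_prop) (by fun_prop),
    Lam_const_mul, Lam_const_mul, Lam_const_mul, Lam_one, Lam_t, Lam_sq, mul_zero, zero_add]
  have hpi : (π:ℂ) ≠ 0 := by exact_mod_cast Real.pi_ne_zero
  have hu' : (u:ℂ) ≠ 0 := by exact_mod_cast hu
  push_cast
  field_simp
  ring

lemma Psi_eq {u : ℝ} (hu0 : u ≠ 0) (hu : ∀ n : ℤ, n ≠ 0 → u ≠ y n) {t : ℝ} (ht : |t| ≤ 1) :
    ((SS u : ℝ) : ℂ) * (Psi u t - PP u t) =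
      ((4 / (π * u ^ 3) : ℝ) : ℂ) * Complex.exp (Complex.I * ((t * u : ℝ) : ℂ)) := by
  obtain ⟨C, hC⟩ := Psi_form hu0 hu
  have h1 : Lam (Psi u) = 0 := Lam_series (cf_summable u) (cf_zero u)
  have h2 : Lam (Psi u) = Lam (fun t => C * Complex.exp (Complex.I * ((t * u : ℝ) : ℂ)) + PP u t) :=
    Lam_congr hC
  rw [h1, Lam_add (by fun_prop) (by unfold PP; fun_prop), Lam_const_mul, Lam_exp, Lam_PP u hu0] at h2
  rw [hC t ht]
  linear_combination (-Complex.exp (Complex.I * ((t * u : ℝ) : ℂ))) * h2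

/-- interpolation coefficients -/
noncomputable def cc (u : ℝ) (n : ℤ) : ℂ :=
  ((π / 4 * u ^ 2 * SS u : ℝ) : ℂ) * (((u : ℝ) : ℂ) * cf u n - ((sg n * w n : ℝ) : ℂ))

lemma cc_zero (u : ℝ) : cc u 0 = 0 := by simp [cc, cf_zero, w_zero]

lemma cc_summable (u : ℝ) : Summable (fun n => ‖cc u n‖) := by
  unfold cc
  simp_rw [norm_mul]
  refine Summable.mul_left _ ?_
  refine Summable.of_nonneg_of_le (fun n => norm_nonneg _) (fun n => norm_sub_le _ _) ?_
  refine Summable.add ?_ ?_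
  · simp_rw [norm_mul]
    exact (cf_summable u).mul_left _
  · simp_rw [sgw_norm]
    exact w_summable

/-- interpolation of exponentials -/
theorem interp {u : ℝ} (hu0 : u ≠ 0) (hu : ∀ n : ℤ, n ≠ 0 → u ≠ y n) {t : ℝ} (ht : |t| ≤ 1) :
    HasSum (fun n : ℤ => cc u n * Complex.exp (Complex.I * ((t * y n : ℝ) : ℂ)))
      (Complex.exp (Complex.I * ((t * u : ℝ) : ℂ)) - ((π / 2 * SS u : ℝ) : ℂ) * (1 + Complex.I * t * u)) := by
  have h1 := ((Psi_hasSum u t).mul_left ((u : ℝ) : ℂ)).sub (E_exp' ht)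
  have h2 := h1.mul_left ((π / 4 * u ^ 2 * SS u : ℝ) : ℂ)
  have h3 := Psi_eq hu0 hu ht
  have hpi : (π:ℂ) ≠ 0 := by exact_mod_cast Real.pi_ne_zero
  have hu' : (u:ℂ) ≠ 0 := by exact_mod_cast hu0
  have e : (Complex.exp (Complex.I * ((t * u : ℝ) : ℂ)) - ((π / 2 * SS u : ℝ) : ℂ) * (1 + Complex.I * t * u)) =
      ((π / 4 * u ^ 2 * SS u : ℝ) : ℂ) * (((u : ℝ) : ℂ) * Psi u t - ((t ^ 2 - 4 / π ^ 2 : ℝ) : ℂ)) := by
    have h4 : ((π / 4 * u ^ 3 : ℝ) : ℂ) * ((SS u : ℝ) : ℂ) * Psi u t =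
      Complex.exp (Complex.I * ((t * u : ℝ) : ℂ)) + ((π / 4 * u ^ 3 : ℝ) : ℂ) * ((SS u : ℝ) : ℂ) * PP u t := by
      have h5 : ((π / 4 * u ^ 3 : ℝ) : ℂ) * ((4 / (π * u ^ 3) : ℝ) : ℂ) = 1 := by
        rw [← Complex.ofReal_mul]
        have : π / 4 * u ^ 3 * (4 / (π * u ^ 3)) = 1 := by
          have := Real.pi_ne_zero
          field_simp
        rw [this]; simp
      linear_combination ((π / 4 * u ^ 3 : ℝ) : ℂ) * h3 + (Complex.exp (Complex.I * ((t * u : ℝ) : ℂ))) * h5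
    have h6 : ((π / 4 * u ^ 3 : ℝ) : ℂ) * ((SS u : ℝ) : ℂ) * PP u t = ((SS u : ℝ) : ℂ) *
        ((π / 4 * u ^ 2 : ℝ) : ℂ) * ((t ^ 2 - 4 / π ^ 2 : ℝ) : ℂ) - ((π / 2 * SS u : ℝ) : ℂ) * (1 + Complex.I * t * u) := by
      unfold PP
      push_cast
      field_simp
      ring
    rw [h6] at h4
    push_cast at h4 ⊢
    linear_combination -h4
  rw [e]
  refine h2.congr_fun (fun n => ?_)
  unfold cc
  ring

end Pool.Agent.Lib.MP_7ba380_an
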