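import Mathlib
import Pool.Agent.Lib.MP_7ba380_an.Interpolation

open MeasureTheory Set Filter Topology
open scoped Real

namespace Pool.Agent.Lib.MP_7ba380_an

lemma node_sq_gt_one {n : ℤ} (hn : n ≠ 0) : 1 < y n ^ 2 := by
  rw [y_sq hn]
  have h1 : (1:ℝ) ≤ (n:ℝ) ^ 2 := by
    have : (1:ℤ) ≤ n ^ 2 := by
      have := sq_pos_of_ne_zero hn
      omega
    exact_mod_cast this
  have h2 := Real.pi_gt_three
  have h3 : 9 < π ^ 2 := by nlinarith
  nlinarith

lemma SS_one_ne : SS 1 ≠ 0 := by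
  have h0 := rho_pos 1
  have h1 : Real.sqrt ((1:ℝ) ^ 2 + (π / 2) ^ 2) < π := by
    rw [Real.sqrt_lt' Real.pi_pos]
    have h2 := Real.pi_gt_three
    nlinarith
  exact (div_pos (Real.sin_pos_of_pos_of_lt_pi h0 h1) h0).ne'

/-- a function of `B(K₂)` that vanishes at the nodes on a line has a restriction in a two-dimensional
space -/
theorem trace_zero {d : Plane → ℂ} (hd : InB d) {e : Plane} (he : ‖e‖ = 1)
    (hn : ∀ n : ℤ, n ≠ 0 → d (y n • e) = 0) :
    ∃ p q : ℂ, ∀ u : ℝ, d (u • e) = (p + q * u) * ((SS u : ℝ) : ℂ) := by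
  have hS1 : ((SS 1 : ℝ) : ℂ) ≠ 0 := by exact_mod_cast SS_one_ne
  refine ⟨((π / 2 : ℝ) : ℂ) * d 0, d ((1:ℝ) • e) / ((SS 1 : ℝ) : ℂ) - ((π / 2 : ℝ) : ℂ) * d 0, fun u => ?_⟩
  by_cases hu0 : u = 0
  · subst hu0
    rw [zero_smul, SS_zero]
    have hpi : (π:ℂ) ≠ 0 := by exact_mod_cast Real.pi_ne_zero
    push_cast
    field_simp
    ring
  by_cases hun : ∃ n : ℤ, n ≠ 0 ∧ u = y n
  · obtain ⟨n, hn0, rfl⟩ := hun
    rw [hn n hn0, SS_node hn0]
    simp
  have hu : ∀ n : ℤ, n ≠ 0 → u ≠ y n := fun n hn0 h => hun ⟨n, hn0, h⟩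
  have h1n : ∀ n : ℤ, n ≠ 0 → (1:ℝ) ≠ y n := by
    intro n hn0 h
    have := node_sq_gt_one hn0
    rw [← h] at this
    norm_num at this
  have key := hd.transfer he (c := fun n => ((SS 1 : ℝ) : ℂ) * cc u n - ((u * SS u : ℝ) : ℂ) * cc 1 n)
    (z := y) (a := ![((SS 1 : ℝ) : ℂ), -((u * SS u : ℝ) : ℂ), -((π / 2 * SS u * SS 1 * (1 - u) : ℝ) : ℂ)])
    (x := ![u, 1, 0]) ?_ ?_
  · have hz : ∀ n : ℤ, (((SS 1 : ℝ) : ℂ) * cc u n - ((u * SS u : ℝ) : ℂ) * cc 1 n) * d (y n • e) = 0 := by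
      intro n
      by_cases hn0 : n = 0
      · subst hn0
        rw [cc_zero, cc_zero]; simp
      · rw [hn n hn0, mul_zero]
    simp_rw [hz] at key
    have h2 := key.unique hasSum_zero
    rw [Fin.sum_univ_three] at h2
    simp only [Matrix.cons_val_zero, Matrix.cons_val_one, Matrix.cons_val_two, Matrix.head_cons, Matrix.tail_cons] at h2
    rw [zero_smul] at h2
    have h3 : ((SS 1 : ℝ) : ℂ) * d (u • e) = ((SS u : ℝ) : ℂ) * ((u : ℂ) * d ((1:ℝ) • e) +
        ((π / 2 : ℝ) : ℂ) * ((SS 1 : ℝ) : ℂ) * (1 - u) * d 0) := by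
      push_cast at h2 ⊢
      linear_combination h2
    have h4 : d (u • e) = ((SS u : ℝ) : ℂ) * ((u : ℂ) * d ((1:ℝ) • e) +
        ((π / 2 : ℝ) : ℂ) * ((SS 1 : ℝ) : ℂ) * (1 - u) * d 0) / ((SS 1 : ℝ) : ℂ) := by
      rw [eq_div_iff hS1, ← h3]; ring
    rw [h4]
    field_simp
    ring
  · refine Summable.of_nonneg_of_le (fun n => norm_nonneg _) (fun n => norm_sub_le _ _) ?_
    simp_rw [norm_mul]
    exact ((cc_summable u).mul_left _).add ((cc_summable 1).mul_left _)
  · intro t ht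
    have a1 := (interp hu0 hu ht).mul_left ((SS 1 : ℝ) : ℂ)
    have a2 := (interp one_ne_zero h1n ht).mul_left ((u * SS u : ℝ) : ℂ)
    have a3 := a1.sub a2
    have e3 : ∑ j, (![((SS 1 : ℝ) : ℂ), -((u * SS u : ℝ) : ℂ), -((π / 2 * SS u * SS 1 * (1 - u) : ℝ) : ℂ)]) j *
        Complex.exp (Complex.I * ((t * (![u, 1, 0] : Fin 3 → ℝ) j : ℝ) : ℂ)) =
        ((SS 1 : ℝ) : ℂ) * (Complex.exp (Complex.I * ((t * u : ℝ) : ℂ)) - ((π / 2 * SS u : ℝ) : ℂ) * (1 + Complex.I * t * u)) -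
        ((u * SS u : ℝ) : ℂ) * (Complex.exp (Complex.I * ((t * 1 : ℝ) : ℂ)) - ((π / 2 * SS 1 : ℝ) : ℂ) * (1 + Complex.I * t * (1:ℝ))) := by
      rw [Fin.sum_univ_three]
      simp only [Matrix.cons_val_zero, Matrix.cons_val_one, Matrix.cons_val_two, Matrix.head_cons, Matrix.tail_cons]
      rw [mul_zero, Complex.ofReal_zero, mul_zero, Complex.exp_zero]
      push_cast
      ring
    rw [e3]
    refine a3.congr_fun (fun n => ?_)
    ring

/-- values of `f0` on the diagonals -/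
lemma g0_eu (u : ℝ) : g0 (u • eu) = - Real.cos (Real.sqrt (u ^ 2 + (π / 2) ^ 2)) := by
  have h1 : ∀ c : ℝ, ‖u • eu - c • ev‖ = Real.sqrt (u ^ 2 + c ^ 2) := by
    intro c
    rw [← Real.sqrt_sq (norm_nonneg (u • eu - c • ev))]
    congr 1
    rw [norm_sub_ev_sq, norm_smul, norm_eu, inner_smul_right, real_inner_comm, inner_eu_ev, mul_one,
        Real.norm_eq_abs, sq_abs]
    ring
  rw [g0, h1, h1, ← sub_smul, ← sub_smul, norm_smul, norm_smul, norm_eu, mul_one, mul_one,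
    Real.norm_eq_abs, Real.norm_eq_abs, Real.cos_abs, Real.cos_abs, Real.cos_sub_pi_div_two,
    sub_neg_eq_add, Real.cos_add_pi_div_two, neg_sq]
  ring

lemma g0_ev (u : ℝ) : g0 (u • ev) = Real.cos (Real.sqrt (u ^ 2 + (π / 2) ^ 2)) := by
  have hie : (inner ℝ ev eu : ℝ) = 0 := by rw [real_inner_comm]; exact inner_eu_ev
  have h1 : ∀ c : ℝ, ‖u • ev - c • eu‖ = Real.sqrt (u ^ 2 + c ^ 2) := by
    intro c
    rw [← Real.sqrt_sq (norm_nonneg (u • ev - c • eu))]
    congr 1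
    rw [norm_sub_eu_sq, norm_smul, norm_ev, inner_smul_right, real_inner_comm, hie, mul_one,
        Real.norm_eq_abs, sq_abs]
    ring
  rw [g0, h1, h1, ← sub_smul, ← sub_smul, norm_smul, norm_smul, norm_ev, mul_one, mul_one,
    Real.norm_eq_abs, Real.norm_eq_abs, Real.cos_abs, Real.cos_abs, Real.cos_sub_pi_div_two,
    sub_neg_eq_add, Real.cos_add_pi_div_two, neg_sq]
  ring

lemma sqrt_hasDerivAt (u : ℝ) : HasDerivAt (fun u : ℝ => Real.sqrt (u ^ 2 + (π / 2) ^ 2))
    (u / Real.sqrt (u ^ 2 + (π / 2) ^ 2)) u := by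
  have h1 : HasDerivAt (fun u : ℝ => u ^ 2 + (π / 2) ^ 2) (2 * u) u := by
    simpa using (hasDerivAt_pow 2 u).add_const ((π / 2) ^ 2)
  have h2 := h1.sqrt (by positivity)
  refine h2.congr_deriv ?_
  have := rho_pos u
  field_simp

/-- a real function `σ cos ρ + (a + c u) sin ρ / ρ` bounded by one has `a = c = 0` -/
lemma coeffs_zero {σ a c : ℝ} (hσ : σ = 1 ∨ σ = -1)
    (h : ∀ u : ℝ, |σ * Real.cos (Real.sqrt (u ^ 2 + (π / 2) ^ 2)) + (a + c * u) * SS u| ≤ 1) :
    a = 0 ∧ c = 0 := by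
  have hσ2 : σ * σ = 1 := by rcases hσ with h | h <;> rw [h] <;> norm_num
  have key : ∀ n : ℤ, n ≠ 0 → a + c * y n = 0 := by
    intro n hn
    set F : ℝ → ℝ := fun u => σ * Real.cos (Real.sqrt (u ^ 2 + (π / 2) ^ 2)) + (a + c * u) * SS u with hF
    set R : ℝ := Real.sqrt (y n ^ 2 + (π / 2) ^ 2) with hR
    have hRpos : 0 < R := rho_pos (y n)
    have hRn : R = π * |(n:ℝ)| := sqrt_node hn
    have hsin : Real.sin R = 0 := by
      have := SS_node hn
      rw [SS, ← hR, div_eq_zero_iff] at this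
      rcases this with h | h
      · exact h
      · exact absurd h hRpos.ne'
    have hcos : Real.cos R = sg n := by rw [hRn]; exact cos_int_pi n
    have hder : HasDerivAt F ((a + c * y n) * (sg n * y n / R ^ 2)) (y n) := by
      have d1 := sqrt_hasDerivAt (y n)
      rw [← hR] at d1
      have d2 : HasDerivAt (fun u : ℝ => σ * Real.cos (Real.sqrt (u ^ 2 + (π / 2) ^ 2)))
          (σ * (-Real.sin R * (y n / R))) (y n) := (d1.cos).const_mul σ
      have d3 : HasDerivAt SS ((Real.cos R * (y n / R) * R - Real.sin R * (y n / R)) / R ^ 2) (y n) :=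
        (d1.sin).div d1 hRpos.ne'
      have d4 : HasDerivAt (fun u : ℝ => a + c * u) c (y n) := by
        simpa using ((hasDerivAt_id (y n)).const_mul c).const_add a
      have d5 := d2.add (d4.mul d3)
      refine d5.congr_deriv ?_
      rw [SS_node hn, hsin, hcos]
      field_simp
      ring
    have hmax : IsLocalMax (fun u => (σ * sg n) * F u) (y n) := by
      refine Filter.Eventually.of_forall (fun u => ?_)
      simp only
      have e1 : (σ * sg n) * F (y n) = 1 := by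
        rw [hF]
        simp only
        rw [← hR, hcos, SS_node hn]
        have := sg_sq n
        linear_combination hσ2 + (σ * σ) * this
      rw [e1]
      have e2 : |σ * sg n| = 1 := by
        rw [abs_mul, abs_sg, mul_one]
        rcases hσ with h | h <;> rw [h] <;> norm_num
      calc (σ * sg n) * F u ≤ |(σ * sg n) * F u| := le_abs_self _
        _ = |F u| := by rw [abs_mul, e2, one_mul]
        _ ≤ 1 := h u
    have h0 := hmax.hasDerivAt_eq_zero (hder.const_mul (σ * sg n))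
    have hyn := y_ne_zero hn
    have hsg : sg n ≠ 0 := by
      intro h
      have := sg_sq n
      rw [h] at this
      norm_num at this
    have hσ0 : σ ≠ 0 := by
      intro h
      rw [h] at hσ2
      norm_num at hσ2
    have h3 : (σ * sg n) * (sg n * y n / R ^ 2) ≠ 0 := by positivity
    have h4 : ((σ * sg n) * (sg n * y n / R ^ 2)) * (a + c * y n) = 0 := by linear_combination h0
    rcases mul_eq_zero.mp h4 with h | h
    · exact absurd h h3
    · exact h
  have k1 := key 1 (by norm_num)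
  have k2 := key (-1) (by norm_num)
  rw [y_neg] at k2
  have ha : a = 0 := by linarith
  refine ⟨ha, ?_⟩
  rw [ha, zero_add] at k1
  rcases mul_eq_zero.mp k1 with h | h
  · exact h
  · exact absurd h (y_ne_zero (by norm_num))

end Pool.Agent.Lib.MP_7ba380_an
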