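import Mathlib
import Pool.Agent.Lib.MP_7ba380_an.Traces
import Pool.Agent.Lib.MP_7ba380_an.NormValue

open MeasureTheory Set Filter Topology
open scoped Real

namespace Pool.Agent.Lib.MP_7ba380_an

lemma normT_eq : normT = 2 / π := norm_value.csSup_eq

lemma node_eq (n : ℤ) (hn : n ≠ 0) : y n = (n.sign : ℝ) * node n.natAbs := by
  have h : ((n.natAbs : ℕ) : ℝ) ^ 2 = (n:ℝ) ^ 2 := by
    rw [Nat.cast_natAbs]
    push_cast
    exact sq_abs _
  rw [y, node, h]

lemma sg_natAbs (n : ℤ) : sg n = (-1) ^ n.natAbs := by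
  rcases Int.natAbs_eq n with h | h
  · conv_lhs => rw [h]
    rw [sg, zpow_natCast]
  · conv_lhs => rw [h]
    rw [sg_neg, sg, zpow_natCast]

/-- extremal functions take the values `±1` at the nodes -/
lemma nodes_of_extremal {f : Plane → ℂ} (hf : InB f) (h1 : ∀ x, ‖f x‖ ≤ 1)
    (hT : T f 0 = ((2 / π : ℝ) : ℂ)) (n : ℤ) (hn : n ≠ 0) :
    f (y n • eu) = ((-sg n : ℝ) : ℂ) ∧ f (y n • ev) = ((sg n : ℝ) : ℂ) := by
  have hq := hf.quad 0
  rw [hT] at hq
  have hre := Complex.hasSum_re hq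
  have hre2 : HasSum (fun n : ℤ => 1 / 2 * (sg n * w n) * ((f (y n • ev)).re - (f (y n • eu)).re)) (2 / π) := by
    have e : (((2 / π : ℝ) : ℂ)).re = 2 / π := Complex.ofReal_re _
    rw [e] at hre
    refine hre.congr_fun (fun n => ?_)
    rw [zero_add, zero_add, Complex.re_ofReal_mul, Complex.sub_re]
  have hdiff := w_total.sub hre2
  rw [sub_self] at hdiff
  have hnon : ∀ n : ℤ, 0 ≤ w n - 1 / 2 * (sg n * w n) * ((f (y n • ev)).re - (f (y n • eu)).re) := by
    intro n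
    have b1 : |(f (y n • ev)).re| ≤ 1 := (Complex.abs_re_le_norm _).trans (h1 _)
    have b2 : |(f (y n • eu)).re| ≤ 1 := (Complex.abs_re_le_norm _).trans (h1 _)
    have hw := w_nonneg n
    have b3 : |1 / 2 * (sg n * w n) * ((f (y n • ev)).re - (f (y n • eu)).re)| ≤ w n := by
      rw [abs_mul, abs_mul, abs_mul, abs_sg, one_mul, abs_of_nonneg hw]
      have b4 : |(f (y n • ev)).re - (f (y n • eu)).re| ≤ 2 := by
        refine (abs_sub _ _).trans ?_
        linarith
      rw [abs_of_pos (by norm_num : (0:ℝ) < 1 / 2)]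
      nlinarith
    have := (abs_le.mp b3).2
    linarith
  have hz := (hasSum_zero_iff_of_nonneg hnon).mp hdiff
  have hzn := congrFun hz n
  simp only [Pi.zero_apply] at hzn
  have hw := w_pos hn
  have b1 : |(f (y n • ev)).re| ≤ 1 := (Complex.abs_re_le_norm _).trans (h1 _)
  have b2 : |(f (y n • eu)).re| ≤ 1 := (Complex.abs_re_le_norm _).trans (h1 _)
  have hkey : sg n * ((f (y n • ev)).re - (f (y n • eu)).re) = 2 := by
    have : w n * (2 - sg n * ((f (y n • ev)).re - (f (y n • eu)).re)) = 0 := by linear_combination 2 * hzn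
    rcases mul_eq_zero.mp this with h | h
    · exact absurd h hw.ne'
    · linarith
  have hone : ∀ z : ℂ, ‖z‖ ≤ 1 → ∀ s : ℝ, s * s = 1 → z.re = s → z = ((s : ℝ) : ℂ) := by
    intro z hz s hs hre
    have h5 : z.re * z.re + z.im * z.im ≤ 1 := by
      have := Complex.normSq_eq_norm_sq z
      rw [Complex.normSq_apply] at this
      rw [this]
      nlinarith [norm_nonneg z]
    rw [hre, hs] at h5
    have him : z.im = 0 := by
      have : z.im * z.im ≤ 0 := by linarith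
      nlinarith [mul_self_nonneg z.im, mul_self_eq_zero.mp (le_antisymm this (mul_self_nonneg _))]
    refine Complex.ext ?_ ?_
    · rw [hre, Complex.ofReal_re]
    · rw [him, Complex.ofReal_im]
  have hs := sg_sq n
  have hsg : sg n = 1 ∨ sg n = -1 := by
    have : (sg n - 1) * (sg n + 1) = 0 := by linear_combination hs
    rcases mul_eq_zero.mp this with h | h
    · left; linarith
    · right; linarith
  rw [abs_le] at b1 b2
  constructor
  · refine hone _ (h1 _) _ (by linear_combination hs) ?_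
    rcases hsg with h | h
    · rw [h] at hkey ⊢; linarith
    · rw [h] at hkey ⊢; linarith
  · refine hone _ (h1 _) _ hs ?_
    rcases hsg with h | h
    · rw [h] at hkey ⊢; linarith
    · rw [h] at hkey ⊢; linarith

lemma rad_eq (u : ℝ) : rad u = Real.sqrt (u ^ 2 + (π / 2) ^ 2) := rfl

/-- the zeros of `sin ρ` -/
lemma sin_rad_zero {u : ℝ} (h : Real.sin (rad u) = 0) : u ∈ range y := by
  have hpos := rho_pos u
  rw [← rad_eq] at hpos
  obtain ⟨n, hn⟩ := Real.sin_eq_zero_iff.mp h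
  have hn0 : n ≠ 0 := by
    rintro rfl
    simp at hn
    rw [← hn] at hpos
    exact lt_irrefl _ hpos
  have hsq : rad u ^ 2 = u ^ 2 + (π / 2) ^ 2 := by
    rw [rad_eq, Real.sq_sqrt (by positivity)]
  have h2 : u ^ 2 = y n ^ 2 := by
    rw [y_sq hn0]
    rw [← hn] at hsq
    linear_combination -hsq
  rcases sq_eq_sq_iff_eq_or_eq_neg.mp h2 with h | h
  · exact ⟨n, h.symm⟩
  · exact ⟨-n, by rw [y_neg, h]⟩

lemma param_bound {σ a β : ℝ} (hσ : σ = 1 ∨ σ = -1)
    (h : ∀ u : ℝ, ‖((σ * Real.cos (rad u) : ℝ) : ℂ) + Complex.I * (((a * (π / 2) + β * u) * SS u : ℝ) : ℂ)‖ ≤ 1) :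
    a ^ 2 + β ^ 2 ≤ 1 := by
  have hσ2 : σ ^ 2 = 1 := by rcases hσ with h | h <;> rw [h] <;> norm_num
  have hdense : Dense {u : ℝ | Real.sin (rad u) ≠ 0} := by
    have h1 : (range y).Countable := countable_range y
    refine (h1.dense_compl ℝ).mono ?_
    intro u hu hs
    exact hu (sin_rad_zero hs)
  have hclosed : IsClosed {u : ℝ | (a * (π / 2) + β * u) ^ 2 ≤ u ^ 2 + (π / 2) ^ 2} :=
    isClosed_le (by fun_prop) (by fun_prop)
  have hsub : {u : ℝ | Real.sin (rad u) ≠ 0} ⊆ {u : ℝ | (a * (π / 2) + β * u) ^ 2 ≤ u ^ 2 + (π / 2) ^ 2} := by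
    intro u hu
    have hr : rad u ^ 2 = u ^ 2 + (π / 2) ^ 2 := by
      rw [rad_eq, Real.sq_sqrt (by positivity)]
    have hrpos : 0 < rad u := rho_pos u
    have h2 := h u
    set X : ℝ := σ * Real.cos (rad u) with hX
    set Y : ℝ := (a * (π / 2) + β * u) * SS u with hY
    have h3 : X ^ 2 + Y ^ 2 ≤ 1 := by
      have e1 : ‖((X : ℝ) : ℂ) + Complex.I * ((Y : ℝ) : ℂ)‖ ^ 2 = X ^ 2 + Y ^ 2 := by
        rw [← Complex.normSq_eq_norm_sq, Complex.normSq_apply]
        simp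
        ring
      rw [← e1]
      nlinarith [norm_nonneg (((X : ℝ) : ℂ) + Complex.I * ((Y : ℝ) : ℂ))]
    have h4 : Y ^ 2 * rad u ^ 2 = (a * (π / 2) + β * u) ^ 2 * Real.sin (rad u) ^ 2 := by
      rw [hY, SS, ← rad_eq]
      field_simp
    have h5 : X ^ 2 = 1 - Real.sin (rad u) ^ 2 := by
      rw [hX, mul_pow, hσ2, Real.sin_sq]; ring
    have hu' : Real.sin (rad u) ≠ 0 := hu
    have h6 : 0 < Real.sin (rad u) ^ 2 := by positivity
    show (a * (π / 2) + β * u) ^ 2 ≤ u ^ 2 + (π / 2) ^ 2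
    rw [← hr]
    have h7 : (a * (π / 2) + β * u) ^ 2 * Real.sin (rad u) ^ 2 ≤ rad u ^ 2 * Real.sin (rad u) ^ 2 := by
      rw [← h4]
      have : Y ^ 2 ≤ Real.sin (rad u) ^ 2 := by linarith
      nlinarith [sq_nonneg (rad u)]
    exact le_of_mul_le_mul_right h7 h6
  have hall : ∀ u : ℝ, (a * (π / 2) + β * u) ^ 2 ≤ u ^ 2 + (π / 2) ^ 2 := by
    intro u
    have := (hclosed.closure_subset_iff.mpr hsub) (hdense u)
    exact this
  have hdisc := discrim_le_zero (a := 1 - β ^ 2) (b := -(2 * (a * (π / 2)) * β))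
    (c := (π / 2) ^ 2 - (a * (π / 2)) ^ 2) (fun u => by nlinarith [hall u])
  rw [discrim] at hdisc
  have hpi : 0 < (π / 2) ^ 2 := by positivity
  have h8 : (π / 2) ^ 2 * (a ^ 2 + β ^ 2) ≤ (π / 2) ^ 2 * 1 := by nlinarith
  exact le_of_mul_le_mul_left h8 hpi

end Pool.Agent.Lib.MP_7ba380_an
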