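import Mathlib
import Pool.Agent.Lib.MP_7ba380_an.Equality

open MeasureTheory Set Filter Topology
open scoped Real

namespace Pool.Agent.Lib.MP_7ba380_an

lemma SS_eq (u : ℝ) : SS u = Real.sin (rad u) / rad u := rfl

lemma rad_zero : rad 0 = π / 2 := by
  have hp := Real.pi_pos
  rw [rad_eq, show (0:ℝ) ^ 2 + (π / 2) ^ 2 = (π / 2) ^ 2 by ring, Real.sqrt_sq (by positivity)]

/-- the form of an extremal on a line -/
lemma line_form {f : Plane → ℂ} (hf : InB f) (h1 : ∀ x, ‖f x‖ ≤ 1) {e : Plane} (he : ‖e‖ = 1)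
    {σ : ℝ} (hσ : σ = 1 ∨ σ = -1) (h0 : ∀ u : ℝ, f0 (u • e) = ((σ * Real.cos (rad u) : ℝ) : ℂ))
    (hn : ∀ n : ℤ, n ≠ 0 → f (y n • e) = f0 (y n • e)) :
    ∃ a β : ℝ, a ^ 2 + β ^ 2 ≤ 1 ∧ ∀ u : ℝ, f (u • e) = ((σ * Real.cos (rad u) : ℝ) : ℂ) +
      Complex.I * (((a * (π / 2) + β * u) * SS u : ℝ) : ℂ) := by
  obtain ⟨p, q, hpq⟩ := trace_zero (hf.sub InB_f0) he (fun n hn0 => by rw [hn n hn0, sub_self])
  have hform : ∀ u : ℝ, f (u • e) = ((σ * Real.cos (rad u) : ℝ) : ℂ) + (p + q * u) * ((SS u : ℝ) : ℂ) := by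
    intro u
    have := hpq u
    rw [h0] at this
    linear_combination this
  have hre : ∀ u : ℝ, |σ * Real.cos (Real.sqrt (u ^ 2 + (π / 2) ^ 2)) + (p.re + q.re * u) * SS u| ≤ 1 := by
    intro u
    have h2 : (f (u • e)).re = σ * Real.cos (rad u) + (p.re + q.re * u) * SS u := by
      rw [hform u, Complex.add_re, Complex.ofReal_re, Complex.mul_re, Complex.ofReal_re, Complex.ofReal_im,
        Complex.add_re, Complex.mul_re, Complex.ofReal_re, Complex.ofReal_im]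
      ring
    rw [← rad_eq, ← h2]
    exact (Complex.abs_re_le_norm _).trans (h1 _)
  obtain ⟨hp, hq⟩ := coeffs_zero hσ hre
  have hp' : p = Complex.I * (p.im : ℂ) := by
    refine Complex.ext ?_ ?_ <;> simp [hp]
  have hq' : q = Complex.I * (q.im : ℂ) := by
    refine Complex.ext ?_ ?_ <;> simp [hq]
  have hfin : ∀ u : ℝ, f (u • e) = ((σ * Real.cos (rad u) : ℝ) : ℂ) +
      Complex.I * ((((p.im / (π / 2)) * (π / 2) + q.im * u) * SS u : ℝ) : ℂ) := by
    intro u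
    rw [hform u, div_mul_cancel₀ _ (by positivity : (π / 2) ≠ 0)]
    conv_lhs => rw [hp', hq']
    push_cast
    ring
  refine ⟨p.im / (π / 2), q.im, ?_, hfin⟩
  refine param_bound hσ (fun u => ?_)
  rw [← hfin u]
  exact h1 _

lemma f0_eu (u : ℝ) : f0 (u • eu) = ((-1 * Real.cos (rad u) : ℝ) : ℂ) := by
  rw [f0, g0_eu, rad_eq]; congr 1; ring

lemma f0_ev (u : ℝ) : f0 (u • ev) = ((1 * Real.cos (rad u) : ℝ) : ℂ) := by
  rw [f0, g0_ev, rad_eq]; congr 1; ring

theorem diagonal_of_extremal {f : Plane → ℂ} (hf : InB f) (h1 : ∀ x, ‖f x‖ ≤ 1)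
    (hT : T f 0 = ((2 / π : ℝ) : ℂ)) : DiagonalConditions f := by
  have hnodes := nodes_of_extremal hf h1 hT
  obtain ⟨a, β, hab, hu⟩ := line_form hf h1 norm_eu (Or.inr rfl) f0_eu (fun n hn => by
    rw [(hnodes n hn).1, f0, g0_node_eu hn])
  obtain ⟨a', γ, hac, hv⟩ := line_form hf h1 norm_ev (Or.inl rfl) f0_ev (fun n hn => by
    rw [(hnodes n hn).2, f0, g0_node_ev hn])
  have haa : a = a' := by
    have e1 := hu 0
    have e2 := hv 0
    rw [zero_smul] at e1 e2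
    rw [e1, rad_zero, Real.cos_pi_div_two, SS_zero] at e2
    have e3 : Complex.I * ((((a * (π / 2) + β * 0) * (2 / π) : ℝ) : ℂ)) =
        Complex.I * ((((a' * (π / 2) + γ * 0) * (2 / π) : ℝ) : ℂ)) := by
      simpa using e2
    have e4 := mul_left_cancel₀ Complex.I_ne_zero e3
    have e5 : (a * (π / 2) + β * 0) * (2 / π) = (a' * (π / 2) + γ * 0) * (2 / π) := by
      exact_mod_cast e4
    have hpi := Real.pi_ne_zero
    have key : ∀ z b : ℝ, (z * (π / 2) + b * 0) * (2 / π) = z := by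
      intro z b
      field_simp
      ring
    rw [key, key] at e5
    exact e5
  subst haa
  refine ⟨a, β, γ, hab, hac, fun u => ?_, fun v => ?_⟩
  · rw [hu u, SS_eq]
    push_cast
    ring
  · rw [hv v, SS_eq]
    push_cast
    ring

lemma node_eq_y {k : ℕ} (hk : 1 ≤ k) : node k = y (k : ℤ) := by
  have hn : (k : ℤ) ≠ 0 := by omega
  rw [node_eq k hn, Int.sign_natCast_of_ne_zero (by omega), Int.natAbs_natCast]
  simp

lemma sg_nat (k : ℕ) : sg (k : ℤ) = (-1) ^ k := by rw [sg, zpow_natCast]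

theorem node_of_diagonal {f : Plane → ℂ} (h : DiagonalConditions f) : NodeConditions f := by
  obtain ⟨a, β, γ, -, -, hu, hv⟩ := h
  intro k hk
  have hn : (k : ℤ) ≠ 0 := by omega
  have hn' : (-(k : ℤ)) ≠ 0 := by omega
  have hcos : Real.cos (rad (y (k : ℤ))) = (-1) ^ k := by
    rw [rad_eq, sqrt_node hn, cos_int_pi, sg_nat]
  have hcos' : Real.cos (rad (-(y (k : ℤ)))) = (-1) ^ k := by
    rw [rad_eq, neg_sq, ← rad_eq, hcos]
  have hS : Real.sin (rad (y (k : ℤ))) / rad (y (k : ℤ)) = 0 := SS_node hn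
  have hS' : Real.sin (rad (-(y (k : ℤ)))) / rad (-(y (k : ℤ))) = 0 := by
    rw [← SS_eq, SS_neg]; exact SS_node hn
  rw [node_eq_y hk]
  refine ⟨?_, ?_, ?_, ?_⟩
  · rw [hu, hcos, hS, mul_zero, pow_succ]; push_cast; ring
  · rw [← neg_smul, hu, hcos', hS', mul_zero, pow_succ]; push_cast; ring
  · rw [hv, hcos, hS, mul_zero]; push_cast; ring
  · rw [← neg_smul, hv, hcos', hS', mul_zero]; push_cast; ring

theorem extremal_of_node {f : Plane → ℂ} (hf : InB f) (h : NodeConditions f) :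
    T f 0 = ((2 / π : ℝ) : ℂ) := by
  refine T_zero_of_nodes hf ?_ ?_
  · intro n hn
    have hk : 1 ≤ n.natAbs := by omega
    obtain ⟨k1, k2, -, -⟩ := h n.natAbs hk
    have hs : ((-sg n : ℝ) : ℂ) = (-1) ^ (n.natAbs + 1) := by
      rw [sg_natAbs, pow_succ]; push_cast; ring
    rw [hs, node_eq n hn]
    rcases lt_or_gt_of_ne hn with h' | h'
    · rw [Int.sign_eq_neg_one_of_neg h']
      push_cast
      rw [neg_one_mul, neg_smul]
      exact k2
    · rw [Int.sign_eq_one_of_pos h']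
      push_cast
      rw [one_mul]
      exact k1
  · intro n hn
    have hk : 1 ≤ n.natAbs := by omega
    obtain ⟨-, -, k1, k2⟩ := h n.natAbs hk
    have hs : ((sg n : ℝ) : ℂ) = (-1) ^ (n.natAbs) := by
      rw [sg_natAbs]; push_cast; ring
    rw [hs, node_eq n hn]
    rcases lt_or_gt_of_ne hn with h' | h'
    · rw [Int.sign_eq_neg_one_of_neg h']
      push_cast
      rw [neg_one_mul, neg_smul]
      exact k2
    · rw [Int.sign_eq_one_of_pos h']
      push_cast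
      rw [one_mul]
      exact k1

theorem extremal_iff_node (f : Plane → ℂ) :
    IsNormalExtremal f ↔ InB f ∧ (∀ x, ‖f x‖ ≤ 1) ∧ NodeConditions f := by
  unfold IsNormalExtremal
  rw [normT_eq]
  constructor
  · rintro ⟨h1, h2, h3⟩
    exact ⟨h1, h2, node_of_diagonal (diagonal_of_extremal h1 h2 h3)⟩
  · rintro ⟨h1, h2, h3⟩
    exact ⟨h1, h2, extremal_of_node h1 h3⟩

theorem extremal_iff_diagonal (f : Plane → ℂ) :
    IsNormalExtremal f ↔ InB f ∧ (∀ x, ‖f x‖ ≤ 1) ∧ DiagonalConditions f := by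
  constructor
  · rintro ⟨h1, h2, h3⟩
    rw [normT_eq] at h3
    exact ⟨h1, h2, diagonal_of_extremal h1 h2 h3⟩
  · rintro ⟨h1, h2, h3⟩
    exact (extremal_iff_node f).mpr ⟨h1, h2, node_of_diagonal h3⟩

end Pool.Agent.Lib.MP_7ba380_an
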