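import Mathlib
import Pool.Agent.Lib.MP_7ba380_an.Characterisation

open MeasureTheory Set Filter Topology
open scoped Real SchwartzMap ContDiff

namespace Pool.Agent.Lib.MP_7ba380_an

/-- the product of the distances in elliptic form -/
lemma half_diff_eu (x : Plane) :
    |‖x - (π / 2) • eu‖ - ‖x - (-(π / 2)) • eu‖| / 2 * (‖x‖ + π / 2) ≥ π / 2 * |(inner ℝ eu x : ℝ)| := by
  set A := ‖x - (π / 2) • eu‖ with hA
  set B := ‖x - (-(π / 2)) • eu‖ with hB
  have e1 : |A - B| * (A + B) = 2 * π * |(inner ℝ eu x : ℝ)| := by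
    have h1 : (A - B) * (A + B) = -(2 * π) * (inner ℝ eu x : ℝ) := by
      have := norm_sub_eu_sq x (π / 2)
      have := norm_sub_eu_sq x (-(π / 2))
      rw [← hA] at *
      rw [← hB] at *
      nlinarith
    have h2 := congrArg abs h1
    rw [abs_mul, abs_mul, abs_neg, abs_of_nonneg (by positivity : 0 ≤ A + B),
      abs_of_pos (by positivity : (0:ℝ) < 2 * π)] at h2
    exact h2
  have hA' : A ≤ ‖x‖ + π / 2 := by
    refine (norm_sub_le _ _).trans ?_
    rw [norm_smul, norm_eu, mul_one, Real.norm_of_nonneg (by positivity)]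
  have hB' : B ≤ ‖x‖ + π / 2 := by
    refine (norm_sub_le _ _).trans ?_
    rw [norm_smul, norm_eu, mul_one, norm_neg, Real.norm_of_nonneg (by positivity)]
  have h3 : |A - B| * (A + B) ≤ |A - B| * (2 * (‖x‖ + π / 2)) :=
    mul_le_mul_of_nonneg_left (by linarith) (abs_nonneg _)
  nlinarith

lemma half_diff_ev (x : Plane) :
    |‖x - (π / 2) • ev‖ - ‖x - (-(π / 2)) • ev‖| / 2 * (‖x‖ + π / 2) ≥ π / 2 * |(inner ℝ ev x : ℝ)| := by
  set A := ‖x - (π / 2) • ev‖ with hA
  set B := ‖x - (-(π / 2)) • ev‖ with hB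
  have e1 : |A - B| * (A + B) = 2 * π * |(inner ℝ ev x : ℝ)| := by
    have h1 : (A - B) * (A + B) = -(2 * π) * (inner ℝ ev x : ℝ) := by
      have := norm_sub_ev_sq x (π / 2)
      have := norm_sub_ev_sq x (-(π / 2))
      rw [← hA] at *
      rw [← hB] at *
      nlinarith
    have h2 := congrArg abs h1
    rw [abs_mul, abs_mul, abs_neg, abs_of_nonneg (by positivity : 0 ≤ A + B),
      abs_of_pos (by positivity : (0:ℝ) < 2 * π)] at h2
    exact h2
  have hA' : A ≤ ‖x‖ + π / 2 := by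
    refine (norm_sub_le _ _).trans ?_
    rw [norm_smul, norm_ev, mul_one, Real.norm_of_nonneg (by positivity)]
  have hB' : B ≤ ‖x‖ + π / 2 := by
    refine (norm_sub_le _ _).trans ?_
    rw [norm_smul, norm_ev, mul_one, norm_neg, Real.norm_of_nonneg (by positivity)]
  have h3 : |A - B| * (A + B) ≤ |A - B| * (2 * (‖x‖ + π / 2)) :=
    mul_le_mul_of_nonneg_left (by linarith) (abs_nonneg _)
  nlinarith

/-- the weight `u² v² / (2 (|x| + π/2)^4)` -/
noncomputable def room (x : Plane) : ℝ :=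
  (inner ℝ eu x : ℝ) ^ 2 * (inner ℝ ev x : ℝ) ^ 2 / (2 * (‖x‖ + π / 2) ^ 4)

lemma g0_room (x : Plane) : |g0 x| ≤ 1 - room x := by
  have hg := g0_sq_le x
  have hu := half_diff_eu x
  have hv := half_diff_ev x
  set t := |‖x - (π / 2) • eu‖ - ‖x - (-(π / 2)) • eu‖| / 2 with ht
  set t' := |‖x - (π / 2) • ev‖ - ‖x - (-(π / 2)) • ev‖| / 2 with ht'
  set U := |(inner ℝ eu x : ℝ)| with hU
  set V := |(inner ℝ ev x : ℝ)| with hV
  have hpi := Real.pi_pos
  have ht0 : 0 ≤ t := by positivity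
  have ht'0 : 0 ≤ t' := by positivity
  have ht1 : t ≤ π / 2 := by
    have : |‖x - (π / 2) • eu‖ - ‖x - (-(π / 2)) • eu‖| ≤ π := by
      refine (abs_norm_sub_norm_le _ _).trans (le_of_eq ?_)
      rw [show x - (π / 2) • eu - (x - (-(π / 2)) • eu) = (-π) • eu by
        rw [sub_sub_sub_cancel_left, ← sub_smul]; congr 1; ring, norm_smul, norm_eu, norm_neg,
        Real.norm_of_nonneg Real.pi_pos.le, mul_one]
    rw [ht]; linarith
  have ht'1 : t' ≤ π / 2 := by
    have : |‖x - (π / 2) • ev‖ - ‖x - (-(π / 2)) • ev‖| ≤ π := by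
      refine (abs_norm_sub_norm_le _ _).trans (le_of_eq ?_)
      rw [show x - (π / 2) • ev - (x - (-(π / 2)) • ev) = (-π) • ev by
        rw [sub_sub_sub_cancel_left, ← sub_smul]; congr 1; ring, norm_smul, norm_ev, norm_neg,
        Real.norm_of_nonneg Real.pi_pos.le, mul_one]
    rw [ht']; linarith
  set r := ‖x‖ + π / 2 with hr
  have hr0 : 0 < r := by positivity
  have hU0 : 0 ≤ U := abs_nonneg _
  have hV0 : 0 ≤ V := abs_nonneg _
  have hs1 : 2 / π * t ≤ Real.sin t := Real.mul_le_sin ht0 ht1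
  have hs2 : 2 / π * t' ≤ Real.sin t' := Real.mul_le_sin ht'0 ht'1
  have hcu : U / r ≤ Real.sin t := by
    refine le_trans ?_ hs1
    rw [div_le_iff₀ hr0]
    have : 2 / π * t * r = 2 / π * (t * r) := by ring
    rw [this]
    calc U = 2 / π * (π / 2 * U) := by field_simp
      _ ≤ 2 / π * (t * r) := mul_le_mul_of_nonneg_left hu (by positivity)
  have hcv : V / r ≤ Real.sin t' := by
    refine le_trans ?_ hs2
    rw [div_le_iff₀ hr0]
    have : 2 / π * t' * r = 2 / π * (t' * r) := by ring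
    rw [this]
    calc V = 2 / π * (π / 2 * V) := by field_simp
      _ ≤ 2 / π * (t' * r) := mul_le_mul_of_nonneg_left hv (by positivity)
  have hc1 : 0 ≤ Real.cos t := Real.cos_nonneg_of_mem_Icc ⟨by linarith, ht1⟩
  have hc2 : 0 ≤ Real.cos t' := Real.cos_nonneg_of_mem_Icc ⟨by linarith, ht'1⟩
  have hcos : U / r * (V / r) ≤ Real.cos (t - t') := by
    rw [Real.cos_sub]
    have h1 : U / r * (V / r) ≤ Real.sin t * Real.sin t' :=
      mul_le_mul hcu hcv (by positivity) (le_trans (by positivity) hcu)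
    have h2 : 0 ≤ Real.cos t * Real.cos t' := mul_nonneg hc1 hc2
    linarith
  have hq : g0 x ^ 2 ≤ 1 - (U / r * (V / r)) ^ 2 := by
    refine hg.trans ?_
    rw [Real.sin_sq]
    have : (U / r * (V / r)) ^ 2 ≤ Real.cos (t - t') ^ 2 :=
      pow_le_pow_left₀ (by positivity) hcos 2
    linarith
  have hroom : room x = (U / r * (V / r)) ^ 2 / 2 := by
    rw [room, hU, hV, ← hr, mul_pow, div_pow, div_pow, sq_abs, sq_abs]
    field_simp
  rw [hroom]
  set z := (U / r * (V / r)) ^ 2 with hz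
  have hz0 : 0 ≤ z := by positivity
  have hz1 : z ≤ 1 := by linarith [sq_nonneg (g0 x)]
  refine abs_le_of_sq_le_sq ?_ (by linarith)
  nlinarith

/-- perturbations of the extremal function -/
theorem perturb {K : Plane → ℂ} (hK : InB K) (hb : ∀ x, ‖K x‖ ≤ room x) :
    IsNormalExtremal (fun x => f0 x + K x) := by
  have hKu : ∀ u : ℝ, K (u • eu) = 0 := by
    intro u
    have h1 : (inner ℝ ev (u • eu) : ℝ) = 0 := by
      rw [inner_smul_right, real_inner_comm, inner_eu_ev, mul_zero]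
    have h2 := hb (u • eu)
    rw [room, h1] at h2
    have h3 : ‖K (u • eu)‖ ≤ 0 := by simpa using h2
    exact norm_le_zero_iff.mp h3
  have hKv : ∀ u : ℝ, K (u • ev) = 0 := by
    intro u
    have h1 : (inner ℝ eu (u • ev) : ℝ) = 0 := by
      rw [inner_smul_right, inner_eu_ev, mul_zero]
    have h2 := hb (u • ev)
    rw [room, h1] at h2
    have h3 : ‖K (u • ev)‖ ≤ 0 := by simpa using h2
    exact norm_le_zero_iff.mp h3
  rw [extremal_iff_diagonal]
  refine ⟨InB_f0.add hK, fun x => ?_, ⟨0, 0, 0, by norm_num, by norm_num, fun u => ?_, fun v => ?_⟩⟩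
  · refine (norm_add_le _ _).trans ?_
    have h1 : ‖f0 x‖ = |g0 x| := by rw [f0, Complex.norm_real, Real.norm_eq_abs]
    rw [h1]
    linarith [g0_room x, hb x]
  · show f0 (u • eu) + K (u • eu) = _
    rw [hKu, f0_eu]
    push_cast
    ring
  · show f0 (v • ev) + K (v • ev) = _
    rw [hKv, f0_ev]
    push_cast
    ring

lemma extremal_f0 : IsNormalExtremal f0 := by
  have h := perturb (K := fun _ => 0) ⟨continuous_const, ⟨0, by simp⟩, by intro ψ _; simp⟩
    (fun x => by simp only [norm_zero]; unfold room; positivity)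
  simpa using h

end Pool.Agent.Lib.MP_7ba380_an
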