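import Mathlib
import Pool.Agent.Lib.MP_7ba380_an.Perturb

open MeasureTheory Set Filter Topology
open scoped Real SchwartzMap ContDiff FourierTransform

namespace Pool.Agent.Lib.MP_7ba380_an

/-- superpositions of plane waves with frequencies in the unit disc belong to `B(K₂)` -/
lemma InB_AF {G : Plane → ℂ} (hG : Continuous G) (hs : HasCompactSupport G)
    (hz : ∀ η, 1 < ‖η‖ → G η = 0) : InB (AF G) := by
  have hGi : Integrable G := hG.integrable_of_hasCompactSupport hs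
  refine ⟨(AF_contDiff hG hs).continuous, ⟨_, AF_norm_le⟩, ?_⟩
  intro ψ hψ
  have hi := fourierT_integrable ψ
  have h1 : ∀ x, AF G x * fourierT ψ x =
      ∫ η, (Complex.exp (Complex.I * ((inner ℝ x η : ℝ) : ℂ)) * G η) * fourierT ψ x := by
    intro x; rw [integral_mul_const]; rfl
  simp_rw [h1]
  rw [integral_integral_swap]
  · rw [integral_eq_zero_of_ae]
    refine Eventually.of_forall (fun η => ?_)
    simp only [Pi.zero_apply]
    by_cases hη : ‖η‖ ≤ 1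
    · have h2 : ∀ x, (Complex.exp (Complex.I * ((inner ℝ x η : ℝ) : ℂ)) * G η) * fourierT ψ x =
        G η * (Complex.exp (Complex.I * ((inner ℝ x η : ℝ) : ℂ)) * fourierT ψ x) := fun x => by ring
      simp_rw [h2]
      rw [integral_const_mul, Spec_wave hη ψ hψ, mul_zero]
    · simp [hz η (not_le.mp hη)]
  · have h3 : Integrable (fun z : Plane × Plane => fourierT ψ z.1 * G z.2) (volume.prod volume) :=
      hi.mul_prod hGi
    have h4 : (Function.uncurry fun x η => Complex.exp (Complex.I * ((inner ℝ x η : ℝ) : ℂ)) * G η * fourierT ψ x) =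
      fun z : Plane × Plane => (Complex.exp (Complex.I * ((inner ℝ z.1 z.2 : ℝ) : ℂ))) * (fourierT ψ z.1 * G z.2) := by
      ext z
      simp only [Function.uncurry]
      ring
    rw [h4]
    refine h3.bdd_mul (c := 1) ?_ ?_
    · exact Continuous.aestronglyMeasurable (by fun_prop)
    · exact Eventually.of_forall (fun z => (norm_exp_I _).le)

lemma wave_ch {δ : ℝ} (hδ : 0 < δ) (a x : Plane) :
    Complex.exp (Complex.I * ((inner ℝ x a : ℝ) : ℂ)) * ch hδ x = AF (fun η => th hδ (η - a)) x := by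
  unfold ch AF
  rw [← integral_const_mul]
  rw [← integral_sub_right_eq_self (fun η => Complex.exp (Complex.I * ((inner ℝ x a : ℝ) : ℂ)) *
    (Complex.exp (Complex.I * ((inner ℝ x η : ℝ) : ℂ)) * th hδ η)) a]
  congr 1
  ext η
  rw [← mul_assoc, ← Complex.exp_add]
  congr 2
  rw [inner_sub_right]
  push_cast
  ring

lemma InB_wave_ch {δ : ℝ} (hδ : 0 < δ) {a : Plane} (ha : ‖a‖ + δ ≤ 1) :
    InB (fun x => Complex.exp (Complex.I * ((inner ℝ x a : ℝ) : ℂ)) * ch hδ x) := by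
  have h1 : (fun x => Complex.exp (Complex.I * ((inner ℝ x a : ℝ) : ℂ)) * ch hδ x) =
      AF (fun η => th hδ (η - a)) := funext (wave_ch hδ a)
  have hz : ∀ η : Plane, 1 < ‖η‖ → th hδ (η - a) = 0 := by
    intro η hη
    refine th_zero hδ ?_
    have := norm_sub_norm_le η a
    linarith
  rw [h1]
  refine InB_AF ((th_cont hδ).comp (by fun_prop)) ?_ hz
  refine HasCompactSupport.intro (isCompact_closedBall (0:Plane) 1) ?_
  intro η hη
  rw [mem_closedBall_zero_iff, not_le] at hη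
  exact hz η hη

lemma ch_decay {δ : ℝ} (hδ : 0 < δ) : ∃ M : ℝ, 0 < M ∧ ∀ x : Plane, (‖x‖ + π / 2) ^ 4 * ‖ch hδ x‖ ≤ M := by
  set S := (th_compact hδ).toSchwartzMap (th_contDiff hδ) with hS
  obtain ⟨C, hC0, hC⟩ := (𝓕 S).decay 4 0
  have hch : ∀ x, ch hδ x = (𝓕 S) (-((2 * π)⁻¹ • x)) := by
    intro x
    rw [ch, AF_eq_fourier]; rfl
  refine ⟨8 * ((2 * π) ^ 4 * C) + 8 * (π / 2) ^ 4, by positivity, fun x => ?_⟩
  have h1 := hC (-((2 * π)⁻¹ • x))
  rw [norm_iteratedFDeriv_zero, ← hch, norm_neg, norm_smul, norm_inv, Real.norm_of_nonneg (by positivity : (0:ℝ) ≤ 2 * π),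
    mul_pow] at h1
  have h2 : ‖x‖ ^ 4 * ‖ch hδ x‖ ≤ (2 * π) ^ 4 * C := by
    have h3 : ‖x‖ ^ 4 * ‖ch hδ x‖ = (2 * π) ^ 4 * (((2 * π)⁻¹) ^ 4 * ‖x‖ ^ 4 * ‖ch hδ x‖) := by
      have := Real.pi_ne_zero
      field_simp
    rw [h3]
    exact mul_le_mul_of_nonneg_left h1 (by positivity)
  have h4 : (‖x‖ + π / 2) ^ 4 ≤ 8 * (‖x‖ ^ 4 + (π / 2) ^ 4) := by
    have hab : ∀ a b : ℝ, (a + b) ^ 4 ≤ 8 * (a ^ 4 + b ^ 4) := by
      intro a b
      have e1 : (a + b) ^ 2 ≤ 2 * (a ^ 2 + b ^ 2) := by nlinarith [sq_nonneg (a - b)]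
      have e2 : ((a + b) ^ 2) ^ 2 ≤ (2 * (a ^ 2 + b ^ 2)) ^ 2 := pow_le_pow_left₀ (sq_nonneg _) e1 2
      nlinarith [sq_nonneg (a ^ 2 - b ^ 2)]
    exact hab _ _
  calc (‖x‖ + π / 2) ^ 4 * ‖ch hδ x‖ ≤ 8 * (‖x‖ ^ 4 + (π / 2) ^ 4) * ‖ch hδ x‖ :=
        mul_le_mul_of_nonneg_right h4 (norm_nonneg _)
    _ = 8 * (‖x‖ ^ 4 * ‖ch hδ x‖) + 8 * (π / 2) ^ 4 * ‖ch hδ x‖ := by ring
    _ ≤ 8 * ((2 * π) ^ 4 * C) + 8 * (π / 2) ^ 4 * 1 := by
        gcongr
        exact ch_norm_le hδ x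
    _ = _ := by ring

lemma quarter_pos : (0:ℝ) < 1 / 4 := by norm_num

/-- the basic perturbation -/
noncomputable def K0 (x : Plane) : ℂ :=
  (Complex.exp (Complex.I * ((1 / 8 * inner ℝ eu x : ℝ) : ℂ)) - 1) ^ 2 *
    (Complex.exp (Complex.I * ((1 / 8 * inner ℝ ev x : ℝ) : ℂ)) - 1) ^ 2 * ch quarter_pos x

/-- the modulation -/
noncomputable def Zm (s : ℝ) (x : Plane) : ℂ := Complex.exp (Complex.I * ((s * inner ℝ eu x : ℝ) : ℂ))

lemma K0_bound : ∃ M : ℝ, 0 < M ∧ ∀ x : Plane, ‖K0 x‖ ≤ M * room x := by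
  obtain ⟨M, hM0, hM⟩ := ch_decay quarter_pos
  refine ⟨2 * M, by positivity, fun x => ?_⟩
  have hr : 0 < ‖x‖ + π / 2 := by positivity
  have h1 : ∀ r : ℝ, ‖Complex.exp (Complex.I * ((1 / 8 * r : ℝ) : ℂ)) - 1‖ ^ 2 ≤ r ^ 2 := by
    intro r
    have h2 := norm_exp_sub_one_le (1 / 8 * r)
    rw [abs_mul, abs_of_pos (by norm_num : (0:ℝ) < 1 / 8)] at h2
    have h3 : ‖Complex.exp (Complex.I * ((1 / 8 * r : ℝ) : ℂ)) - 1‖ ≤ |r| := by
      linarith [abs_nonneg r]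
    calc ‖Complex.exp (Complex.I * ((1 / 8 * r : ℝ) : ℂ)) - 1‖ ^ 2 ≤ |r| ^ 2 :=
          pow_le_pow_left₀ (norm_nonneg _) h3 2
      _ = r ^ 2 := sq_abs r
  rw [K0, norm_mul, norm_mul, norm_pow, norm_pow, room]
  have hch : ‖ch quarter_pos x‖ ≤ M / (‖x‖ + π / 2) ^ 4 := by
    rw [le_div_iff₀ (by positivity)]
    have := hM x
    linarith
  calc _ ≤ (inner ℝ eu x : ℝ) ^ 2 * (inner ℝ ev x : ℝ) ^ 2 * (M / (‖x‖ + π / 2) ^ 4) :=
        mul_le_mul (mul_le_mul (h1 _) (h1 _) (by positivity) (by positivity)) hch (norm_nonneg _)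
          (by positivity)
    _ = 2 * M * ((inner ℝ eu x : ℝ) ^ 2 * (inner ℝ ev x : ℝ) ^ 2 / (2 * (‖x‖ + π / 2) ^ 4)) := by
        field_simp

lemma InB_ZK {s : ℝ} (hs0 : 0 ≤ s) (hs : s ≤ 1 / 4) : InB (fun x => Zm s x * K0 x) := by
  have hW : ∀ k l : ℕ, k ≤ 2 → l ≤ 2 → InB (fun x => Zm s x *
      Complex.exp (Complex.I * ((1 / 8 * inner ℝ eu x : ℝ) : ℂ)) ^ k *
      Complex.exp (Complex.I * ((1 / 8 * inner ℝ ev x : ℝ) : ℂ)) ^ l * ch quarter_pos x) := by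
    intro k l hk hl
    have hk' : (k:ℝ) ≤ 2 := by exact_mod_cast hk
    have hl' : (l:ℝ) ≤ 2 := by exact_mod_cast hl
    have hk0 : (0:ℝ) ≤ k := Nat.cast_nonneg k
    have hl0 : (0:ℝ) ≤ l := Nat.cast_nonneg l
    have h1 := InB_wave_ch quarter_pos (a := (s + k / 8) • eu + ((l:ℝ) / 8) • ev) (by
      have h2 : ‖(s + k / 8) • eu + ((l:ℝ) / 8) • ev‖ ≤ (s + k / 8) + (l:ℝ) / 8 := by
        refine (norm_add_le _ _).trans ?_
        rw [norm_smul, norm_smul, norm_eu, norm_ev, mul_one, mul_one, Real.norm_of_nonneg (by positivity),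
          Real.norm_of_nonneg (by positivity)]
      linarith)
    convert h1 using 1
    ext x
    rw [← Complex.exp_nat_mul, ← Complex.exp_nat_mul, Zm, ← Complex.exp_add, ← Complex.exp_add]
    congr 2
    rw [inner_add_right, inner_smul_right, inner_smul_right, real_inner_comm eu x, real_inner_comm ev x]
    push_cast
    ring
  have h22 := hW 2 2 (by norm_num) (by norm_num)
  have h12 := hW 1 2 (by norm_num) (by norm_num)
  have h02 := hW 0 2 (by norm_num) (by norm_num)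
  have h21 := hW 2 1 (by norm_num) (by norm_num)
  have h11 := hW 1 1 (by norm_num) (by norm_num)
  have h01 := hW 0 1 (by norm_num) (by norm_num)
  have h20 := hW 2 0 (by norm_num) (by norm_num)
  have h10 := hW 1 0 (by norm_num) (by norm_num)
  have h00 := hW 0 0 (by norm_num) (by norm_num)
  have hsum := (((h22.add (h12.const_mul (-2))).add h02).add
    (((h21.const_mul (-2)).add (h11.const_mul 4)).add (h01.const_mul (-2)))).add
    ((h20.add (h10.const_mul (-2))).add h00)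
  convert hsum using 1
  ext x
  rw [K0]
  ring

end Pool.Agent.Lib.MP_7ba380_an
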