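import Mathlib
import Pool.Agent.Lib.MP_7ba380_an.Family

open Set Filter Topology
open scoped Real

namespace Pool.Agent.Lib.MP_7ba380_an

lemma ZK_mem {s : ℝ} (hs0 : 0 ≤ s) (hs : s ≤ 1 / 4) :
    (fun x => Zm s x * K0 x) ∈ Submodule.span ℂ {f : Plane → ℂ | IsNormalExtremal f} := by
  obtain ⟨M, hM0, hM⟩ := K0_bound
  have h1 := (InB_ZK hs0 hs).const_mul (((M⁻¹ : ℝ) : ℂ))
  have h2 : ∀ x, ‖((M⁻¹ : ℝ) : ℂ) * (Zm s x * K0 x)‖ ≤ room x := by
    intro x
    rw [norm_mul, norm_mul, Complex.norm_real, Real.norm_of_nonneg (by positivity), Zm, norm_exp_I, one_mul,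
      inv_mul_le_iff₀ hM0]
    exact hM x
  have h3 := Submodule.subset_span (R := ℂ) (show _ ∈ {f : Plane → ℂ | IsNormalExtremal f} from perturb h1 h2)
  have h4 := Submodule.subset_span (R := ℂ) (show _ ∈ {f : Plane → ℂ | IsNormalExtremal f} from extremal_f0)
  have h5 := Submodule.smul_mem _ ((M : ℝ) : ℂ) (Submodule.sub_mem _ h3 h4)
  convert h5 using 1
  ext x
  simp only [Pi.smul_apply, Pi.sub_apply, smul_eq_mul, add_sub_cancel_left]
  have : ((M : ℝ) : ℂ) * ((M⁻¹ : ℝ) : ℂ) = 1 := by
    rw [← Complex.ofReal_mul, mul_inv_cancel₀ hM0.ne']; simp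
  rw [← mul_assoc, this, one_mul]

lemma exp_sub_one_ne {r : ℝ} (h0 : 0 < r) (h1 : r ≤ 1) : Complex.exp (Complex.I * (r : ℂ)) - 1 ≠ 0 := by
  intro h
  have h2 : Complex.exp (Complex.I * (r : ℂ)) = Complex.exp 0 := by
    rw [Complex.exp_zero]; linear_combination h
  have hpi := Real.pi_gt_three
  have h3 := Complex.exp_inj_of_neg_pi_lt_of_le_pi (x := Complex.I * (r : ℂ)) (y := 0)
    (by simp; linarith) (by simp; linarith) (by simp; linarith) (by simp; linarith) h2
  rcases mul_eq_zero.mp h3 with h | h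
  · exact Complex.I_ne_zero h
  · have : r = 0 := by exact_mod_cast h
    linarith

lemma K0_ne {r : ℝ} (h0 : 0 < r) (h1 : r ≤ 1) : K0 (r • eu + (1:ℝ) • ev) ≠ 0 := by
  have e1 : (inner ℝ eu (r • eu + (1:ℝ) • ev) : ℝ) = r := by
    rw [inner_add_right, inner_smul_right, inner_smul_right, inner_eu_ev, real_inner_self_eq_norm_sq, norm_eu]
    ring
  have e2 : (inner ℝ ev (r • eu + (1:ℝ) • ev) : ℝ) = 1 := by
    rw [inner_add_right, inner_smul_right, inner_smul_right, real_inner_comm, inner_eu_ev,
      real_inner_self_eq_norm_sq, norm_ev]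
    ring
  have e3 : ‖r • eu + (1:ℝ) • ev‖ ≤ 2 := by
    refine (norm_add_le _ _).trans ?_
    rw [norm_smul, norm_smul, norm_eu, norm_ev, Real.norm_of_nonneg h0.le]
    norm_num
    linarith
  rw [K0, e1, e2]
  refine mul_ne_zero (mul_ne_zero (pow_ne_zero 2 ?_) (pow_ne_zero 2 ?_)) ?_
  · exact exp_sub_one_ne (by linarith) (by linarith)
  · exact exp_sub_one_ne (by norm_num) (by norm_num)
  · intro h
    have h4 := ch_sub_one quarter_pos (r • eu + (1:ℝ) • ev)
    rw [h, zero_sub, norm_neg, norm_one] at h4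
    linarith

theorem span_not_finite :
    ¬ FiniteDimensional ℂ (Submodule.span ℂ {f : Plane → ℂ | IsNormalExtremal f}) := by
  intro hfin
  set V := Submodule.span ℂ {f : Plane → ℂ | IsNormalExtremal f} with hV
  set N := Module.finrank ℂ V with hN
  set s : ℝ := 1 / (4 * ((N:ℝ) + 1)) with hs
  have hs0 : 0 < s := by positivity
  have hsj : ∀ j : Fin (N + 1), s * (j : ℕ) ≤ 1 / 4 := by
    intro j
    have h1 : ((j : ℕ) : ℝ) ≤ (N:ℝ) + 1 := by
      have := j.2
      exact_mod_cast this.le
    rw [hs, div_mul_eq_mul_div, one_mul, div_le_div_iff₀ (by positivity) (by norm_num)]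
    linarith
  let v : Fin (N + 1) → V := fun j => ⟨fun x => Zm (s * (j : ℕ)) x * K0 x, ZK_mem (by positivity) (hsj j)⟩
  have hli : LinearIndependent ℂ v := by
    rw [Fintype.linearIndependent_iff]
    intro g hg i
    have h1 : ∀ x : Plane, (∑ j : Fin (N + 1), g j * Zm (s * (j : ℕ)) x) * K0 x = 0 := by
      intro x
      have h2 := congrArg (fun w : V => (w : Plane → ℂ) x) hg
      simp only [Submodule.coe_sum, Submodule.coe_smul, Finset.sum_apply, Pi.smul_apply, smul_eq_mul,
        ZeroMemClass.coe_zero, Pi.zero_apply, v] at h2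
      rw [Finset.sum_mul, ← h2]
      refine Finset.sum_congr rfl (fun j _ => ?_)
      ring
    let P : Polynomial ℂ := ∑ j : Fin (N + 1), Polynomial.C (g j) * Polynomial.X ^ (j : ℕ)
    have hroot : ∀ r : ℝ, 0 < r → r ≤ 1 → P.IsRoot (Complex.exp (Complex.I * ((s * r : ℝ) : ℂ))) := by
      intro r hr0 hr1
      have h3 := h1 (r • eu + (1:ℝ) • ev)
      rcases mul_eq_zero.mp h3 with h | h
      · rw [Polynomial.IsRoot, Polynomial.eval_finsetSum, ← h]
        refine Finset.sum_congr rfl (fun j _ => ?_)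
        have e1 : (inner ℝ eu (r • eu + (1:ℝ) • ev) : ℝ) = r := by
          rw [inner_add_right, inner_smul_right, inner_smul_right, inner_eu_ev, real_inner_self_eq_norm_sq, norm_eu]
          ring
        rw [Polynomial.eval_mul, Polynomial.eval_C, Polynomial.eval_pow, Polynomial.eval_X, Zm, e1,
          ← Complex.exp_nat_mul]
        congr 2
        push_cast
        ring
      · exact absurd h (K0_ne hr0 hr1)
    have hP : P = 0 := by
      refine Polynomial.eq_zero_of_infinite_isRoot P ?_
      refine Set.infinite_of_injective_forall_mem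
        (f := fun m : ℕ => Complex.exp (Complex.I * ((s * (1 / ((m:ℝ) + 1)) : ℝ) : ℂ))) ?_ ?_
      · intro m m' hmm
        have hs1 : s ≤ 1 := by
          rw [hs, div_le_one (by positivity)]
          linarith [(Nat.cast_nonneg N : (0:ℝ) ≤ N)]
        have hb : ∀ m : ℕ, 0 < s * (1 / ((m:ℝ) + 1)) ∧ s * (1 / ((m:ℝ) + 1)) ≤ 1 := by
          intro m
          refine ⟨by positivity, ?_⟩
          have : 1 / ((m:ℝ) + 1) ≤ 1 := by
            rw [div_le_one (by positivity)]
            linarith [(Nat.cast_nonneg m : (0:ℝ) ≤ m)]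
          have h0 : 0 < 1 / ((m:ℝ) + 1) := by positivity
          nlinarith
        have hpi := Real.pi_gt_three
        have h4 := Complex.exp_inj_of_neg_pi_lt_of_le_pi
          (x := Complex.I * ((s * (1 / ((m:ℝ) + 1)) : ℝ) : ℂ)) (y := Complex.I * ((s * (1 / ((m':ℝ) + 1)) : ℝ) : ℂ))
          (by rw [Complex.I_mul_im, Complex.ofReal_re]; linarith [(hb m).1])
          (by rw [Complex.I_mul_im, Complex.ofReal_re]; linarith [(hb m).2])
          (by rw [Complex.I_mul_im, Complex.ofReal_re]; linarith [(hb m').1])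
          (by rw [Complex.I_mul_im, Complex.ofReal_re]; linarith [(hb m').2]) hmm
        have h5 := mul_left_cancel₀ Complex.I_ne_zero h4
        have h6 : s * (1 / ((m:ℝ) + 1)) = s * (1 / ((m':ℝ) + 1)) := by exact_mod_cast h5
        have h7 := mul_left_cancel₀ hs0.ne' h6
        rw [div_eq_div_iff (by positivity) (by positivity), one_mul, one_mul] at h7
        have h8 : (m':ℝ) = m := by linarith
        exact_mod_cast h8.symm
      · intro m
        refine hroot _ (by positivity) ?_
        rw [div_le_one (by positivity)]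
        linarith [(Nat.cast_nonneg m : (0:ℝ) ≤ m)]
    have hc : P.coeff (i : ℕ) = g i := by
      simp only [P, Polynomial.finsetSum_coeff, Polynomial.coeff_C_mul, Polynomial.coeff_X_pow]
      rw [Finset.sum_eq_single i]
      · simp
      · intro j _ hji
        have : ¬ ((i : ℕ) = (j : ℕ)) := fun h => hji (Fin.ext h.symm)
        simp [this]
      · intro h; exact absurd (Finset.mem_univ _) h
    rw [← hc, hP, Polynomial.coeff_zero]
  have hcard := hli.fintype_card_le_finrank
  rw [Fintype.card_fin] at hcard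
  omega

end Pool.Agent.Lib.MP_7ba380_an
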