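import Mathlib
import Pool.Agent.Lib.MP_7ba380_an.Span

open Set
open scoped Real

namespace Pool.Agent.Lib.MP_7ba380_an

lemma basicExtremal_eq : basicExtremal = f0 := by
  ext x
  rw [basicExtremal, f0, g0]
  simp only [neg_smul, sub_neg_eq_add]

/-- description of all normal extremals -/
theorem extremals_main :
    (∀ f : Plane → ℂ, IsNormalExtremal f ↔ InB f ∧ (∀ x, ‖f x‖ ≤ 1) ∧ NodeConditions f) ∧
    (∀ f : Plane → ℂ, IsNormalExtremal f ↔ InB f ∧ (∀ x, ‖f x‖ ≤ 1) ∧ DiagonalConditions f) ∧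
    IsNormalExtremal basicExtremal ∧
    (∀ K : Plane → ℂ, InB K → (∀ x, ‖K x‖ ≤ weight x) →
      IsNormalExtremal (fun x => basicExtremal x + K x)) ∧
    ¬ FiniteDimensional ℂ (Submodule.span ℂ {f : Plane → ℂ | IsNormalExtremal f}) := by
  refine ⟨extremal_iff_node, extremal_iff_diagonal, ?_, ?_, span_not_finite⟩
  · rw [basicExtremal_eq]; exact extremal_f0
  · intro K hK hb
    rw [basicExtremal_eq]
    exact perturb hK hb

end Pool.Agent.Lib.MP_7ba380_an
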